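import Mathlib

/-!
# Unique factorisation of power series into factors `1 - x^m`
-/

set_option autoImplicit false

namespace Pool.Agent.Lib.MP_fe1391_co.Thick51

open PowerSeries

/-- multiplicity of a value -/
def cn51 {ι : Type*} [Fintype ι] (f : ι → ℕ) (m : ℕ) : ℕ :=
  (Finset.univ.filter fun i => f i = m).card

theorem prod_big51 {ι : Type*} (s : Finset ι) (f : ι → ℕ) (n : ℕ) (h : ∀ i ∈ s, n < f i) :
    ∃ G : PowerSeries ℤ, ∏ i ∈ s, (1 - X ^ (f i + 1)) = 1 + X ^ (n + 2) * G := by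
  classical
  induction s using Finset.induction_on with
  | empty => exact ⟨0, by simp⟩
  | insert a s ha ih =>
    obtain ⟨G, hG⟩ := ih fun i hi => h i (Finset.mem_insert_of_mem hi)
    have h1 := h a (Finset.mem_insert_self _ _)
    obtain ⟨t, ht⟩ := Nat.exists_eq_add_of_lt h1
    refine ⟨G - X ^ t * (1 + X ^ (n + 2) * G), ?_⟩
    rw [Finset.prod_insert ha, hG, ht]
    ring

theorem pow51 (n a : ℕ) : ∃ G : PowerSeries ℤ,
    (1 - X ^ (n + 1) : PowerSeries ℤ) ^ a = 1 - C (a : ℤ) * X ^ (n + 1) + X ^ (n + 2) * G := by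
  induction a with
  | zero => exact ⟨0, by simp⟩
  | succ a ih =>
    obtain ⟨G, hG⟩ := ih
    refine ⟨C (a : ℤ) * X ^ n + G * (1 - X ^ (n + 1)), ?_⟩
    have e : (C (((a + 1 : ℕ) : ℤ)) : PowerSeries ℤ) = C (a : ℤ) + 1 := by
      push_cast
      rw [map_add, map_one]
    rw [pow_succ, hG, e]
    ring

theorem W51 {ι : Type*} [Fintype ι] (f : ι → ℕ) (n : ℕ) : ∃ G : PowerSeries ℤ,
    ∏ i, (1 - X ^ (f i + 1)) = (∏ m ∈ Finset.range n, (1 - X ^ (m + 1)) ^ cn51 f m) *
      (1 - C (cn51 f n : ℤ) * X ^ (n + 1)) + X ^ (n + 2) * G := by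
  classical
  have h1 : ∏ i, (1 - X ^ (f i + 1) : PowerSeries ℤ) =
      (∏ i ∈ Finset.univ.filter (fun i => f i < n), (1 - X ^ (f i + 1))) *
      ((∏ i ∈ Finset.univ.filter (fun i => f i = n), (1 - X ^ (f i + 1))) *
      ∏ i ∈ Finset.univ.filter (fun i => n < f i), (1 - X ^ (f i + 1))) := by
    rw [← Finset.prod_filter_mul_prod_filter_not Finset.univ (fun i => f i < n)]
    congr 1
    rw [← Finset.prod_filter_mul_prod_filter_not (Finset.univ.filter (fun i => ¬ f i < n))
      (fun i => f i = n), Finset.filter_filter, Finset.filter_filter]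
    congr 1
    · refine Finset.prod_congr ?_ fun _ _ => rfl
      ext i
      simp only [Finset.mem_filter, Finset.mem_univ, true_and]
      omega
    · refine Finset.prod_congr ?_ fun _ _ => rfl
      ext i
      simp only [Finset.mem_filter, Finset.mem_univ, true_and]
      omega
  have h2 : ∏ i ∈ Finset.univ.filter (fun i => f i < n), (1 - X ^ (f i + 1) : PowerSeries ℤ) =
      ∏ m ∈ Finset.range n, (1 - X ^ (m + 1)) ^ cn51 f m := by
    rw [← Finset.prod_fiberwise_of_maps_to (s := Finset.univ.filter (fun i => f i < n))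
      (t := Finset.range n) (g := f) (fun i hi => by
        rw [Finset.mem_filter] at hi
        rw [Finset.mem_range]
        exact hi.2)]
    refine Finset.prod_congr rfl fun m hm => ?_
    rw [Finset.mem_range] at hm
    rw [Finset.filter_filter]
    have e : Finset.univ.filter (fun i => f i < n ∧ f i = m) =
        Finset.univ.filter (fun i => f i = m) := by
      ext i
      simp only [Finset.mem_filter, Finset.mem_univ, true_and]
      omega
    rw [e, cn51, ← Finset.prod_const]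
    refine Finset.prod_congr rfl fun i hi => ?_
    rw [Finset.mem_filter] at hi
    rw [hi.2]
  have h3 : ∏ i ∈ Finset.univ.filter (fun i => f i = n), (1 - X ^ (f i + 1) : PowerSeries ℤ) =
      (1 - X ^ (n + 1)) ^ cn51 f n := by
    rw [cn51, ← Finset.prod_const]
    refine Finset.prod_congr rfl fun i hi => ?_
    rw [Finset.mem_filter] at hi
    rw [hi.2]
  obtain ⟨G1, hG1⟩ := prod_big51 (Finset.univ.filter (fun i => n < f i)) f n fun i hi => by
    rw [Finset.mem_filter] at hi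
    exact hi.2
  obtain ⟨G2, hG2⟩ := pow51 n (cn51 f n)
  rw [h1, h2, h3, hG1, hG2]
  refine ⟨(∏ m ∈ Finset.range n, (1 - X ^ (m + 1)) ^ cn51 f m) *
    (G2 + (1 - C (cn51 f n : ℤ) * X ^ (n + 1)) * G1 + X ^ (n + 2) * G1 * G2), ?_⟩
  ring

theorem coeff_step51 (Q G : PowerSeries ℤ) (n : ℕ) (a : ℤ) (hQ : coeff 0 Q = 1) :
    coeff (n + 1) (Q * (1 - C a * X ^ (n + 1)) + X ^ (n + 2) * G) = coeff (n + 1) Q - a := by
  have e : Q * (1 - C a * X ^ (n + 1)) = Q - C a * (Q * X ^ (n + 1)) := by ring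
  rw [e, map_add, map_sub, coeff_C_mul, coeff_X_pow_mul', if_neg (by omega), add_zero]
  have h : coeff (n + 1) (Q * X ^ (n + 1)) = coeff 0 Q := by
    have := coeff_mul_X_pow Q (n + 1) 0
    rwa [zero_add] at this
  rw [h, hQ, mul_one]

theorem uf51 {ι κ : Type*} [Fintype ι] [Fintype κ] (e : ι → ℕ) (d : κ → ℕ) (δ : ℤ) (h : ℕ)
    (G : PowerSeries ℤ)
    (H : (∏ i, (1 - X ^ (e i + 1)) : PowerSeries ℤ) =
      ∏ i, (1 - X ^ (d i + 1)) - C δ * X ^ (h + 1) + X ^ (h + 2) * G) :
    (∀ n < h, cn51 e n = cn51 d n) ∧ (cn51 e h : ℤ) = cn51 d h + δ := by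
  have step : ∀ n ≤ h, (∀ m < n, cn51 e m = cn51 d m) →
      (cn51 e n : ℤ) = cn51 d n + if n = h then δ else 0 := by
    intro n hn hlt
    obtain ⟨G1, hG1⟩ := W51 e n
    obtain ⟨G2, hG2⟩ := W51 d n
    have hQ : ∏ m ∈ Finset.range n, (1 - X ^ (m + 1) : PowerSeries ℤ) ^ cn51 e m =
        ∏ m ∈ Finset.range n, (1 - X ^ (m + 1)) ^ cn51 d m :=
      Finset.prod_congr rfl fun m hm => by rw [hlt m (Finset.mem_range.1 hm)]
    rw [hG1, hG2, hQ] at H
    have hQ0 : coeff 0 (∏ m ∈ Finset.range n, (1 - X ^ (m + 1) : PowerSeries ℤ) ^ cn51 d m) = 1 := by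
      rw [coeff_zero_eq_constantCoeff_apply, map_prod]
      refine Finset.prod_eq_one fun m _ => ?_
      rw [map_pow, map_sub, map_one, map_pow, constantCoeff_X, zero_pow (by omega), sub_zero,
        one_pow]
    have h1 := congrArg (coeff (n + 1)) H
    rw [coeff_step51 _ _ _ _ hQ0, map_add, map_sub, coeff_step51 _ _ _ _ hQ0] at h1
    have h2 : coeff (n + 1) (X ^ (h + 2) * G) = 0 := by
      rw [coeff_X_pow_mul', if_neg (by omega)]
    have h3 : coeff (n + 1) (C δ * X ^ (h + 1) : PowerSeries ℤ) = if n = h then δ else 0 := by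
      rw [coeff_C_mul, coeff_X_pow]
      by_cases hnh : n = h
      · rw [if_pos (by omega), if_pos hnh, mul_one]
      · rw [if_neg (by omega), if_neg hnh, mul_zero]
    rw [h2, h3] at h1
    omega
  have hlt : ∀ n, n < h → cn51 e n = cn51 d n := by
    intro n
    induction n using Nat.strong_induction_on with
    | _ n ih =>
      intro hn
      have h1 := step n hn.le fun m hm => ih m hm (by omega)
      rw [if_neg (by omega)] at h1
      omega
  refine ⟨hlt, ?_⟩
  have h1 := step h le_rfl hlt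
  rwa [if_pos rfl] at h1

theorem sum_cn51 {ι : Type*} [Fintype ι] (f : ι → ℕ) (n : ℕ) :
    ∑ m ∈ Finset.range n, cn51 f m = (Finset.univ.filter fun i => f i < n).card := by
  classical
  rw [Finset.card_eq_sum_card_fiberwise (f := f) (t := Finset.range n)]
  · refine Finset.sum_congr rfl fun m hm => ?_
    rw [Finset.mem_range] at hm
    rw [cn51, Finset.filter_filter]
    congr 1
    ext i
    simp only [Finset.mem_filter, Finset.mem_univ, true_and]
    omega
  · intro i hi
    simpa using hi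

/-- the count below and in the first bad degree -/
theorem count51 {ℓ r : ℕ} (e : Fin ℓ → ℕ) (d : Fin r → ℕ) (δ : ℤ) (h : ℕ) (G : PowerSeries ℤ)
    (H : (∏ i, (1 - X ^ (e i + 1)) : PowerSeries ℤ) =
      ∏ i, (1 - X ^ (d i + 1)) - C δ * X ^ (h + 1) + X ^ (h + 2) * G) :
    0 ≤ (cn51 d h : ℤ) + δ ∧
      (((Finset.univ.filter fun i => d i < h + 1).card : ℕ) : ℤ) + δ ≤ ℓ := by
  obtain ⟨h1, h2⟩ := uf51 e d δ h G H
  refine ⟨by rw [← h2]; positivity, ?_⟩
  have h3 : ∑ m ∈ Finset.range (h + 1), cn51 e m ≤ ℓ := by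
    rw [sum_cn51]
    exact (Finset.card_le_univ _).trans (by simp)
  have h4 : ∑ m ∈ Finset.range h, cn51 e m = ∑ m ∈ Finset.range h, cn51 d m :=
    Finset.sum_congr rfl fun m hm => h1 m (Finset.mem_range.1 hm)
  have h5 := sum_cn51 d (h + 1)
  rw [Finset.sum_range_succ] at h3 h5
  rw [h4] at h3
  rw [← h5]
  have h6 : ((∑ m ∈ Finset.range h, cn51 d m : ℕ) : ℤ) + cn51 e h ≤ ℓ := by exact_mod_cast h3
  rw [h2] at h6
  push_cast at h6 ⊢
  linarith

end Pool.Agent.Lib.MP_fe1391_co.Thick51
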