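import Pool.Agent.Lib.MP_fe1391_co.Thick51.Dim
import Pool.Agent.Lib.MP_fe1391_co.Thick51.Uf
import Pool.Agent.Lib.MP_fe1391_co.Tame.Fwd

/-!
# The Solomon-Terao series up to the first relation or the next generator
-/

set_option autoImplicit false

namespace Pool.Agent.Lib.MP_fe1391_co.Thick51

open MvPolynomial Pool.Agent.Lib.MP_fe1391_co.Tame

universe u

variable {K : Type u} [Field K] {ℓ : ℕ} {r : ℕ}

/-- the dimension of the space of homogeneous logarithmic `p`-derivations -/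
noncomputable def dm51 (B : Finset (Fin ℓ → K)) (p : ℕ) (m : ℤ) : ℕ :=
  Module.finrank K (Hm grS (fun _ : (Fin p → Fin ℓ) => 0) m ⊓
    (LogA (S K ℓ) B p).restrictScalars K : Submodule K ((Fin p → Fin ℓ) → S K ℓ))

/-- Hilbert series of the polynomial ring -/
noncomputable def HS51 (K : Type u) [Field K] (ℓ : ℕ) : PowerSeries ℤ :=
  PowerSeries.mk fun k : ℕ => ((Module.finrank K (grS (K := K) (ℓ := ℓ) (k : ℤ)) : ℕ) : ℤ)

/-- Hilbert series of `D^p` -/
noncomputable def DS51 (B : Finset (Fin ℓ → K)) (p : ℕ) : PowerSeries ℤ :=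
  PowerSeries.mk fun k : ℕ => ((dm51 B p k : ℕ) : ℤ)

/-- the Solomon-Terao series -/
noncomputable def PS51 (B : Finset (Fin ℓ → K)) : PowerSeries ℤ :=
  ∑ p ∈ Finset.range (ℓ + 1), DS51 B p * (-PowerSeries.X) ^ p

/-- the Hilbert series of the exterior powers of a free module -/
noncomputable def ES51 (K : Type u) [Field K] (ℓ : ℕ) (d : Fin r → ℕ) (p : ℕ) : PowerSeries ℤ :=
  (∑ s ∈ Finset.powersetCard p (Finset.univ : Finset (Fin r)),
    PowerSeries.X ^ (∑ i ∈ s, d i)) * HS51 K ℓ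

theorem coeff_ES51 (d : Fin r → ℕ) (p k : ℕ) :
    PowerSeries.coeff k (ES51 K ℓ d p) =
      ((∑ I : Fin p ↪o Fin r, Module.finrank K (grS (K := K) (ℓ := ℓ) (k - sd51 d I)) : ℕ) : ℤ) := by
  have h1 : ES51 K ℓ d p =
      (∑ I : Fin p ↪o Fin r, PowerSeries.X ^ (∑ j, d (I j))) * HS51 K ℓ := by
    unfold ES51
    rw [← Fwd.sum_emb]
    congr 1
    refine Finset.sum_congr rfl fun I _ => ?_
    rw [Finset.sum_map]
    rfl
  rw [h1, Finset.sum_mul, map_sum]
  push_cast
  refine Finset.sum_congr rfl fun I _ => ?_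
  have e : sd51 d I = ((∑ j, d (I j) : ℕ) : ℤ) := by
    unfold sd51
    push_cast
    rfl
  rw [PowerSeries.coeff_X_pow_mul', e]
  by_cases h : ∑ j, d (I j) ≤ k
  · rw [if_pos h, HS51, PowerSeries.coeff_mk, Nat.cast_sub h]
  · rw [if_neg h, grS, if_neg (by omega)]
    simp

theorem coeff_one51 (d : Fin r → ℕ) (k : ℕ) :
    PowerSeries.coeff k (ES51 K ℓ d 1) =
      ((∑ i : Fin r, Module.finrank K (grS (K := K) (ℓ := ℓ) (k - d i)) : ℕ) : ℤ) := by
  have h1 : ES51 K ℓ d 1 = (∑ i : Fin r, PowerSeries.X ^ (d i)) * HS51 K ℓ := by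
    unfold ES51
    rw [Finset.powersetCard_one, Finset.sum_map]
    congr 1
  rw [h1, Finset.sum_mul, map_sum]
  push_cast
  refine Finset.sum_congr rfl fun i _ => ?_
  rw [PowerSeries.coeff_X_pow_mul']
  by_cases h : d i ≤ k
  · rw [if_pos h, HS51, PowerSeries.coeff_mk, Nat.cast_sub h]
  · rw [if_neg h, grS, if_neg (by omega)]
    simp

theorem DS_zero51 (B : Finset (Fin ℓ → K)) (d : Fin r → ℕ) : DS51 B 0 = ES51 K ℓ d 0 := by
  ext k
  rw [coeff_ES51, DS51, PowerSeries.coeff_mk, dm51]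
  congr 1
  have h1 : (Hm grS (fun _ : (Fin 0 → Fin ℓ) => 0) (k : ℤ) ⊓
    (LogA (S K ℓ) B 0).restrictScalars K : Submodule K ((Fin 0 → Fin ℓ) → S K ℓ)) =
      Hm grS (fun _ : (Fin 0 → Fin ℓ) => 0) (k : ℤ) := by
    apply le_antisymm inf_le_left
    refine le_inf le_rfl fun a _ => ?_
    show a ∈ LogA (S K ℓ) B 0
    rw [Trans.mem_logA]
    exact ⟨⟨fun w hw => absurd (Function.injective_of_subsingleton w) hw, fun w i => i.elim0⟩,
      fun b _ w j => j.elim0⟩
  rw [h1, Top.finrank_Hm (Grad.thmS K ℓ), sub_zero]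
  have e2 : ∀ I : Fin 0 ↪o Fin r, sd51 d I = 0 := by
    intro I
    unfold sd51
    simp
  have e3 : ∀ I : Fin 0 ↪o Fin r, Module.finrank K (grS (K := K) (ℓ := ℓ) (k - sd51 d I)) =
      Module.finrank K (grS (K := K) (ℓ := ℓ) (k : ℤ)) := by
    intro I
    rw [e2, sub_zero]
  rw [Finset.sum_congr rfl fun I _ => e3 I, Finset.sum_const, Finset.sum_const, Finset.card_univ, Finset.card_univ]
  congr 1
  rw [Fintype.card_eq_one_iff_nonempty_unique.2 ⟨inferInstance⟩]
  symm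
  rw [Fintype.card_eq_one_iff]
  refine ⟨⟨⟨fun a => a.elim0, fun a => a.elim0⟩, fun {a} => a.elim0⟩, fun I => ?_⟩
  ext a
  exact a.elim0

theorem DS_big51 (B : Finset (Fin ℓ → K)) {p : ℕ} (hp : ℓ < p) : DS51 B p = 0 := by
  ext k
  rw [DS51, PowerSeries.coeff_mk, dm51, map_zero]
  have h1 : (Hm grS (fun _ : (Fin p → Fin ℓ) => 0) (k : ℤ) ⊓
    (LogA (S K ℓ) B p).restrictScalars K : Submodule K ((Fin p → Fin ℓ) → S K ℓ)) = ⊥ := by
    rw [eq_bot_iff]
    rintro a ⟨_, ha⟩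
    have ha' : a ∈ LogA (S K ℓ) B p := ha
    rw [Submodule.mem_bot]
    funext w
    apply ha'.1.nz
    intro hinj
    have := Fintype.card_le_of_injective w hinj
    simp only [Fintype.card_fin] at this
    omega
  rw [h1, finrank_bot]
  rfl

theorem coeff_eq51 {B : Finset (Fin ℓ → K)} (hB : Tame.Norm B) {d : Fin r → ℕ}
    {θ : Fin r → Fin ℓ → S K ℓ} {h : ℕ} (hF : FU51 B d θ ((h : ℤ) - 1)) (p : ℕ) {k : ℕ}
    (hk : k < h) : PowerSeries.coeff k (DS51 B p) = PowerSeries.coeff k (ES51 K ℓ d p) := by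
  rw [coeff_ES51, DS51, PowerSeries.coeff_mk, dm51, finrank51 hB hF p (by omega)]

/-- new generators minus relations in degree `h` -/
noncomputable def del51 (B : Finset (Fin ℓ → K)) (d : Fin r → ℕ) (h : ℕ) : ℤ :=
  (dm51 B 1 h : ℤ) - ∑ i : Fin r, (Module.finrank K (grS (K := K) (ℓ := ℓ) (h - d i)) : ℤ)

theorem sum_ES51 (d : Fin r → ℕ) (N : ℕ) (hN : r < N) :
    ∑ p ∈ Finset.range N, ES51 K ℓ d p * (-PowerSeries.X) ^ p =
      HS51 K ℓ * ∏ i, (1 - PowerSeries.X ^ (d i + 1)) := by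
  have e1 : ∀ p ∈ Finset.range N, ES51 K ℓ d p * (-PowerSeries.X) ^ p =
      HS51 K ℓ * ∑ I ∈ Finset.powersetCard p (Finset.univ : Finset (Fin r)),
        ∏ i ∈ I, (-(PowerSeries.X : PowerSeries ℤ) ^ (d i + 1)) := by
    intro p _
    unfold ES51
    rw [mul_right_comm, mul_comm]
    congr 1
    rw [Finset.sum_mul]
    refine Finset.sum_congr rfl fun I hI => ?_
    rw [Finset.mem_powersetCard] at hI
    rw [← hI.2, ← Finset.prod_pow_eq_pow_sum, ← Finset.prod_const, ← Finset.prod_mul_distrib]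
    exact Finset.prod_congr rfl fun i _ => by ring
  rw [Finset.sum_congr rfl e1, ← Finset.mul_sum]
  congr 1
  have e3 : ∑ p ∈ Finset.range (r + 1),
      ∑ I ∈ Finset.powersetCard p (Finset.univ : Finset (Fin r)),
        ∏ i ∈ I, (-(PowerSeries.X : PowerSeries ℤ) ^ (d i + 1)) =
      ∏ i, (1 + (-(PowerSeries.X : PowerSeries ℤ) ^ (d i + 1))) := by
    rw [Finset.prod_one_add, Finset.sum_powerset]
    simp
  simp only [← sub_eq_add_neg] at e3
  rw [← e3]
  symm
  apply Finset.sum_subset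
  · intro x hx
    rw [Finset.mem_range] at hx ⊢
    omega
  · intro x _ hx'
    rw [Finset.mem_range] at hx'
    rw [Finset.powersetCard_eq_empty.2 (by simp; omega), Finset.sum_empty]

theorem ser51 (hℓ : 1 ≤ ℓ) {B : Finset (Fin ℓ → K)} (hB : Tame.Norm B) {d : Fin r → ℕ}
    {θ : Fin r → Fin ℓ → S K ℓ} {h : ℕ} (hF : FU51 B d θ ((h : ℤ) - 1)) :
    ∃ G : PowerSeries ℤ, PS51 B * (1 - PowerSeries.X) ^ ℓ =
      ∏ i, (1 - PowerSeries.X ^ (d i + 1)) - PowerSeries.C (del51 B d h) * PowerSeries.X ^ (h + 1) +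
        PowerSeries.X ^ (h + 2) * G := by
  have hA : ∀ p, ∃ G : PowerSeries ℤ, DS51 B p * (-PowerSeries.X) ^ p =
      ES51 K ℓ d p * (-PowerSeries.X) ^ p +
      (if p = 1 then - PowerSeries.C (del51 B d h) * PowerSeries.X ^ (h + 1) else 0) +
        PowerSeries.X ^ (h + 2) * G := by
    intro p
    rcases Nat.lt_or_ge p 2 with hp | hp
    · interval_cases p
      · refine ⟨0, ?_⟩
        rw [if_neg (by omega), DS_zero51 B d]
        ring
      · have h1 : PowerSeries.X ^ (h + 1) ∣ DS51 B 1 - ES51 K ℓ d 1 -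
            PowerSeries.C (del51 B d h) * PowerSeries.X ^ h := by
          rw [PowerSeries.X_pow_dvd_iff]
          intro m hm
          rw [map_sub, map_sub, PowerSeries.coeff_C_mul, PowerSeries.coeff_X_pow]
          rcases Nat.lt_or_ge m h with hmh | hmh
          · rw [coeff_eq51 hB hF 1 hmh, if_neg (by omega)]
            ring
          · obtain rfl : m = h := by omega
            rw [if_pos rfl, coeff_one51, DS51, PowerSeries.coeff_mk, del51]
            push_cast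
            ring
        obtain ⟨G, hG⟩ := h1
        refine ⟨-G, ?_⟩
        rw [if_pos rfl]
        have h2 : DS51 B 1 = ES51 K ℓ d 1 + PowerSeries.C (del51 B d h) * PowerSeries.X ^ h +
            PowerSeries.X ^ (h + 1) * G := by
          linear_combination hG
        rw [h2]
        ring
    · have h1 : PowerSeries.X ^ h ∣ DS51 B p - ES51 K ℓ d p := by
        rw [PowerSeries.X_pow_dvd_iff]
        intro m hm
        rw [map_sub, coeff_eq51 hB hF p hm, sub_self]
      obtain ⟨G, hG⟩ := h1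
      obtain ⟨q, rfl⟩ := Nat.exists_eq_add_of_le hp
      refine ⟨G * (-PowerSeries.X) ^ q, ?_⟩
      have h2 : DS51 B (2 + q) = ES51 K ℓ d (2 + q) + PowerSeries.X ^ h * G := by
        linear_combination hG
      rw [if_neg (by omega), h2, pow_add (-PowerSeries.X : PowerSeries ℤ) 2 q]
      ring
  choose G hG using hA
  have hP : PS51 B = ∑ p ∈ Finset.range (ℓ + r + 2), DS51 B p * (-PowerSeries.X) ^ p := by
    unfold PS51
    apply Finset.sum_subset
    · intro x hx
      rw [Finset.mem_range] at hx ⊢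
      omega
    · intro x _ hx'
      rw [Finset.mem_range] at hx'
      rw [DS_big51 B (by omega), zero_mul]
  have hHS : HS51 K ℓ * (1 - PowerSeries.X) ^ ℓ = 1 := Grad.thmHS K ℓ
  have hX : ∃ U : PowerSeries ℤ, (1 - PowerSeries.X : PowerSeries ℤ) ^ ℓ =
      1 + PowerSeries.X * U := by
    have h1 : (PowerSeries.X : PowerSeries ℤ) ∣ (1 - PowerSeries.X) ^ ℓ - 1 := by
      have h2 := sub_dvd_pow_sub_pow (1 - PowerSeries.X : PowerSeries ℤ) 1 ℓ
      rw [one_pow] at h2
      refine Dvd.dvd.trans ?_ h2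
      exact ⟨-1, by ring⟩
    obtain ⟨U, hU⟩ := h1
    exact ⟨U, by linear_combination hU⟩
  obtain ⟨U, hU⟩ := hX
  refine ⟨(∑ p ∈ Finset.range (ℓ + r + 2), G p) * (1 - PowerSeries.X) ^ ℓ -
    PowerSeries.C (del51 B d h) * U, ?_⟩
  rw [hP, Finset.sum_congr rfl fun p _ => hG p, Finset.sum_add_distrib, Finset.sum_add_distrib,
    sum_ES51 d _ (by omega), Finset.sum_ite_eq', if_pos (by rw [Finset.mem_range]; omega),
    ← Finset.mul_sum]
  have h9 : (HS51 K ℓ * ∏ i, (1 - PowerSeries.X ^ (d i + 1))) * (1 - PowerSeries.X) ^ ℓ =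
      ∏ i, (1 - PowerSeries.X ^ (d i + 1)) := by
    rw [mul_right_comm, hHS, one_mul]
  have h10 : ∀ a b c : PowerSeries ℤ, (a + b + c) * (1 - PowerSeries.X) ^ ℓ =
      a * (1 - PowerSeries.X) ^ ℓ + b * (1 - PowerSeries.X) ^ ℓ +
        c * (1 - PowerSeries.X) ^ ℓ := fun a b c => by ring
  rw [h10, h9]
  have h11 : -PowerSeries.C (del51 B d h) * PowerSeries.X ^ (h + 1) *
      (1 - PowerSeries.X : PowerSeries ℤ) ^ ℓ =
      -PowerSeries.C (del51 B d h) * PowerSeries.X ^ (h + 1) * (1 + PowerSeries.X * U) := by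
    rw [hU]
  rw [h11]
  ring

end Pool.Agent.Lib.MP_fe1391_co.Thick51
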