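import Pool.Agent.Lib.MP_fe1391_co.Thick51.Tr

/-!
# The theorem on the product form
-/

set_option autoImplicit false

namespace Pool.Agent.Lib.MP_fe1391_co.Thick51

open MvPolynomial Pool.Agent.Lib.MP_fe1391_co.Tame

universe u

variable {K : Type u} [Field K] {ℓ : ℕ} {r : ℕ}

/-- homogeneous coefficients of a combination of degree `m` -/
theorem coef_iff51 (d m : ℕ) (c : S K ℓ) :
    (c = 0 ∨ (d ≤ m ∧ c.IsHomogeneous (m - d))) ↔
      c ∈ grS (K := K) (ℓ := ℓ) ((m : ℤ) - d) := by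
  rcases Nat.lt_or_ge m d with h | h
  · constructor
    · rintro (rfl | ⟨h1, -⟩)
      · exact Submodule.zero_mem _
      · omega
    · intro hc
      exact Or.inl (grS_neg51 (by omega) hc)
  · have e : (m : ℤ) - d = ((m - d : ℕ) : ℤ) := by omega
    rw [e]
    constructor
    · rintro (rfl | ⟨-, h2⟩)
      · exact Submodule.zero_mem _
      · exact grS_of_hom51 h2
    · intro hc
      exact Or.inr ⟨h, hom_of_grS51 hc⟩

/-- evaluation on the variables -/
theorem der_zero_iff51 (D : Derivation K (S K ℓ) (S K ℓ)) : D = 0 ↔ ∀ j, D (X j) = 0 := by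
  constructor
  · rintro rfl j
    rfl
  · intro h
    apply derivation_ext
    intro i
    rw [h i]
    rfl

theorem sum_apply51 (θ : Fin r → Derivation K (S K ℓ) (S K ℓ)) (c : Fin r → S K ℓ) (j : Fin ℓ) :
    (∑ i, c i • θ i) (X j) = ∑ i, c i * θ i (X j) := by
  have h := map_sum (Derivation.coeFnAddMonoidHom :
    Derivation K (S K ℓ) (S K ℓ) →+ (S K ℓ → S K ℓ)) (fun i => c i • θ i) Finset.univ
  have h2 := congrFun h (X j)
  rw [Finset.sum_apply] at h2
  exact h2

theorem mem_span_iff51 (θ : Fin r → Derivation K (S K ℓ) (S K ℓ))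
    (η : Derivation K (S K ℓ) (S K ℓ)) :
    η ∈ Submodule.span (S K ℓ) (Set.range θ) ↔
      ∃ c : Fin r → S K ℓ, ∀ j, η (X j) = ∑ i, c i * θ i (X j) := by
  rw [Submodule.mem_span_range_iff_exists_fun]
  constructor
  · rintro ⟨c, rfl⟩
    exact ⟨c, fun j => sum_apply51 θ c j⟩
  · rintro ⟨c, hc⟩
    refine ⟨c, ?_⟩
    apply derivation_ext
    intro j
    rw [sum_apply51, hc j]

/-- the derivation with given values -/
theorem exists_der51 (v : Fin ℓ → S K ℓ) :
    ∃ η : Derivation K (S K ℓ) (S K ℓ), ∀ j, η (X j) = v j :=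
  ⟨mkDerivation K v, fun j => mkDerivation_X K v j⟩

/-- the space of homogeneous relations of degree `m` -/
noncomputable def RelD51 (d : Fin r → ℕ) (θ : Fin r → Derivation K (S K ℓ) (S K ℓ)) (m : ℕ) :
    Submodule K (Fin r → S K ℓ) :=
  Submodule.span K {c | (∀ i, c i = 0 ∨ (d i ≤ m ∧ (c i).IsHomogeneous (m - d i))) ∧
    ∑ i, c i • θ i = 0}

theorem relD_eq51 (d : Fin r → ℕ) (θ : Fin r → Derivation K (S K ℓ) (S K ℓ)) (m : ℕ) :
    RelD51 d θ m = Hm (K := K) (A := S K ℓ) grS (fun i => (d i : ℤ)) (m : ℤ) ⊓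
      LinearMap.ker (cmb51 fun i j => θ i (X j)) := by
  have h0 : ∀ c : Fin r → S K ℓ, ∑ i, c i • θ i = 0 ↔
      cmb51 (fun i j => θ i (X j)) c = 0 := by
    intro c
    rw [der_zero_iff51]
    simp only [sum_apply51]
    exact funext_iff.symm
  have h1 : ({c | (∀ i, c i = 0 ∨ (d i ≤ m ∧ (c i).IsHomogeneous (m - d i))) ∧
      ∑ i, c i • θ i = 0} : Set (Fin r → S K ℓ)) =
      (Hm (K := K) (A := S K ℓ) grS (fun i => (d i : ℤ)) (m : ℤ) ⊓
      LinearMap.ker (cmb51 fun i j => θ i (X j)) : Submodule K (Fin r → S K ℓ)) := by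
    ext c
    rw [Set.mem_ofPred_eq, SetLike.mem_coe, Submodule.mem_inf, LinearMap.mem_ker, h0]
    refine and_congr_left fun _ => ?_
    constructor
    · intro h i
      exact (coef_iff51 _ _ _).1 (h i)
    · intro h i
      exact (coef_iff51 _ _ _).2 (h i)
  rw [RelD51, h1, Submodule.span_eq]

theorem rl_iff51 (d : Fin r → ℕ) (θ : Fin r → Derivation K (S K ℓ) (S K ℓ)) (m : ℕ) :
    Rl51 d (fun i j => θ i (X j)) m ↔ RelD51 d θ m ≠ ⊥ := by
  rw [relD_eq51, Submodule.ne_bot_iff]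
  unfold Rl51
  constructor
  · rintro ⟨c, h1, h2, i, hi⟩
    exact ⟨c, ⟨h1, LinearMap.mem_ker.2 (funext h2)⟩, fun h => hi (by rw [h]; rfl)⟩
  · rintro ⟨c, ⟨h1, h2⟩, h3⟩
    exact ⟨c, h1, fun j => congrFun (LinearMap.mem_ker.1 h2) j, Function.ne_iff.1 h3⟩

theorem card_lt51 {ℓ r : ℕ} (e : Fin ℓ → ℕ) (d : Fin r → ℕ) (h : ℕ)
    (h1 : ∀ n < h, cn51 e n = cn51 d n) : (Finset.univ.filter fun i => d i < h).card ≤ ℓ := by
  rw [← sum_cn51, ← Finset.sum_congr rfl fun m hm => h1 m (Finset.mem_range.1 hm), sum_cn51]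
  exact (Finset.card_le_univ _).trans (by simp)

/-- the count at the first relation, for generators -/
theorem first_rel51 (hℓ : 1 ≤ ℓ) {B : Finset (Fin ℓ → K)} (hB : Tame.Norm B) {d : Fin r → ℕ}
    {θ : Fin r → Fin ℓ → S K ℓ} (hhom : ∀ i j, (θ i j).IsHomogeneous (d i))
    (hlog : ∀ i, Saito.IsLog B (θ i)) (hgen : Sp51 B θ) {R : ℕ}
    (hR : ∀ m < R, ¬ Rl51 d θ m) (hP : PF51 B) :
    Module.finrank K (Hm (K := K) (A := S K ℓ) grS (fun i => (d i : ℤ)) (R : ℤ) ⊓
      LinearMap.ker (cmb51 θ) : Submodule K (Fin r → S K ℓ)) ≤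
      (Finset.univ.filter fun i => d i = R).card ∧
    (Finset.univ.filter fun i => d i < R).card ≤ ℓ ∧
    (Finset.univ.filter fun i => d i ≤ R).card ≤ ℓ +
      Module.finrank K (Hm (K := K) (A := S K ℓ) grS (fun i => (d i : ℤ)) (R : ℤ) ⊓
      LinearMap.ker (cmb51 θ) : Submodule K (Fin r → S K ℓ)) := by
  have hF : FU51 B d θ ((R : ℤ) - 1) := by
    refine ⟨hhom, hlog, fun m _ v hv hvm => ?_, noRel51 fun m hm => hR m (by omega)⟩
    obtain ⟨c, hc⟩ := hgen v hv
    exact homog51 hhom hvm hc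
  have h3 : DV51 B (R : ℤ) = GV51 d θ R := by
    apply le_antisymm
    · rintro v ⟨hv, hvm⟩
      obtain ⟨c, hc⟩ := hgen v hv
      obtain ⟨c', hc1, hc2⟩ := homog51 hhom hvm hc
      exact ⟨c', hc1, funext fun j => (hc2 j).symm⟩
    · exact GV_le51 hhom hlog _
  have h4 := finrank_GV51 d θ (R : ℤ)
  rw [← h3, ← dm_one51] at h4
  obtain ⟨h1, h2⟩ := cnt51 hℓ hB hF hP
  obtain ⟨e, he⟩ := hP
  obtain ⟨G, hG⟩ := ser51 hℓ hB hF
  have hH : (∏ i, (1 - PowerSeries.X ^ (e i + 1)) : PowerSeries ℤ) =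
      ∏ i, (1 - PowerSeries.X ^ (d i + 1)) -
        PowerSeries.C (del51 B d R) * PowerSeries.X ^ (R + 1) +
        PowerSeries.X ^ (R + 2) * G := by
    rw [← hG, he]
    have e4 : (1 - PowerSeries.X : PowerSeries ℤ) ^ ℓ = ∏ _i : Fin ℓ, (1 - PowerSeries.X) := by
      simp
    rw [e4, ← Finset.prod_mul_distrib]
    refine Finset.prod_congr rfl fun i _ => ?_
    rw [geom_sum_mul_neg]
  have h5 := card_lt51 e d R (uf51 e d (del51 B d R) R G hH).1
  have h6 : (Finset.univ.filter fun i => d i < R + 1) = Finset.univ.filter fun i => d i ≤ R := by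
    ext i
    simp only [Finset.mem_filter, Finset.mem_univ, true_and]
    omega
  rw [h6] at h2
  rw [cn51] at h1
  rw [del_cast51] at h1 h2
  refine ⟨by omega, h5, by omega⟩

theorem free_zero51 (N : Submodule (S K 0) (Derivation K (S K 0) (S K 0))) :
    Module.Free (S K 0) N := by
  have h : Subsingleton N := by
    refine ⟨fun x y => Subtype.ext ?_⟩
    apply derivation_ext
    intro i
    exact i.elim0
  exact Module.Free.of_subsingleton _ _

theorem thmP51 (K : Type u) [Field K] (ℓ : ℕ)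
    (A : Finset (Submodule K (Fin ℓ → K)))
    (hA : ∀ H ∈ A, ∃ a : Module.Dual K (Fin ℓ → K), a ≠ 0 ∧ LinearMap.ker a = H)
    (r : ℕ) (θ : Fin r → Derivation K (MvPolynomial (Fin ℓ) K) (MvPolynomial (Fin ℓ) K))
    (d : Fin r → ℕ) (hd : ∀ i j, (θ i (X j)).IsHomogeneous (d i))
    (hspan : Submodule.span (MvPolynomial (Fin ℓ) K) (Set.range θ) = Assemble.LDer K A)
    (hR : ∀ R : ℕ, (∀ m < R, RelD51 d θ m = ⊥) → RelD51 d θ R ≠ ⊥ →
      (Finset.univ.filter fun i => d i = R).card < Module.finrank K (RelD51 d θ R) ∨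
      ℓ < (Finset.univ.filter fun i => d i < R).card ∨
      ℓ + Module.finrank K (RelD51 d θ R) < (Finset.univ.filter fun i => d i ≤ R).card) :
    Module.Free (MvPolynomial (Fin ℓ) K) (Assemble.LDer K A) ↔
      ∃ e : Fin ℓ → ℕ, Assemble.Psi K A =
        ∏ i, ∑ j ∈ Finset.range (e i + 1), PowerSeries.X ^ j := by
  classical
  obtain ⟨B, hB, hcard, hPsi, hmem, hfree, hdim⟩ := trans51 A hA
  have hθ : ∀ i, θ i ∈ Assemble.LDer K A := by
    intro i
    rw [← hspan]
    exact Submodule.subset_span ⟨i, rfl⟩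
  have hhom : ∀ i j, ((fun i j => θ i (X j)) i j).IsHomogeneous (d i) := hd
  have hlog : ∀ i, Saito.IsLog B ((fun i j => θ i (X j)) i) := fun i => (hmem _).1 (hθ i)
  constructor
  · intro hf
    obtain ⟨e, he⟩ := pf_of_free51 hB (hfree.2 hf)
    exact ⟨e, by rw [hPsi, PS51]; exact he⟩
  · rintro ⟨e, he⟩
    rcases Nat.eq_zero_or_pos ℓ with rfl | hℓ
    · exact free_zero51 _
    have hP : PF51 B := ⟨e, by rw [← hPsi, he]⟩
    apply hfree.1
    have hsp : Sp51 B (fun i j => θ i (X j)) := by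
      intro v hv
      obtain ⟨η, hη⟩ := exists_der51 v
      have h3 : η ∈ Assemble.LDer K A := (hmem η).2 (by simp only [hη]; exact hv)
      rw [← hspan] at h3
      obtain ⟨c, hc⟩ := (mem_span_iff51 θ η).1 h3
      exact ⟨c, fun j => by rw [← hη, hc j]⟩
    have hno : ∀ m, ¬ Rl51 d (fun i j => θ i (X j)) m := by
      by_contra hcon
      push Not at hcon
      have hR1 := Nat.find_spec hcon
      have hR2 : ∀ m < Nat.find hcon, ¬ Rl51 d (fun i j => θ i (X j)) m :=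
        fun m hm => Nat.find_min hcon hm
      obtain ⟨h1, h2, h3⟩ := first_rel51 hℓ hB hhom hlog hsp hR2 hP
      rw [← relD_eq51] at h1 h3
      have h4 := hR (Nat.find hcon) (fun m hm => by
        by_contra hne
        exact hR2 m hm ((rl_iff51 d θ m).2 hne)) ((rl_iff51 d θ _).1 hR1)
      omega
    exact free51 hlog hsp (ind_of_noRel51 hhom hno)

end Pool.Agent.Lib.MP_fe1391_co.Thick51
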