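import Pool.Agent.Lib.MP_fe1391_co.Thick51.Half
import Pool.Agent.Lib.MP_fe1391_co.Thick51.AsmP

/-!
# The submodule generated in low degrees
-/

set_option autoImplicit false

namespace Pool.Agent.Lib.MP_fe1391_co.Thick51

open MvPolynomial Pool.Agent.Lib.MP_fe1391_co.Tame

universe u

variable {K : Type u} [Field K] {ℓ : ℕ} {r : ℕ}

/-- homogeneous logarithmic vector fields of degree at most `k` -/
def LD51 (B : Finset (Fin ℓ → K)) (k : ℕ) : Set (Fin ℓ → S K ℓ) :=
  {v | ∃ m ≤ k, v ∈ DV51 B (m : ℤ)}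

/-- the submodule generated by the fields of degree at most `k` -/
noncomputable def Low51 (B : Finset (Fin ℓ → K)) (k : ℕ) : Submodule (S K ℓ) (Fin ℓ → S K ℓ) :=
  Submodule.span (S K ℓ) (LD51 B k)

theorem pS_mul51 {n : ℤ} {a : S K ℓ} (ha : a ∈ grS (K := K) (ℓ := ℓ) n) (m : ℤ) (b : S K ℓ) :
    Grad.pS m (a * b) = a * Grad.pS (m - n) b :=
  Top.proj_mul (grS_mul51 (K := K) (ℓ := ℓ)) (fun m a => Grad.pS_mem m a)
    (fun m a h => by rw [Grad.pS_of_mem h, if_pos rfl])
    (fun m n a h hn => by rw [Grad.pS_of_mem h, if_neg hn]) Grad.pS_sum ha m b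

theorem low_proj51 {B : Finset (Fin ℓ → K)} {k : ℕ} {v : Fin ℓ → S K ℓ} (hv : v ∈ Low51 B k)
    (m : ℤ) : (fun j => Grad.pS m (v j)) ∈ Low51 B k := by
  induction hv using Submodule.closure_induction with
  | zero =>
    have : (fun j : Fin ℓ => Grad.pS m ((0 : Fin ℓ → S K ℓ) j)) = 0 := by
      funext j
      rw [Pi.zero_apply, map_zero]
    rw [this]
    exact Submodule.zero_mem _
  | add x y _ _ hx hy =>
    have : (fun j => Grad.pS m ((x + y) j)) =
        (fun j => Grad.pS m (x j)) + fun j => Grad.pS m (y j) := by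
      funext j
      rw [Pi.add_apply, Pi.add_apply, map_add]
    rw [this]
    exact Submodule.add_mem _ hx hy
  | smul_mem a x hx =>
    obtain ⟨n, hn, hx1⟩ := hx
    have : (fun j => Grad.pS m ((a • x) j)) = Grad.pS (m - n) a • x := by
      funext j
      rw [Pi.smul_apply, smul_eq_mul, mul_comm, pS_mul51 (hx1.2 j), Pi.smul_apply, smul_eq_mul,
        mul_comm]
    rw [this]
    exact Submodule.smul_mem _ _ (Submodule.subset_span ⟨n, hn, hx1⟩)

theorem low_gr51 (B : Finset (Fin ℓ → K)) (k : ℕ) :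
    IsGr (K := K) (A := S K ℓ) grS (fun _ : Fin ℓ => (0 : ℤ)) (Low51 B k) := by
  classical
  intro v hv
  choose s hs hs' using fun j => Grad.pS_sum (v j)
  refine ⟨Finset.univ.biUnion s, fun m j => Grad.pS m (v j), fun m _ => ⟨low_proj51 hv m, ?_⟩, ?_⟩
  · intro j
    rw [sub_zero]
    exact Grad.pS_mem _ _
  · funext j
    rw [Finset.sum_apply]
    rw [← Finset.sum_subset (s₁ := s j) (Finset.subset_biUnion_of_mem s (Finset.mem_univ j))]
    · exact hs j
    · intro m _ hm
      exact hs' j m hm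

theorem low_log51 {B : Finset (Fin ℓ → K)} {k : ℕ} {v : Fin ℓ → S K ℓ} (hv : v ∈ Low51 B k) :
    Saito.IsLog B v := by
  induction hv using Submodule.span_induction with
  | mem x hx =>
    obtain ⟨n, _, hx⟩ := hx
    exact hx.1
  | zero => intro b _; simp
  | add x y _ _ hx hy =>
    intro b hb
    have := dvd_add (hx b hb) (hy b hb)
    simpa only [Pi.add_apply, mul_add, Finset.sum_add_distrib] using this
  | smul a x _ hx => exact Saito.isLog_smul a hx

/-- a homogeneous basis of the submodule generated in low degrees -/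
theorem low_basis51 {B : Finset (Fin ℓ → K)} {k : ℕ}
    (hfree : Module.Free (S K ℓ) (Low51 B k)) :
    ∃ (r : ℕ) (d : Fin r → ℕ) (θ : Fin r → Fin ℓ → S K ℓ), FU51 B d θ (k : ℤ) ∧
      (∀ i, d i ≤ k) ∧ Ind51 θ := by
  classical
  have hpd : CategoryTheory.HasProjectiveDimensionLE
      (ModuleCat.of (S K ℓ) (Low51 B k)) 0 := by
    have hP : Module.Projective (S K ℓ) (Low51 B k) := inferInstance
    rw [IsProjective.iff_projective,
      CategoryTheory.projective_iff_hasProjectiveDimensionLE_zero] at hP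
    exact hP
  obtain ⟨T, ε, hT⟩ := Final.res K ℓ (Fin ℓ) (Low51 B k) 0 (low_gr51 B k) hpd
  have hinj : ∀ t, ε.mulVec t = 0 → t = 0 := by
    intro t ht
    obtain ⟨w, hw⟩ := (hT.ker t).1 ht
    have : IsEmpty (T.ι 1) := hT.len 1 one_pos
    rw [hw]
    funext i
    simp [Matrix.mulVec, dotProduct]
  let e : Fin (Fintype.card (T.ι 0)) ≃ T.ι 0 := (Fintype.equivFin (T.ι 0)).symm
  let θ : Fin (Fintype.card (T.ι 0)) → Fin ℓ → S K ℓ := fun i j => ε j (e i)
  let d : Fin (Fintype.card (T.ι 0)) → ℕ := fun i => (T.deg 0 (e i)).toNat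
  have hdeg : ∀ i, (d i : ℤ) = T.deg 0 (e i) := fun i => Int.toNat_of_nonneg (hT.nonneg 0 (e i))
  have hsum : ∀ (c : Fin (Fintype.card (T.ι 0)) → S K ℓ) j,
      ∑ i, c i * θ i j = ε.mulVec (fun x => c (e.symm x)) j := by
    intro c j
    change _ = ∑ x, ε j x * c (e.symm x)
    rw [← Equiv.sum_comp e]
    refine Finset.sum_congr rfl fun i _ => ?_
    rw [Equiv.symm_apply_apply, mul_comm]
  have hind : Ind51 θ := by
    intro c hc i
    have h1 := hinj (fun x => c (e.symm x)) (by
      funext j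
      rw [← hsum, hc j]
      rfl)
    have := congrFun h1 (e i)
    simpa using this
  have hmem : ∀ i, θ i ∈ Low51 B k := by
    intro i
    rw [hT.surj]
    refine ⟨Pi.single (e i) 1, ?_⟩
    funext j
    rw [Matrix.mulVec_single_one]
    rfl
  have hhom : ∀ i j, (θ i j).IsHomogeneous (d i) := by
    intro i j
    have h1 := hT.eh j (e i)
    rw [sub_zero, ← hdeg] at h1
    exact hom_of_grS51 h1
  have hgen : ∀ v ∈ Low51 B k, ∃ c : Fin (Fintype.card (T.ι 0)) → S K ℓ,
      ∀ j, v j = ∑ i, c i * θ i j := by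
    intro v hv
    obtain ⟨t, ht⟩ := (hT.surj v).1 hv
    refine ⟨fun i => t (e i), fun j => ?_⟩
    rw [hsum, ht]
    congr 1
    simp
  refine ⟨_, d, θ, ⟨hhom, fun i => low_log51 (hmem i), fun m hm v hv hvm => ?_,
    fun m _ c _ h0 => hind c h0⟩, fun a => ?_, hind⟩
  · rcases lt_or_ge m 0 with hm0 | hm0
    · refine ⟨0, fun i => Submodule.zero_mem _, fun j => ?_⟩
      rw [grS_neg51 hm0 (hvm j)]
      simp
    · obtain ⟨n, rfl⟩ := Int.eq_ofNat_of_zero_le hm0
      obtain ⟨c, hc⟩ := hgen v (Submodule.subset_span ⟨n, by omega, hv, hvm⟩)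
      exact homog51 hhom hvm hc
  · by_contra hda
    push Not at hda
    let W : Submodule (S K ℓ) (Fin ℓ → S K ℓ) := {
      carrier := {v | ∃ c : Fin (Fintype.card (T.ι 0)) → S K ℓ, c a = 0 ∧
        ∀ j, v j = ∑ i, c i * θ i j}
      add_mem' := by
        rintro x y ⟨c, hc0, hc⟩ ⟨c', hc0', hc'⟩
        refine ⟨c + c', by rw [Pi.add_apply, hc0, hc0', add_zero], fun j => ?_⟩
        rw [Pi.add_apply, hc j, hc' j, ← Finset.sum_add_distrib]
        exact Finset.sum_congr rfl fun i _ => by rw [Pi.add_apply]; ring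
      zero_mem' := ⟨0, rfl, fun j => by simp⟩
      smul_mem' := by
        rintro x y ⟨c, hc0, hc⟩
        refine ⟨x • c, by rw [Pi.smul_apply, hc0, smul_zero], fun j => ?_⟩
        rw [Pi.smul_apply, hc j, smul_eq_mul, Finset.mul_sum]
        exact Finset.sum_congr rfl fun i _ => by rw [Pi.smul_apply, smul_eq_mul]; ring }
    have hW : Low51 B k ≤ W := by
      unfold Low51
      rw [Submodule.span_le]
      rintro v ⟨m, hm, hv⟩
      obtain ⟨c, hc⟩ := hgen v (Submodule.subset_span ⟨m, hm, hv⟩)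
      obtain ⟨c', hc1, hc2⟩ := homog51 hhom hv.2 hc
      exact ⟨c', grS_neg51 (by omega) (hc1 a), hc2⟩
    obtain ⟨c, hc0, hc⟩ := hW (hmem a)
    have h1 := hind (c - Pi.single a 1) (fun j => by
      simp only [Pi.sub_apply, sub_mul, Finset.sum_sub_distrib]
      rw [← hc j, Finset.sum_eq_single a]
      · rw [Pi.single_eq_same, one_mul, sub_self]
      · intro b _ hb
        rw [Pi.single_eq_of_ne hb, zero_mul]
      · intro h
        exact absurd (Finset.mem_univ _) h) a
    rw [Pi.sub_apply, hc0, Pi.single_eq_same, zero_sub, neg_eq_zero] at h1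
    exact one_ne_zero h1

/-- for a free arrangement the submodules generated in low degrees are free -/
theorem low_free51 {B : Finset (Fin ℓ → K)} (hB : Tame.Norm B)
    (hfree : Module.Free (S K ℓ) (LogA (S K ℓ) B 1)) (k : ℕ) :
    Module.Free (S K ℓ) (Low51 B k) := by
  obtain ⟨d, θ, hθ⟩ := Final.saito K ℓ B hB hfree
  obtain ⟨c, hc, hdet⟩ := hθ.det
  have hdet0 : (Matrix.of (fun i j => θ i j)).det ≠ 0 := by
    have : (Matrix.of (fun i j => θ i j)) = θ := rfl
    rw [this, hdet]
    exact mul_ne_zero (C_ne_zero.2 hc) (Pair.Q_ne_zero hB)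
  have hind : Ind51 (fun i j => θ i j) := ind_of_det51 hdet0
  have hlog : ∀ i, Saito.IsLog B ((fun i j => θ i j) i) := hθ.log
  have hsp : Sp51 B (fun i j => θ i j) := sp_of_det51 hB hlog hc hdet
  have hli : LinearIndependent (S K ℓ) (fun i j => θ i j) := by
    rw [Fintype.linearIndependent_iff]
    intro c hc
    apply hind
    intro j
    have := congrFun hc j
    rw [Finset.sum_apply] at this
    exact this
  have hli2 : LinearIndependent (S K ℓ) (fun i : {i // d i ≤ k} => fun j => θ i.1 j) :=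
    hli.comp _ Subtype.val_injective
  have heq : Low51 B k = Submodule.span (S K ℓ)
      (Set.range fun i : {i // d i ≤ k} => fun j => θ i.1 j) := by
    apply le_antisymm
    · unfold Low51
      rw [Submodule.span_le]
      rintro v ⟨m, hm, hv⟩
      obtain ⟨c, hc⟩ := hsp v hv.1
      obtain ⟨c', hc1, hc2⟩ := homog51 hθ.hom hv.2 hc
      have hv2 : v = ∑ i, c' i • fun j => θ i j := by
        funext j
        rw [Finset.sum_apply]
        exact hc2 j
      rw [hv2]
      refine Submodule.sum_mem _ fun i _ => ?_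
      by_cases hi : d i ≤ k
      · exact Submodule.smul_mem _ _ (Submodule.subset_span ⟨⟨i, hi⟩, rfl⟩)
      · rw [grS_neg51 (by omega) (hc1 i), zero_smul]
        exact Submodule.zero_mem _
    · rw [Submodule.span_le]
      rintro _ ⟨i, rfl⟩
      exact Submodule.subset_span ⟨d i.1, i.2, hlog i.1, fun j => grS_of_hom51 (hθ.hom i.1 j)⟩
  rw [heq]
  exact Module.Free.of_basis (Module.Basis.span hli2)

theorem low_iff51 (hℓ : 1 ≤ ℓ) {B : Finset (Fin ℓ → K)} (hB : Tame.Norm B) {f : Polynomial ℤ}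
    (hfr : f.reverse = f) (hfP : (f : PowerSeries ℤ) = PS51 B) {k : ℕ}
    (hk : f.natDegree ≤ 2 * k + 1) :
    Module.Free (S K ℓ) (LogA (S K ℓ) B 1) ↔ Module.Free (S K ℓ) (Low51 B k) := by
  constructor
  · exact fun h => low_free51 hB h k
  · intro h
    obtain ⟨r, d, θ, hF, hdk, hind⟩ := low_basis51 h
    exact halfThm51 hℓ hB hF hdk hind hfr hk hfP

end Pool.Agent.Lib.MP_fe1391_co.Thick51
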