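import Pool.Agent.Lib.MP_fe1391_co.Thick51.Arr
import Pool.Agent.Lib.MP_fe1391_co.Tame.Final

/-!
# From arrays to the definitions of the problem
-/

set_option autoImplicit false

namespace Pool.Agent.Lib.MP_fe1391_co.Thick51

open MvPolynomial Pool.Agent.Lib.MP_fe1391_co.Tame

universe u

variable {K : Type u} [Field K] {ℓ : ℕ} {r : ℕ}

/-- normal vectors of an arrangement, with their number -/
theorem exists_normals51 (A : Finset (Submodule K (Fin ℓ → K)))
    (hA : ∀ H ∈ A, ∃ a : Module.Dual K (Fin ℓ → K), a ≠ 0 ∧ LinearMap.ker a = H) :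
    ∃ B : Finset (Fin ℓ → K), Tame.Norm B ∧ B.card = A.card ∧ ∀ P : (Fin ℓ → K) → Prop,
      (∀ (c : K) (b : Fin ℓ → K), c ≠ 0 → P b → P (c • b)) →
      ((∀ H ∈ A, ∀ a : Module.Dual K (Fin ℓ → K), LinearMap.ker a = H → P (Trans.vec a)) ↔
        ∀ b ∈ B, P b) := by
  classical
  choose f hf0 hf using hA
  refine ⟨A.attach.image fun H => Trans.vec (f H.1 H.2), ⟨?_, ?_⟩, ?_, ?_⟩
  · intro b hb
    obtain ⟨H, _, rfl⟩ := Finset.mem_image.1 hb
    intro h
    exact hf0 H.1 H.2 (Trans.vec_inj (h.trans rfl))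
  · intro a ha b hb hab c hc
    obtain ⟨H, _, rfl⟩ := Finset.mem_image.1 ha
    obtain ⟨H', _, rfl⟩ := Finset.mem_image.1 hb
    have h1 : f H'.1 H'.2 = c • f H.1 H.2 := Trans.vec_inj hc
    have hc0 : c ≠ 0 := by
      rintro rfl
      rw [zero_smul] at h1
      exact hf0 _ _ h1
    apply hab
    have h2 : H.1 = H'.1 := by
      rw [← hf H.1 H.2, ← hf H'.1 H'.2, h1, LinearMap.ker_smul _ _ hc0]
    have h3 : H = H' := Subtype.ext h2
    rw [h3]
  · rw [Finset.card_image_of_injective, Finset.card_attach]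
    intro H H' h
    have h1 : f H.1 H.2 = f H'.1 H'.2 := Trans.vec_inj h
    apply Subtype.ext
    rw [← hf H.1 H.2, ← hf H'.1 H'.2, h1]
  · intro P hP
    constructor
    · intro h b hb
      obtain ⟨H, _, rfl⟩ := Finset.mem_image.1 hb
      exact h H.1 H.2 _ (hf _ _)
    · intro h H hH a ha
      obtain ⟨c, hc, hac⟩ := Trans.smul_of_ker (hf0 H hH) (ha.trans (hf H hH).symm)
      rw [hac, Trans.vec_smul]
      exact hP _ _ hc (h _ (Finset.mem_image.2 ⟨⟨H, hH⟩, Finset.mem_attach _ _, rfl⟩))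

theorem trans51 (A : Finset (Submodule K (Fin ℓ → K)))
    (hA : ∀ H ∈ A, ∃ a : Module.Dual K (Fin ℓ → K), a ≠ 0 ∧ LinearMap.ker a = H) :
    ∃ B : Finset (Fin ℓ → K), Tame.Norm B ∧ B.card = A.card ∧ Assemble.Psi K A = PS51 B ∧
      (∀ θ : Derivation K (S K ℓ) (S K ℓ), θ ∈ Assemble.LDer K A ↔
        Saito.IsLog B (fun i => θ (X i))) ∧
      (Module.Free (S K ℓ) (LogA (S K ℓ) B 1) ↔ Module.Free (S K ℓ) (Assemble.LDer K A)) ∧
      (∀ p (k : ℕ), Module.finrank K (Assemble.MDeg K A p k) = dm51 B p k) := by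
  obtain ⟨B, hB, hcard, hP⟩ := exists_normals51 A hA
  have hlog : ∀ {p : ℕ} (θ : AlternatingMap K (S K ℓ) (S K ℓ) (Fin p)),
      (∀ H ∈ A, ∀ a : Module.Dual K (Fin ℓ → K), LinearMap.ker a = H →
        ∀ (v : Fin p → MvPolynomial (Fin ℓ) K) (j : Fin p),
          v j = (∑ i : Fin ℓ, MvPolynomial.C (a (Pi.single i 1)) * MvPolynomial.X i) →
          (∑ i : Fin ℓ, MvPolynomial.C (a (Pi.single i 1)) * MvPolynomial.X i) ∣ θ v) ↔
      ∀ b ∈ B, Trans.LogAt θ b := fun θ =>
    hP (fun b => Trans.LogAt θ b) (fun c b hc h => h.scale c b hc)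
  have hlog' : ∀ θ : Derivation K (S K ℓ) (S K ℓ),
      (∀ H ∈ A, ∀ a : Module.Dual K (Fin ℓ → K), LinearMap.ker a = H →
        (∑ i : Fin ℓ, MvPolynomial.C (a (Pi.single i 1)) * MvPolynomial.X i) ∣
          θ (∑ i : Fin ℓ, MvPolynomial.C (a (Pi.single i 1)) * MvPolynomial.X i)) ↔
      ∀ b ∈ B, lin b ∣ θ (lin b) := fun θ =>
    hP (fun b => lin b ∣ θ (lin b)) (fun c b hc h => by
      have h1 : θ (lin (c • b)) = C c * θ (lin b) := by
        rw [Trans.lin_smul, ← smul_eq_C_mul, Derivation.map_smul, smul_eq_C_mul]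
      rw [h1]
      exact Trans.lin_smul_dvd hc (Dvd.dvd.mul_left h _))
  have hmem : ∀ θ : Derivation K (S K ℓ) (S K ℓ), θ ∈ Assemble.LDer K A ↔
      Saito.IsLog B (fun i => θ (X i)) := by
    intro θ
    have hiff : Saito.IsLog B (fun i => θ (X i)) ↔ ∀ b ∈ B, lin b ∣ θ (lin b) := by
      unfold Saito.IsLog
      constructor
      · intro h b hb
        rw [Trans.der_lin]
        exact h b hb
      · intro h b hb
        rw [← Trans.der_lin]
        exact h b hb
    let W : Submodule (S K ℓ) (Derivation K (S K ℓ) (S K ℓ)) := {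
      carrier := {θ | ∀ b ∈ B, lin b ∣ θ (lin b)}
      add_mem' := fun {x y} hx hy b hb => dvd_add (hx b hb) (hy b hb)
      zero_mem' := fun b _ => dvd_zero _
      smul_mem' := fun c x hx b hb => Dvd.dvd.mul_left (hx b hb) c }
    have hW : Assemble.LDer K A = W := by
      unfold Assemble.LDer
      apply le_antisymm
      · rw [Submodule.span_le]
        intro x hx
        exact (hlog' x).1 hx
      · intro x hx
        exact Submodule.subset_span ((hlog' x).2 hx)
    rw [hW, hiff]
    rfl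
  have h2 : ∀ p (k : ℕ), Module.finrank K
          (Submodule.span K
            {θ : AlternatingMap K (MvPolynomial (Fin ℓ) K) (MvPolynomial (Fin ℓ) K) (Fin p) |
              (∀ (v : Fin p → MvPolynomial (Fin ℓ) K) (j : Fin p)
                  (u w : MvPolynomial (Fin ℓ) K),
                  θ (Function.update v j (u * w)) =
                    u * θ (Function.update v j w) + w * θ (Function.update v j u)) ∧
              (∀ H ∈ A, ∀ a : Module.Dual K (Fin ℓ → K), LinearMap.ker a = H →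
                  ∀ (v : Fin p → MvPolynomial (Fin ℓ) K) (j : Fin p),
                    v j = (∑ i : Fin ℓ, MvPolynomial.C (a (Pi.single i 1)) * MvPolynomial.X i) →
                    (∑ i : Fin ℓ, MvPolynomial.C (a (Pi.single i 1)) * MvPolynomial.X i) ∣
                      θ v) ∧
              (∀ w : Fin p → Fin ℓ,
                  (θ (fun j => MvPolynomial.X (w j))).IsHomogeneous k)}) =
        Module.finrank K (Hm grS (fun _ : (Fin p → Fin ℓ) => 0) (k : ℤ) ⊓
          (LogA (S K ℓ) B p).restrictScalars K : Submodule K ((Fin p → Fin ℓ) → S K ℓ)) := by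
    intro p k
    refine Nonempty.elim (Trans.exists_equiv (Trans.phiK (K := K) (ℓ := ℓ) p)
      {θ : AlternatingMap K (MvPolynomial (Fin ℓ) K) (MvPolynomial (Fin ℓ) K) (Fin p) |
              (∀ (v : Fin p → MvPolynomial (Fin ℓ) K) (j : Fin p)
                  (u w : MvPolynomial (Fin ℓ) K),
                  θ (Function.update v j (u * w)) =
                    u * θ (Function.update v j w) + w * θ (Function.update v j u)) ∧
              (∀ H ∈ A, ∀ a : Module.Dual K (Fin ℓ → K), LinearMap.ker a = H →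
                  ∀ (v : Fin p → MvPolynomial (Fin ℓ) K) (j : Fin p),
                    v j = (∑ i : Fin ℓ, MvPolynomial.C (a (Pi.single i 1)) * MvPolynomial.X i) →
                    (∑ i : Fin ℓ, MvPolynomial.C (a (Pi.single i 1)) * MvPolynomial.X i) ∣
                      θ v) ∧
              (∀ w : Fin p → Fin ℓ,
                  (θ (fun j => MvPolynomial.X (w j))).IsHomogeneous k)}
      (Hm grS (fun _ : (Fin p → Fin ℓ) => 0) (k : ℤ) ⊓
          (LogA (S K ℓ) B p).restrictScalars K) ?_ ?_ ?_ ?_ ?_ ?_)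
      fun e => LinearEquiv.finrank_eq e
    · exact ⟨Trans.Leib.zero, (hlog _).2 fun b _ v j _ => dvd_zero _,
        fun w => isHomogeneous_zero _ _ _⟩
    · rintro x ⟨hx1, hx2, hx3⟩ y ⟨hy1, hy2, hy3⟩
      exact ⟨Trans.Leib.add hx1 hy1, (hlog _).2 fun b hb v j hv =>
        dvd_add ((hlog x).1 hx2 b hb v j hv) ((hlog y).1 hy2 b hb v j hv),
        fun w => (hx3 w).add (hy3 w)⟩
    · rintro c x ⟨hx1, hx2, hx3⟩
      refine ⟨Trans.Leib.ksmul hx1 c, (hlog _).2 fun b hb v j hv => ?_, fun w => ?_⟩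
      · rw [AlternatingMap.smul_apply, smul_eq_C_mul]
        exact Dvd.dvd.mul_left ((hlog x).1 hx2 b hb v j hv) _
      · rw [AlternatingMap.smul_apply, smul_eq_C_mul]
        exact (hx3 w).C_mul c
    · rintro x ⟨hx1, hx2, hx3⟩
      exact ⟨Trans.mem_Hm.2 hx3, Trans.phi_mem hx1 ((hlog x).1 hx2)⟩
    · rintro x ⟨hx1, _⟩ y ⟨hy1, _⟩ he
      exact Trans.phi_inj hx1 hy1 he
    · rintro t ⟨ht1, ht⟩
      have ht' : t ∈ LogA (S K ℓ) B p := ht
      refine ⟨Trans.psi t (Trans.mem_logA.1 ht').1, ⟨Trans.leib_psi _ _,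
        (hlog _).2 fun b hb => Trans.psi_log ht' b hb, fun w => ?_⟩, Trans.phi_psi _ _⟩
      have h1 := Trans.mem_Hm.1 ht1 w
      rw [← Trans.phi_psi t (Trans.mem_logA.1 ht').1] at h1
      exact h1
  have h3 : Module.Free (S K ℓ) (LogA (S K ℓ) B 1) ↔
        Module.Free (MvPolynomial (Fin ℓ) K)
          (Submodule.span (MvPolynomial (Fin ℓ) K)
            {θ : Derivation K (MvPolynomial (Fin ℓ) K) (MvPolynomial (Fin ℓ) K) |
              ∀ H ∈ A, ∀ a : Module.Dual K (Fin ℓ → K), LinearMap.ker a = H →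
                (∑ i : Fin ℓ, MvPolynomial.C (a (Pi.single i 1)) * MvPolynomial.X i) ∣
                  θ (∑ i : Fin ℓ, MvPolynomial.C (a (Pi.single i 1)) * MvPolynomial.X i)}) := by
    have hdel : ∀ (θ : Derivation K (S K ℓ) (S K ℓ)) (b : Fin ℓ → K) (w : Fin 1 → Fin ℓ)
        (j : Fin 1), ∑ i, C (b i) * Trans.del θ (Function.update w j i) = θ (lin b) := by
      intro θ b w j
      rw [Trans.der_lin]
      refine Finset.sum_congr rfl fun i _ => ?_
      rw [Trans.del_apply, Subsingleton.elim j 0, Function.update_self]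
    refine Nonempty.elim (Trans.exists_equiv (Trans.del (K := K) (ℓ := ℓ))
      {θ : Derivation K (MvPolynomial (Fin ℓ) K) (MvPolynomial (Fin ℓ) K) |
              ∀ H ∈ A, ∀ a : Module.Dual K (Fin ℓ → K), LinearMap.ker a = H →
                (∑ i : Fin ℓ, MvPolynomial.C (a (Pi.single i 1)) * MvPolynomial.X i) ∣
                  θ (∑ i : Fin ℓ, MvPolynomial.C (a (Pi.single i 1)) * MvPolynomial.X i)}
      (LogA (S K ℓ) B 1) ?_ ?_ ?_ ?_ ?_ ?_)
      fun e => ⟨fun h => Module.Free.of_equiv e.symm, fun h => Module.Free.of_equiv e⟩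
    · exact (hlog' _).2 fun b _ => dvd_zero _
    · intro x hx y hy
      exact (hlog' _).2 fun b hb => dvd_add ((hlog' x).1 hx b hb) ((hlog' y).1 hy b hb)
    · intro c x hx
      exact (hlog' _).2 fun b hb => Dvd.dvd.mul_left ((hlog' x).1 hx b hb) c
    · intro x hx
      refine Trans.mem_logA.2 ⟨⟨fun w hw => ?_, fun w i j hij => ?_⟩, fun b hb w j => ?_⟩
      · exact absurd (Function.injective_of_subsingleton w) hw
      · exact absurd (Subsingleton.elim i j) hij
      · rw [hdel]
        exact (hlog' x).1 hx b hb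
    · intro x _ y _ he
      apply derivation_ext
      intro i
      exact congrFun he (fun _ => i)
    · intro t ht
      refine ⟨mkDerivation K fun i => t fun _ => i, ?_, ?_⟩
      · refine (hlog' _).2 fun b hb => ?_
        by_cases hℓ : Nonempty (Fin ℓ)
        · have h1 := (Trans.mem_logA.1 ht).2 b hb (fun _ => hℓ.some) 0
          rw [Trans.der_lin]
          have h2 : ∀ i : Fin ℓ, (mkDerivation K fun i => t fun _ => i) (X i) =
              t (Function.update (fun _ => hℓ.some) 0 i) := by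
            intro i
            rw [mkDerivation_X]
            congr 1
            funext k
            rw [Subsingleton.elim k 0, Function.update_self]
          simp only [h2]
          exact h1
        · have : IsEmpty (Fin ℓ) := not_nonempty_iff.1 hℓ
          rw [Trans.der_lin, Finset.univ_eq_empty, Finset.sum_empty]
          exact dvd_zero _
      · funext w
        rw [Trans.del_apply, mkDerivation_X]
        congr 1
        funext k
        rw [Subsingleton.elim k 0]
  refine ⟨B, hB, hcard, ?_, hmem, h3, h2⟩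
  unfold Assemble.Psi PS51
  refine Finset.sum_congr rfl fun p _ => ?_
  congr 1
  unfold DS51
  congr 1
  funext k
  congr 1
  exact h2 p k

/-- no homogeneous relations implies independence -/
theorem ind_of_noRel51 {d : Fin r → ℕ} {θ : Fin r → Fin ℓ → S K ℓ}
    (hhom : ∀ i j, (θ i j).IsHomogeneous (d i)) (h : ∀ m, ¬ Rl51 d θ m) : Ind51 θ := by
  intro c h0 x
  obtain ⟨π, h1, h2, h3, h4⟩ := (Grad.thmS K ℓ).proj
  have h5 : ∀ (m : ℤ) (i : Fin r), π (m - d i) (c i) = 0 := by
    intro m
    refine noRel51 (k := m) (fun n _ => h n) m le_rfl (fun i => π (m - d i) (c i))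
      (fun i => h1 _ _) fun j => ?_
    have h6 := congrArg (π m) (h0 j)
    rw [map_zero, map_sum] at h6
    rw [← h6]
    refine Finset.sum_congr rfl fun i _ => ?_
    rw [mul_comm (c i), Top.proj_mul (grS_mul51 (K := K) (ℓ := ℓ)) h1 h2 h3 h4
      (grS_of_hom51 (hhom i j)) m (c i), mul_comm]
  obtain ⟨s, hs, -⟩ := h4 (c x)
  rw [hs]
  refine Finset.sum_eq_zero fun m _ => ?_
  have := h5 (m + d x) x
  rwa [add_sub_cancel_right] at this

/-- a basis -/
theorem free51 {B : Finset (Fin ℓ → K)} {θ : Fin r → Fin ℓ → S K ℓ}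
    (hlog : ∀ i, Saito.IsLog B (θ i)) (hsp : Sp51 B θ) (hind : Ind51 θ) :
    Module.Free (S K ℓ) (LogA (S K ℓ) B 1) := by
  let b : Fin r → LogA (S K ℓ) B 1 := fun i => ⟨fun w => θ i (w 0), (Saito.mem_iff _).2 (hlog i)⟩
  have hval : ∀ (c : Fin r → S K ℓ) (j : Fin ℓ),
      (∑ i, c i • b i : LogA (S K ℓ) B 1).1 (fun _ => j) = ∑ i, c i * θ i j := by
    intro c j
    have h1 : ((∑ i, c i • b i : LogA (S K ℓ) B 1) : (Fin 1 → Fin ℓ) → S K ℓ) =
        ∑ i, c i • (b i).1 := by
      rw [Submodule.coe_sum]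
      rfl
    rw [h1, Finset.sum_apply]
    rfl
  have hli : LinearIndependent (S K ℓ) b := by
    rw [Fintype.linearIndependent_iff]
    intro c hc
    apply hind
    intro j
    rw [← hval, hc]
    rfl
  have hspan : ⊤ ≤ Submodule.span (S K ℓ) (Set.range b) := by
    rintro ⟨a, ha⟩ -
    have ha' : a = fun w : Fin 1 → Fin ℓ => (fun j => a (fun _ => j)) (w 0) := by
      funext w
      exact congrArg a (funext fun x => by rw [Subsingleton.elim x 0])
    have hl : Saito.IsLog B (fun j => a (fun _ => j)) := by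
      rw [← Saito.mem_iff, ← ha']
      exact ha
    obtain ⟨c, hc⟩ := hsp _ hl
    have he : (⟨a, ha⟩ : LogA (S K ℓ) B 1) = ∑ i, c i • b i := by
      apply Subtype.ext
      funext w
      have hw : w = fun _ => w 0 := funext fun x => by rw [Subsingleton.elim x 0]
      rw [hw, hval]
      exact hc (w 0)
    rw [he]
    exact Submodule.sum_mem _ fun i _ =>
      Submodule.smul_mem _ _ (Submodule.subset_span ⟨i, rfl⟩)
  exact Module.Free.of_basis (Module.Basis.mk hli hspan)

/-- free arrangements have the product form -/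
theorem pf_of_free51 {B : Finset (Fin ℓ → K)} (hB : Tame.Norm B)
    (h : Module.Free (S K ℓ) (LogA (S K ℓ) B 1)) : PF51 B :=
  Final.fwd K ℓ B hB h

end Pool.Agent.Lib.MP_fe1391_co.Thick51
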