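import Pool.Agent.Lib.MP_fe1391_co.Thick51.Sq
import Pool.Agent.Lib.MP_fe1391_co.Tame.Saito
import Pool.Agent.Lib.MP_fe1391_co.Tame.Minors
import Pool.Agent.Lib.MP_fe1391_co.Tame.Top

/-!
# Homogeneous elements, and the square lemma in characteristic two
-/

set_option autoImplicit false

namespace Pool.Agent.Lib.MP_fe1391_co.Thick51

open MvPolynomial Pool.Agent.Lib.MP_fe1391_co.Tame

universe u

variable {K : Type u} [Field K] {ℓ : ℕ}

theorem mem_grS51 {m : ℤ} {f : S K ℓ} :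
    f ∈ grS (K := K) (ℓ := ℓ) m ↔
      ∀ μ, coeff μ f ≠ 0 → ((Finsupp.weight (1 : Fin ℓ → ℕ) μ : ℕ) : ℤ) = m := by
  rcases lt_or_ge m 0 with hm | hm
  · rw [Grad.grS_of_neg hm, Submodule.mem_bot]
    constructor
    · rintro rfl μ h
      exact absurd (coeff_zero _) h
    · intro h
      ext μ
      rw [coeff_zero]
      by_contra hc
      have := h μ hc
      omega
  · rw [Grad.grS_of_nonneg hm, mem_homogeneousSubmodule]
    constructor
    · intro h μ hc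
      have := h hc
      rw [this, Int.toNat_of_nonneg hm]
    · intro h μ hc
      have := h μ hc
      show Finsupp.weight (1 : Fin ℓ → ℕ) μ = m.toNat
      omega

theorem grS_mul51 {m n : ℤ} {a b : S K ℓ} (ha : a ∈ grS (K := K) (ℓ := ℓ) m)
    (hb : b ∈ grS (K := K) (ℓ := ℓ) n) : a * b ∈ grS (K := K) (ℓ := ℓ) (m + n) :=
  (Grad.thmS K ℓ).mul ha hb

theorem grS_one51 : (1 : S K ℓ) ∈ grS (K := K) (ℓ := ℓ) 0 := (Grad.thmS K ℓ).one

theorem grS_neg51 {m : ℤ} (hm : m < 0) {a : S K ℓ} (ha : a ∈ grS (K := K) (ℓ := ℓ) m) : a = 0 := by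
  rw [Grad.grS_of_neg hm] at ha
  exact (Submodule.mem_bot K).1 ha

theorem grS_of_hom51 {n : ℕ} {a : S K ℓ} (ha : a.IsHomogeneous n) :
    a ∈ grS (K := K) (ℓ := ℓ) (n : ℤ) := by
  rw [Grad.grS_nat, mem_homogeneousSubmodule]
  exact ha

theorem hom_of_grS51 {n : ℕ} {a : S K ℓ} (ha : a ∈ grS (K := K) (ℓ := ℓ) (n : ℤ)) :
    a.IsHomogeneous n := by
  rw [Grad.grS_nat, mem_homogeneousSubmodule] at ha
  exact ha

theorem grS_prod51 {ι : Type*} (s : Finset ι) (f : ι → S K ℓ) (d : ι → ℤ)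
    (h : ∀ i ∈ s, f i ∈ grS (K := K) (ℓ := ℓ) (d i)) :
    ∏ i ∈ s, f i ∈ grS (K := K) (ℓ := ℓ) (∑ i ∈ s, d i) := by
  classical
  induction s using Finset.induction_on with
  | empty => rw [Finset.prod_empty, Finset.sum_empty]; exact grS_one51
  | insert a s ha ih =>
    rw [Finset.prod_insert ha, Finset.sum_insert ha]
    exact grS_mul51 (h a (Finset.mem_insert_self _ _))
      (ih fun i hi => h i (Finset.mem_insert_of_mem hi))

/-- division of homogeneous elements -/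
theorem grS_div51 {m n : ℤ} {a u : S K ℓ} (ha0 : a ≠ 0) (ha : a ∈ grS (K := K) (ℓ := ℓ) n)
    (h : a * u ∈ grS (K := K) (ℓ := ℓ) m) : u ∈ grS (K := K) (ℓ := ℓ) (m - n) := by
  obtain ⟨π, h1, h2, h3, h4⟩ := (Grad.thmS K ℓ).proj
  have e1 := Top.proj_mul (grS_mul51 (K := K) (ℓ := ℓ)) h1 h2 h3 h4 ha m u
  rw [h2 _ _ h] at e1
  rw [mul_left_cancel₀ ha0 e1]
  exact h1 _ _

theorem lin_grS51 (b : Fin ℓ → K) : lin b ∈ grS (K := K) (ℓ := ℓ) 1 :=
  grS_of_hom51 (n := 1) (Pair.lin_homog b)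

theorem C_mul_grS51 {m : ℤ} {a : S K ℓ} (c : K) (ha : a ∈ grS (K := K) (ℓ := ℓ) m) :
    C c * a ∈ grS (K := K) (ℓ := ℓ) m := by
  rw [← smul_eq_C_mul]
  exact Submodule.smul_mem _ c ha

/-- no relations in degrees at most `k` -/
def NoRel51 {r : ℕ} (d : Fin r → ℕ) (θ : Fin r → Fin ℓ → S K ℓ) (k : ℤ) : Prop :=
  ∀ m : ℤ, m ≤ k → ∀ c : Fin r → S K ℓ, (∀ i, c i ∈ grS (K := K) (ℓ := ℓ) (m - d i)) →
    (∀ j, ∑ i, c i * θ i j = 0) → ∀ i, c i = 0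

theorem sq_zero51 (h2 : (2 : K) = 0) {r : ℕ} {d : Fin r → ℕ} {θ : Fin r → Fin ℓ → S K ℓ} {k : ℤ}
    (hinj : NoRel51 d θ k) {m : ℤ} (hm : m ≤ k) (e : Fin r → S K ℓ)
    (he : ∀ i, e i ∈ grS (K := K) (ℓ := ℓ) (m - 2 * d i))
    (h : ∀ j, ∑ i, e i * (θ i j) ^ 2 = 0) : ∀ i, e i = 0 := by
  have : CharP K 2 := CharTwo.of_one_ne_zero_of_two_eq_zero (one_ne_zero (α := K)) h2
  intro x
  by_contra hx
  obtain ⟨ν, hν⟩ := MvPolynomial.ne_zero_iff.1 hx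
  obtain ⟨φ, h0, hadd, hsq, hφ⟩ := exists_func51 hν
  have hε : ∀ i, par51 ν i ≤ 1 := par_le51 ν
  let w : (Fin ℓ →₀ ℕ) →+ ℕ := Finsupp.weight (1 : Fin ℓ → ℕ)
  have hw : ∀ μ : Fin ℓ →₀ ℕ, w (2 • μ + par51 ν) = 2 * w μ + w (par51 ν) := fun μ => by
    rw [map_add, map_nsmul, smul_eq_mul]
  have hM : ((w ν : ℕ) : ℤ) = m - 2 * d x := (mem_grS51.1 (he x)) ν hν
  have hν2 : w ν = 2 * w (half51 ν) + w (par51 ν) := by
    rw [← hw, two_half51]
  have hc : ∀ i, rho51 φ (par51 ν) (e i) ∈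
      grS (K := K) (ℓ := ℓ) (((w (half51 ν) + d x : ℕ) : ℤ) - d i) := by
    intro i
    rw [mem_grS51]
    intro μ hμ
    rw [coeff_rho51 h0 hε] at hμ
    have h5 : coeff (2 • μ + par51 ν) (e i) ≠ 0 := fun h => hμ (by rw [h, h0])
    have h6 : ((w (2 • μ + par51 ν) : ℕ) : ℤ) = m - 2 * d i := (mem_grS51.1 (he i)) _ h5
    rw [hw] at h6
    show ((w μ : ℕ) : ℤ) = _
    push_cast at h6 ⊢
    omega
  have h7 := hinj ((w (half51 ν) + d x : ℕ) : ℤ) (by push_cast; omega) _ hc (by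
    intro j
    have h8 := congrArg (rho51 φ (par51 ν)) (h j)
    rw [rho_sum51 h0 hadd hε, rho_zero51 h0 hε] at h8
    rw [← h8]
    refine Finset.sum_congr rfl fun i _ => ?_
    rw [mul_comm (e i), rho_mul51 h2 h0 hadd hsq hε, mul_comm]) x
  have h9 := congrArg (coeff (half51 ν)) h7
  rw [coeff_rho51 h0 hε, coeff_zero, two_half51] at h9
  exact hφ h9

end Pool.Agent.Lib.MP_fe1391_co.Thick51
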