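import Pool.Agent.Lib.MP_fe1391_co.Thick51.Low

/-!
# The half degree theorem for arrangements
-/

set_option autoImplicit false

namespace Pool.Agent.Lib.MP_fe1391_co.Thick51

open MvPolynomial Pool.Agent.Lib.MP_fe1391_co.Tame

universe u

variable {K : Type u} [Field K] {ℓ : ℕ} {r : ℕ}

/-- derivations as vectors -/
noncomputable def DE51 (K : Type u) [Field K] (ℓ : ℕ) :
    Derivation K (S K ℓ) (S K ℓ) ≃ₗ[S K ℓ] (Fin ℓ → S K ℓ) where
  toFun θ j := θ (X j)
  map_add' _ _ := rfl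
  map_smul' _ _ := rfl
  invFun v := mkDerivation K v
  left_inv θ := by
    apply derivation_ext
    intro j
    rw [mkDerivation_X]
  right_inv v := by
    funext j
    exact mkDerivation_X K v j

/-- the submodule of `D(A)` generated by its homogeneous elements of degree at most `k` -/
noncomputable def LowD51 (K : Type u) [Field K] {ℓ : ℕ} (A : Finset (Submodule K (Fin ℓ → K)))
    (k : ℕ) : Submodule (MvPolynomial (Fin ℓ) K)
      (Derivation K (MvPolynomial (Fin ℓ) K) (MvPolynomial (Fin ℓ) K)) :=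
  Submodule.span (MvPolynomial (Fin ℓ) K)
    {θ | θ ∈ Assemble.LDer K A ∧ ∃ m ≤ k, ∀ j, (θ (X j)).IsHomogeneous m}

theorem lowD_iff51 {B : Finset (Fin ℓ → K)} {A : Finset (Submodule K (Fin ℓ → K))}
    (hmem : ∀ θ : Derivation K (S K ℓ) (S K ℓ), θ ∈ Assemble.LDer K A ↔
        Saito.IsLog B (fun i => θ (X i))) (k : ℕ) :
    Module.Free (S K ℓ) (LowD51 K A k) ↔ Module.Free (S K ℓ) (Low51 B k) := by
  have h : (LowD51 K A k).map ((DE51 K ℓ : Derivation K (S K ℓ) (S K ℓ) ≃ₗ[S K ℓ] _) :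
      Derivation K (S K ℓ) (S K ℓ) →ₗ[S K ℓ] (Fin ℓ → S K ℓ)) = Low51 B k := by
    unfold LowD51 Low51
    rw [Submodule.map_span]
    congr 1
    ext v
    constructor
    · rintro ⟨θ, ⟨h1, m, hm, h2⟩, rfl⟩
      exact ⟨m, hm, (hmem θ).1 h1, fun j => grS_of_hom51 (h2 j)⟩
    · rintro ⟨m, hm, h1, h2⟩
      obtain ⟨η, hη⟩ := exists_der51 v
      refine ⟨η, ⟨(hmem η).2 (by simp only [hη]; exact h1), m, hm, fun j => ?_⟩, funext hη⟩
      rw [hη]
      exact hom_of_grS51 (h2 j)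
  have e := (DE51 K ℓ).submoduleMap (LowD51 K A k)
  rw [h] at e
  exact ⟨fun h => Module.Free.of_equiv e, fun h => Module.Free.of_equiv e.symm⟩

theorem thmH51 (K : Type u) [Field K] (ℓ : ℕ)
    (A : Finset (Submodule K (Fin ℓ → K)))
    (hA : ∀ H ∈ A, ∃ a : Module.Dual K (Fin ℓ → K), a ≠ 0 ∧ LinearMap.ker a = H)
    (f : Polynomial ℤ) (hf : f.reverse = f) (hfP : (f : PowerSeries ℤ) = Assemble.Psi K A) :
    Module.Free (MvPolynomial (Fin ℓ) K) (Assemble.LDer K A) ↔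
      Module.Free (MvPolynomial (Fin ℓ) K) (LowD51 K A (f.natDegree / 2)) := by
  rcases Nat.eq_zero_or_pos ℓ with rfl | hℓ
  · exact ⟨fun _ => free_zero51 _, fun _ => free_zero51 _⟩
  obtain ⟨B, hB, hcard, hPsi, hmem, hfree, hdim⟩ := trans51 A hA
  have h1 : Module.Free (MvPolynomial (Fin ℓ) K) (LowD51 K A (f.natDegree / 2)) ↔
    Module.Free (S K ℓ) (Low51 B (f.natDegree / 2)) := lowD_iff51 hmem _
  rw [h1, ← low_iff51 hℓ hB hf (by rw [hfP, hPsi]) (by omega)]
  exact hfree.symm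

end Pool.Agent.Lib.MP_fe1391_co.Thick51
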