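import Pool.Agent.Lib.MP_fe1391_co.Thick51.Ser
import Pool.Agent.Lib.MP_fe1391_co.Tame.GrLog

/-!
# Product form and freeness, for arrays
-/

set_option autoImplicit false

namespace Pool.Agent.Lib.MP_fe1391_co.Thick51

open MvPolynomial Pool.Agent.Lib.MP_fe1391_co.Tame

universe u

variable {K : Type u} [Field K] {ℓ : ℕ} {r : ℕ}

/-- homogeneous logarithmic vector fields -/
def DV51 (B : Finset (Fin ℓ → K)) (m : ℤ) : Submodule K (Fin ℓ → S K ℓ) where
  carrier := {v | Saito.IsLog B v ∧ ∀ j, v j ∈ grS (K := K) (ℓ := ℓ) m}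
  add_mem' := by
    rintro v w ⟨h1, h2⟩ ⟨h3, h4⟩
    refine ⟨fun b hb => ?_, fun j => Submodule.add_mem _ (h2 j) (h4 j)⟩
    have := dvd_add (h1 b hb) (h3 b hb)
    simpa only [Pi.add_apply, mul_add, Finset.sum_add_distrib] using this
  zero_mem' := ⟨fun b _ => by simp, fun j => Submodule.zero_mem _⟩
  smul_mem' := by
    rintro c v ⟨h1, h2⟩
    refine ⟨fun b hb => ?_, fun j => Submodule.smul_mem _ c (h2 j)⟩
    have := Dvd.dvd.mul_left (h1 b hb) (C c)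
    rw [Finset.mul_sum] at this
    convert this using 1
    refine Finset.sum_congr rfl fun j _ => ?_
    rw [Pi.smul_apply, smul_eq_C_mul]
    ring

theorem mem_DV51 {B : Finset (Fin ℓ → K)} {m : ℤ} {v : Fin ℓ → S K ℓ} :
    v ∈ DV51 B m ↔ Saito.IsLog B v ∧ ∀ j, v j ∈ grS (K := K) (ℓ := ℓ) m := Iff.rfl

/-- vectors as arrays -/
def T51 (K : Type u) [Field K] (ℓ : ℕ) :
    (Fin ℓ → S K ℓ) →ₗ[K] ((Fin 1 → Fin ℓ) → S K ℓ) where
  toFun v w := v (w 0)
  map_add' _ _ := rfl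
  map_smul' _ _ := rfl

theorem dm_one51 (B : Finset (Fin ℓ → K)) (m : ℤ) :
    dm51 B 1 m = Module.finrank K (DV51 B m) := by
  have hinj : Function.Injective (T51 K ℓ) := by
    intro v w h
    funext j
    exact congrFun h (fun _ => j)
  have e := Submodule.equivMapOfInjective (T51 K ℓ) hinj (DV51 B m)
  rw [e.finrank_eq, dm51]
  have hE : (Hm grS (fun _ : (Fin 1 → Fin ℓ) => 0) m ⊓
    (LogA (S K ℓ) B 1).restrictScalars K : Submodule K ((Fin 1 → Fin ℓ) → S K ℓ)) =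
      Submodule.map (T51 K ℓ) (DV51 B m) := by
    ext a
    rw [Submodule.mem_inf, Submodule.mem_map]
    constructor
    · rintro ⟨h1, h2⟩
      have ha : a = fun w : Fin 1 → Fin ℓ => (fun j => a (fun _ => j)) (w 0) := by
        funext w
        exact congrArg a (funext fun x => by rw [Subsingleton.elim x 0])
      refine ⟨fun j => a (fun _ => j), ⟨?_, fun j => ?_⟩, ha.symm⟩
      · rw [← Saito.mem_iff, ← ha]
        exact h2
      · have : a (fun _ => j) ∈ grS (K := K) (ℓ := ℓ) (m - 0) := h1 _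
        rwa [sub_zero] at this
    · rintro ⟨v, ⟨h1, h2⟩, rfl⟩
      refine ⟨fun w => ?_, (Saito.mem_iff v).2 h1⟩
      show v (w 0) ∈ grS (K := K) (ℓ := ℓ) (m - 0)
      rw [sub_zero]
      exact h2 _
  rw [hE]

instance fin_DV51 (B : Finset (Fin ℓ → K)) (m : ℤ) : FiniteDimensional K (DV51 B m) := by
  have h1 := Top.finite_Hm (Grad.thmS K ℓ) (fun _ : Fin ℓ => (0 : ℤ)) m
  have h2 : DV51 B m ≤ Hm (K := K) (A := S K ℓ) grS (fun _ : Fin ℓ => (0 : ℤ)) m := by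
    rintro v ⟨_, h⟩ j
    rw [sub_zero]
    exact h j
  exact Submodule.finiteDimensional_of_le h2

/-- combinations of the `θ i` -/
noncomputable def cmb51 (θ : Fin r → Fin ℓ → S K ℓ) : (Fin r → S K ℓ) →ₗ[K] (Fin ℓ → S K ℓ) where
  toFun c j := ∑ i, c i * θ i j
  map_add' c c' := by
    funext j
    simp only [Pi.add_apply, add_mul, Finset.sum_add_distrib]
  map_smul' a c := by
    funext j
    simp only [Pi.smul_apply, smul_eq_C_mul, RingHom.id_apply, mul_assoc, Finset.mul_sum]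

theorem cmb_apply51 (θ : Fin r → Fin ℓ → S K ℓ) (c : Fin r → S K ℓ) (j : Fin ℓ) :
    cmb51 θ c j = ∑ i, c i * θ i j := rfl

/-- homogeneous combinations -/
noncomputable def GV51 (d : Fin r → ℕ) (θ : Fin r → Fin ℓ → S K ℓ) (m : ℤ) :
    Submodule K (Fin ℓ → S K ℓ) :=
  (Hm (K := K) (A := S K ℓ) grS (fun i => (d i : ℤ)) m).map (cmb51 θ)

theorem log_sum51 {B : Finset (Fin ℓ → K)} {θ : Fin r → Fin ℓ → S K ℓ}
    (hlog : ∀ i, Saito.IsLog B (θ i)) (c : Fin r → S K ℓ) :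
    Saito.IsLog B (fun j => ∑ i, c i * θ i j) := by
  intro b hb
  have h1 : ∑ j, C (b j) * ∑ i, c i * θ i j = ∑ i, c i * ∑ j, C (b j) * θ i j := by
    simp only [Finset.mul_sum]
    rw [Finset.sum_comm]
    exact Finset.sum_congr rfl fun i _ => Finset.sum_congr rfl fun j _ => by ring
  rw [h1]
  exact Finset.dvd_sum fun i _ => Dvd.dvd.mul_left (hlog i b hb) _

theorem GV_le51 {B : Finset (Fin ℓ → K)} {d : Fin r → ℕ} {θ : Fin r → Fin ℓ → S K ℓ}
    (hhom : ∀ i j, (θ i j).IsHomogeneous (d i)) (hlog : ∀ i, Saito.IsLog B (θ i)) (m : ℤ) :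
    GV51 d θ m ≤ DV51 B m := by
  rintro v ⟨c, hc, rfl⟩
  refine ⟨log_sum51 hlog c, fun j => ?_⟩
  rw [cmb_apply51]
  refine Submodule.sum_mem _ fun i _ => ?_
  have := grS_mul51 (hc i) (grS_of_hom51 (hhom i j))
  have e : m - (d i : ℤ) + d i = m := by ring
  rwa [e] at this

/-- homogenising the coefficients -/
theorem homog51 {d : Fin r → ℕ} {θ : Fin r → Fin ℓ → S K ℓ}
    (hhom : ∀ i j, (θ i j).IsHomogeneous (d i)) {m : ℤ} {v : Fin ℓ → S K ℓ}
    (hv : ∀ j, v j ∈ grS (K := K) (ℓ := ℓ) m) {c : Fin r → S K ℓ}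
    (hc : ∀ j, v j = ∑ i, c i * θ i j) :
    ∃ c' : Fin r → S K ℓ, (∀ i, c' i ∈ grS (K := K) (ℓ := ℓ) (m - d i)) ∧
      ∀ j, v j = ∑ i, c' i * θ i j := by
  obtain ⟨t, ht1, ht2⟩ := Top.exists_homog (Grad.thmS K ℓ) (M := Matrix.of fun j i => θ i j)
    (deg := fun i => (d i : ℤ)) (deg' := fun _ : Fin ℓ => (0 : ℤ))
    (fun j i => by rw [sub_zero]; exact grS_of_hom51 (hhom i j)) (m := m) (v := v)
    (fun j => by rw [sub_zero]; exact hv j) (t := c) (by
      funext j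
      rw [hc j]
      change _ = ∑ i, θ i j * c i
      exact Finset.sum_congr rfl fun i _ => mul_comm _ _)
  refine ⟨t, ht1, fun j => ?_⟩
  rw [ht2]
  change ∑ i, θ i j * t i = _
  exact Finset.sum_congr rfl fun i _ => mul_comm _ _

theorem finrank_GV51 (d : Fin r → ℕ) (θ : Fin r → Fin ℓ → S K ℓ) (m : ℤ) :
    Module.finrank K (GV51 d θ m) +
      Module.finrank K (Hm (K := K) (A := S K ℓ) grS (fun i => (d i : ℤ)) m ⊓
        LinearMap.ker (cmb51 θ) : Submodule K (Fin r → S K ℓ)) =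
      ∑ i, Module.finrank K (grS (K := K) (ℓ := ℓ) (m - d i)) := by
  have := Top.finite_Hm (Grad.thmS K ℓ) (fun i : Fin r => (d i : ℤ)) m
  rw [← Top.finrank_Hm (Grad.thmS K ℓ) (fun i : Fin r => (d i : ℤ)) m]
  exact Top.finrank_map_add _ _

/-- generation with relations lowers the dimension -/
theorem dim_rel51 {B : Finset (Fin ℓ → K)} {d : Fin r → ℕ} {θ : Fin r → Fin ℓ → S K ℓ} (m : ℤ)
    (hgen : DV51 B m ≤ GV51 d θ m) {c : Fin r → S K ℓ}
    (hc : ∀ i, c i ∈ grS (K := K) (ℓ := ℓ) (m - d i)) (h0 : ∀ j, ∑ i, c i * θ i j = 0)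
    (hne : ∃ i, c i ≠ 0) :
    dm51 B 1 m < ∑ i, Module.finrank K (grS (K := K) (ℓ := ℓ) (m - d i)) := by
  have hfin := Top.finite_Hm (Grad.thmS K ℓ) (fun i : Fin r => (d i : ℤ)) m
  have h1 := finrank_GV51 d θ m
  have hfin2 : FiniteDimensional K (GV51 d θ m) := by
    unfold GV51
    infer_instance
  have h2 : Module.finrank K (DV51 B m) ≤ Module.finrank K (GV51 d θ m) :=
    Submodule.finrank_mono hgen
  have h3 : 0 < Module.finrank K (Hm (K := K) (A := S K ℓ) grS (fun i => (d i : ℤ)) m ⊓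
        LinearMap.ker (cmb51 θ) : Submodule K (Fin r → S K ℓ)) := by
    have hfin3 : FiniteDimensional K (Hm (K := K) (A := S K ℓ) grS (fun i => (d i : ℤ)) m ⊓
        LinearMap.ker (cmb51 θ) : Submodule K (Fin r → S K ℓ)) :=
      Submodule.finiteDimensional_of_le inf_le_left
    rw [Module.finrank_pos_iff]
    refine ⟨⟨c, hc, ?_⟩, 0, fun h => ?_⟩
    · rw [SetLike.mem_coe, LinearMap.mem_ker]
      funext j
      exact h0 j
    · obtain ⟨i, hi⟩ := hne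
      exact hi (congrFun (congrArg Subtype.val h) i)
  rw [dm_one51]
  omega

/-- a new generator in a degree without relations -/
theorem dim_gen51 {B : Finset (Fin ℓ → K)} {d : Fin r → ℕ} {θ : Fin r → Fin ℓ → S K ℓ}
    (hhom : ∀ i j, (θ i j).IsHomogeneous (d i)) (hlog : ∀ i, Saito.IsLog B (θ i)) (m : ℤ)
    (hinj : ∀ c : Fin r → S K ℓ, (∀ i, c i ∈ grS (K := K) (ℓ := ℓ) (m - d i)) →
      (∀ j, ∑ i, c i * θ i j = 0) → ∀ i, c i = 0)
    {v : Fin ℓ → S K ℓ} (hv : v ∈ DV51 B m) (hv' : v ∉ GV51 d θ m) :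
    ∑ i, Module.finrank K (grS (K := K) (ℓ := ℓ) (m - d i)) < dm51 B 1 m ∧
    (dm51 B 1 m ≤ ∑ i, Module.finrank K (grS (K := K) (ℓ := ℓ) (m - d i)) + 1 →
      ∀ u ∈ DV51 B m, ∃ a : K, u - a • v ∈ GV51 d θ m) := by
  have h1 := finrank_GV51 d θ m
  have h3 : (Hm (K := K) (A := S K ℓ) grS (fun i => (d i : ℤ)) m ⊓
        LinearMap.ker (cmb51 θ) : Submodule K (Fin r → S K ℓ)) = ⊥ := by
    rw [eq_bot_iff]
    rintro c ⟨hc, hc0⟩
    rw [Submodule.mem_bot]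
    funext i
    exact hinj c hc (fun j => congrFun (LinearMap.mem_ker.1 hc0) j) i
  rw [h3, finrank_bot, add_zero] at h1
  rw [← h1, dm_one51]
  have hle := GV_le51 hhom hlog m
  have hlt : GV51 d θ m < DV51 B m := lt_of_le_of_ne hle fun h => hv' (h ▸ hv)
  refine ⟨Submodule.finrank_lt_finrank_of_lt hlt, fun hdim u hu => ?_⟩
  have hle2 : GV51 d θ m ⊔ Submodule.span K {v} ≤ DV51 B m :=
    sup_le hle ((Submodule.span_singleton_le_iff_mem _ _).2 hv)
  have hfd : FiniteDimensional K (GV51 d θ m ⊔ Submodule.span K {v} :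
    Submodule K (Fin ℓ → S K ℓ)) := Submodule.finiteDimensional_of_le hle2
  have hlt2 : GV51 d θ m < GV51 d θ m ⊔ Submodule.span K {v} := by
    refine lt_of_le_of_ne le_sup_left fun h => hv' ?_
    rw [h]
    exact Submodule.mem_sup_right (Submodule.mem_span_singleton_self v)
  have h4 := Submodule.finrank_lt_finrank_of_lt hlt2
  have h5 : GV51 d θ m ⊔ Submodule.span K {v} = DV51 B m :=
    Submodule.eq_of_le_of_finrank_le hle2 (by omega)
  rw [← h5] at hu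
  obtain ⟨y, hy, z, hz, rfl⟩ := Submodule.mem_sup.1 hu
  obtain ⟨a, rfl⟩ := Submodule.mem_span_singleton.1 hz
  exact ⟨a, by rwa [add_sub_cancel_right]⟩

/-- the product form -/
def PF51 (B : Finset (Fin ℓ → K)) : Prop :=
  ∃ e : Fin ℓ → ℕ, PS51 B = ∏ i, ∑ j ∈ Finset.range (e i + 1), (PowerSeries.X : PowerSeries ℤ) ^ j

/-- the count at the first failure of freeness -/
theorem cnt51 (hℓ : 1 ≤ ℓ) {B : Finset (Fin ℓ → K)} (hB : Tame.Norm B) {d : Fin r → ℕ}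
    {θ : Fin r → Fin ℓ → S K ℓ} {h : ℕ} (hF : FU51 B d θ ((h : ℤ) - 1)) (hP : PF51 B) :
    0 ≤ (cn51 d h : ℤ) + del51 B d h ∧
      (((Finset.univ.filter fun i => d i < h + 1).card : ℕ) : ℤ) + del51 B d h ≤ ℓ := by
  obtain ⟨e, he⟩ := hP
  obtain ⟨G, hG⟩ := ser51 hℓ hB hF
  refine count51 e d (del51 B d h) h G ?_
  rw [← hG, he]
  have e4 : (1 - PowerSeries.X : PowerSeries ℤ) ^ ℓ = ∏ _i : Fin ℓ, (1 - PowerSeries.X) := by
    simp
  rw [e4, ← Finset.prod_mul_distrib]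
  refine Finset.prod_congr rfl fun i _ => ?_
  rw [geom_sum_mul_neg]

/-- the module spanned by the `θ i` contains all logarithmic vector fields -/
def Sp51 (B : Finset (Fin ℓ → K)) (θ : Fin r → Fin ℓ → S K ℓ) : Prop :=
  ∀ v : Fin ℓ → S K ℓ, Saito.IsLog B v → ∃ c : Fin r → S K ℓ, ∀ j, v j = ∑ i, c i * θ i j

theorem del_cast51 (B : Finset (Fin ℓ → K)) (d : Fin r → ℕ) (h : ℕ) :
    del51 B d h = (dm51 B 1 h : ℤ) -
      ((∑ i : Fin r, Module.finrank K (grS (K := K) (ℓ := ℓ) (h - d i)) : ℕ) : ℤ) := by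
  rw [del51]
  push_cast
  rfl

/-- a nonzero homogeneous relation -/
def Rl51 (d : Fin r → ℕ) (θ : Fin r → Fin ℓ → S K ℓ) (m : ℕ) : Prop :=
  ∃ c : Fin r → S K ℓ, (∀ i, c i ∈ grS (K := K) (ℓ := ℓ) ((m : ℤ) - d i)) ∧
    (∀ j, ∑ i, c i * θ i j = 0) ∧ ∃ i, c i ≠ 0

theorem noRel51 {d : Fin r → ℕ} {θ : Fin r → Fin ℓ → S K ℓ} {k : ℤ}
    (h : ∀ m : ℕ, (m : ℤ) ≤ k → ¬ Rl51 d θ m) : NoRel51 d θ k := by
  intro m hm c hc h0 i
  by_contra hi
  have hm0 : 0 ≤ m := by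
    by_contra hneg
    exact hi (grS_neg51 (by omega) (hc i))
  obtain ⟨n, rfl⟩ := Int.eq_ofNat_of_zero_le hm0
  exact h n hm ⟨c, hc, h0, i, hi⟩

/-- if the `θ i` generate and no degree of a generator is the degree of the first relation, then
the product form forces linear independence -/
theorem partA51 (hℓ : 1 ≤ ℓ) {B : Finset (Fin ℓ → K)} (hB : Tame.Norm B) {d : Fin r → ℕ}
    {θ : Fin r → Fin ℓ → S K ℓ} (hhom : ∀ i j, (θ i j).IsHomogeneous (d i))
    (hlog : ∀ i, Saito.IsLog B (θ i)) (hgen : Sp51 B θ)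
    (hR : ∀ R : ℕ, Rl51 d θ R → (∀ m < R, ¬ Rl51 d θ m) → ∀ i, d i ≠ R) (hP : PF51 B) :
    ∀ m, ¬ Rl51 d θ m := by
  classical
  by_contra hcon
  push Not at hcon
  let R := Nat.find hcon
  have hR1 : Rl51 d θ R := Nat.find_spec hcon
  have hR2 : ∀ m < R, ¬ Rl51 d θ m := fun m hm => Nat.find_min hcon hm
  have hF : FU51 B d θ ((R : ℤ) - 1) := by
    refine ⟨hhom, hlog, fun m _ v hv hvm => ?_, noRel51 fun m hm => hR2 m (by omega)⟩
    obtain ⟨c, hc⟩ := hgen v hv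
    exact homog51 hhom hvm hc
  obtain ⟨h1, -⟩ := cnt51 hℓ hB hF hP
  have h2 : cn51 d R = 0 := by
    rw [cn51, Finset.card_eq_zero, Finset.filter_eq_empty_iff]
    intro i _
    exact hR R hR1 hR2 i
  have h3 : DV51 B (R : ℤ) ≤ GV51 d θ R := by
    rintro v ⟨hv, hvm⟩
    obtain ⟨c, hc⟩ := hgen v hv
    obtain ⟨c', hc1, hc2⟩ := homog51 hhom hvm hc
    exact ⟨c', hc1, funext fun j => (hc2 j).symm⟩
  obtain ⟨c, hc, h0, hne⟩ := hR1
  have h4 := dim_rel51 (R : ℤ) h3 hc h0 hne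
  rw [h2, del_cast51] at h1
  omega

/-- homogeneous generation suffices -/
theorem sp_of_homog51 {B : Finset (Fin ℓ → K)} {θ : Fin r → Fin ℓ → S K ℓ}
    (h : ∀ (m : ℕ) (v : Fin ℓ → S K ℓ), v ∈ DV51 B m →
      ∃ c : Fin r → S K ℓ, ∀ j, v j = ∑ i, c i * θ i j) : Sp51 B θ := by
  intro v hv
  obtain ⟨s, c, hs, hvs⟩ := GrLog.thm K ℓ B 1 _ ((Saito.mem_iff v).2 hv)
  have h1 : ∀ m ∈ s, ∃ e : Fin r → S K ℓ, ∀ j, c m (fun _ => j) = ∑ i, e i * θ i j := by
    intro m hm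
    obtain ⟨h2, h3⟩ := hs m hm
    have hlog : Saito.IsLog B (fun j => c m (fun _ => j)) := by
      rw [← Saito.mem_iff]
      convert h2 using 1
      funext w
      exact congrArg (c m) (funext fun x => by rw [Subsingleton.elim x 0])
    have hgr : ∀ j, c m (fun _ => j) ∈ grS (K := K) (ℓ := ℓ) m := by
      intro j
      have : c m (fun _ => j) ∈ grS (K := K) (ℓ := ℓ) (m - 0) := h3 _
      rwa [sub_zero] at this
    rcases lt_or_ge m 0 with hm0 | hm0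
    · refine ⟨0, fun j => ?_⟩
      rw [grS_neg51 hm0 (hgr j)]
      simp
    · obtain ⟨n, rfl⟩ := Int.eq_ofNat_of_zero_le hm0
      exact h n _ ⟨hlog, hgr⟩
  choose! e he using h1
  refine ⟨fun i => ∑ m ∈ s, e m i, fun j => ?_⟩
  have h5 : v j = ∑ m ∈ s, c m (fun _ => j) := by
    have := congrFun hvs (fun _ => j)
    rw [Finset.sum_apply] at this
    exact this
  rw [h5, Finset.sum_congr rfl fun m hm => he m hm j]
  simp only [Finset.sum_mul]
  exact Finset.sum_comm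

/-- independence in the sense of vectors -/
def Ind51 (θ : Fin r → Fin ℓ → S K ℓ) : Prop :=
  ∀ c : Fin r → S K ℓ, (∀ j, ∑ i, c i * θ i j = 0) → ∀ i, c i = 0

/-- `ℓ` independent elements which generate in degrees up to their maximal degree -/
theorem partB51 (hℓ : 1 ≤ ℓ) {B : Finset (Fin ℓ → K)} (hB : Tame.Norm B) {d : Fin ℓ → ℕ}
    {θ : Fin ℓ → Fin ℓ → S K ℓ} (hhom : ∀ i j, (θ i j).IsHomogeneous (d i))
    (hlog : ∀ i, Saito.IsLog B (θ i)) (hind : Ind51 θ)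
    (hgen : ∀ (m : ℕ) (v : Fin ℓ → S K ℓ), v ∈ DV51 B m → (∃ i, m ≤ d i) →
      ∃ c : Fin ℓ → S K ℓ, ∀ j, v j = ∑ i, c i * θ i j) (hP : PF51 B) : Sp51 B θ := by
  classical
  apply sp_of_homog51
  by_contra hcon
  push Not at hcon
  let h := Nat.find hcon
  obtain ⟨v, hv, hv'⟩ : ∃ v : Fin ℓ → S K ℓ, v ∈ DV51 B h ∧
      ∀ c : Fin ℓ → S K ℓ, ∃ j, v j ≠ ∑ i, c i * θ i j := Nat.find_spec hcon
  have hmin : ∀ m < h, ∀ v : Fin ℓ → S K ℓ, v ∈ DV51 B m →
      ∃ c : Fin ℓ → S K ℓ, ∀ j, v j = ∑ i, c i * θ i j := by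
    intro m hm
    have := Nat.find_min hcon hm
    push Not at this
    exact this
  have hd : ∀ i, d i < h := by
    intro i
    by_contra hi
    obtain ⟨c, hc⟩ := hgen h v hv ⟨i, by omega⟩
    obtain ⟨j, hj⟩ := hv' c
    exact hj (hc j)
  have hF : FU51 B d θ ((h : ℤ) - 1) := by
    refine ⟨hhom, hlog, fun m hm v hv hvm => ?_, fun m _ c _ h0 => hind c h0⟩
    rcases lt_or_ge m 0 with hm0 | hm0
    · refine ⟨0, fun i => Submodule.zero_mem _, fun j => ?_⟩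
      rw [grS_neg51 hm0 (hvm j)]
      simp
    · obtain ⟨n, rfl⟩ := Int.eq_ofNat_of_zero_le hm0
      obtain ⟨c, hc⟩ := hmin n (by omega) v ⟨hv, hvm⟩
      exact homog51 hhom hvm hc
  obtain ⟨-, h2⟩ := cnt51 hℓ hB hF hP
  have h3 : (Finset.univ.filter fun i => d i < h + 1).card = ℓ := by
    rw [Finset.filter_true_of_mem fun i _ => Nat.lt_succ_of_lt (hd i)]
    simp
  have hv2 : v ∉ GV51 d θ (h : ℤ) := by
    rintro ⟨c, -, hc⟩
    obtain ⟨j, hj⟩ := hv' c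
    exact hj (congrFun hc j).symm
  have h4 := (dim_gen51 hhom hlog (h : ℤ) (fun c _ h0 => hind c h0) hv hv2).1
  rw [h3, del_cast51] at h2
  omega

end Pool.Agent.Lib.MP_fe1391_co.Thick51
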