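import Pool.Agent.Lib.MP_fe1391_co.Thick51.Fq
import Pool.Agent.Lib.MP_fe1391_co.Thick51.AsmP

/-!
# Large arrangements defined over a finite field
-/

set_option autoImplicit false

namespace Pool.Agent.Lib.MP_fe1391_co.Thick51

open MvPolynomial Pool.Agent.Lib.MP_fe1391_co.Tame

universe u v

theorem der_lin51 {K : Type u} [Field K] {ℓ : ℕ} (D : Derivation K (S K ℓ) (S K ℓ))
    (a : Fin ℓ → K) : D (∑ i, C (a i) * X i) = ∑ i, C (a i) * D (X i) := by
  rw [map_sum]
  refine Finset.sum_congr rfl fun i _ => ?_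
  rw [← smul_eq_C_mul, Derivation.map_smul, smul_eq_C_mul]

theorem thmF51 (K : Type u) [Field K] (F : Type v) [Field F] [Fintype F] [Algebra F K] (ℓ : ℕ)
    (hℓ : 2 ≤ ℓ) (A : Finset (Submodule K (Fin ℓ → K)))
    (hA : ∀ H ∈ A, ∃ a : Module.Dual K (Fin ℓ → K), a ≠ 0 ∧ LinearMap.ker a = H ∧
      ∀ i, ∃ c : F, a (Pi.single i 1) = algebraMap F K c)
    (hn : ∑ j ∈ Finset.range (ℓ - 1), Fintype.card F ^ j + Fintype.card F ^ (ℓ - 2) ≤ A.card) :
    Module.Free (MvPolynomial (Fin ℓ) K) (Assemble.LDer K A) ↔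
      ((∃ e : Fin ℓ → ℕ, Assemble.Psi K A =
        ∏ i, ∑ j ∈ Finset.range (e i + 1), PowerSeries.X ^ j) ∨
      ∃ f : Polynomial ℤ,
        f.natDegree ≤ 2 * (A.card - ∑ j ∈ Finset.range (ℓ - 1), Fintype.card F ^ j) + 1 ∧
        f.reverse = f ∧ (f : PowerSeries ℤ) = Assemble.Psi K A) := by
  obtain ⟨m, rfl⟩ : ∃ m, ℓ = m + 1 := ⟨ℓ - 1, by omega⟩
  have hA' : ∀ H ∈ A, ∃ a : Module.Dual K (Fin (m + 1) → K), a ≠ 0 ∧ LinearMap.ker a = H :=
    fun H hH => by
      obtain ⟨a, h1, h2, -⟩ := hA H hH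
      exact ⟨a, h1, h2⟩
  obtain ⟨B, hB, hcard, hPsi, hmem, hfree, hdim⟩ := trans51 A hA'
  have hQ : 2 ≤ Fintype.card F := Fintype.one_lt_card
  have hlog : ∀ j : Fin m, Saito.IsLog B (fr51 K m (Fintype.card F) j) := by
    intro j
    obtain ⟨η, hη⟩ := exists_der51 (fr51 K m (Fintype.card F) j)
    have h1 : η ∈ Assemble.LDer K A := by
      apply Submodule.subset_span
      intro H hH a ha
      obtain ⟨b, hb0, hb, hbF⟩ := hA H hH
      choose b' hb' using hbF
      obtain ⟨c, hc, hac⟩ := Trans.smul_of_ker hb0 (ha.trans hb.symm)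
      have h2 := der_lin51 η (fun i => a (Pi.single i 1))
      have h3 := fr_dvd51 (K := K) (F := F) (m := m) (fun i => a (Pi.single i 1)) b' c
        (fun i => by
          rw [hac, ← hb' i]
          rfl) j
      rw [h2]
      simp only [hη]
      exact h3
    have h2 := (hmem η).1 h1
    simp only [hη] at h2
    exact h2
  have hsum : ∑ a : Fin m, Fintype.card F ^ (a : ℕ) =
      ∑ j ∈ Finset.range (m + 1 - 1), Fintype.card F ^ j := by
    rw [Nat.add_sub_cancel, Finset.sum_range]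
  have h := thick51 hB (fr_hom51 (K := K) (m := m) (Fintype.card F)) hlog (fr_cop51 hQ)
    (fun i => by
      rw [hsum, hcard]
      refine le_trans ?_ hn
      have hi : (i : ℕ) ≤ m + 1 - 2 := by omega
      exact Nat.add_le_add_left (Nat.pow_le_pow_right (by omega) hi) _)
    (by rw [hsum, hcard]; omega)
  rw [hsum, hcard] at h
  rw [← hfree, h, PF51, hPsi]

end Pool.Agent.Lib.MP_fe1391_co.Thick51
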