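import Pool.Agent.Lib.MP_fe1391_co.Thick51.Un
import Mathlib

/-!
# Coefficients of products of factors `1 + x + ... + x^e`, and palindromic polynomials
-/

set_option autoImplicit false

namespace Pool.Agent.Lib.MP_fe1391_co.Thick51

open PowerSeries

/-- coefficients, extended by zero -/
noncomputable def cf51 (P : PowerSeries ℤ) (m : ℤ) : ℤ := if 0 ≤ m then coeff m.toNat P else 0

theorem cf_nat51 (P : PowerSeries ℤ) (m : ℕ) : cf51 P m = coeff m P := by
  rw [cf51, if_pos (by positivity), Int.toNat_natCast]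

theorem cf_neg51 (P : PowerSeries ℤ) {m : ℤ} (h : m < 0) : cf51 P m = 0 := by
  rw [cf51, if_neg (by omega)]

/-- `1 + x + ... + x^e` -/
noncomputable def geo51 (e : ℕ) : PowerSeries ℤ := ∑ j ∈ Finset.range (e + 1), X ^ j

theorem cf_mul51 (P : PowerSeries ℤ) (e : ℕ) : cf51 (P * geo51 e) = cv51 e (cf51 P) := by
  funext m
  unfold cv51 geo51
  rcases lt_or_ge m 0 with h | h
  · rw [cf_neg51 _ h]
    symm
    exact Finset.sum_eq_zero fun t _ => cf_neg51 _ (by omega)
  · obtain ⟨n, rfl⟩ := Int.eq_ofNat_of_zero_le h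
    rw [cf_nat51, Finset.mul_sum, map_sum]
    refine Finset.sum_congr rfl fun t _ => ?_
    rw [coeff_mul_X_pow']
    by_cases ht : t ≤ n
    · rw [if_pos ht]
      have : ((n : ℤ) - t) = ((n - t : ℕ) : ℤ) := by omega
      rw [this, cf_nat51]
    · rw [if_neg ht, cf_neg51 _ (by omega)]

theorem un_one51 : Un51 (cf51 1) 0 0 := by
  have h : ∀ m : ℤ, cf51 1 m = if m = 0 then 1 else 0 := by
    intro m
    rcases lt_or_ge m 0 with h | h
    · rw [cf_neg51 _ h, if_neg (by omega)]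
    · obtain ⟨n, rfl⟩ := Int.eq_ofNat_of_zero_le h
      rw [cf_nat51, coeff_one]
      by_cases hn : n = 0
      · rw [if_pos hn, if_pos (by omega)]
      · rw [if_neg hn, if_neg (by omega)]
  refine ⟨fun m => ?_, fun m hm => cf_neg51 _ hm, fun m h1 h2 => ?_, fun a b h1 h2 => ?_,
    fun a b h1 h2 h3 h4 => by omega⟩
  · rw [h, h]
    by_cases hm : m = 0
    · rw [if_pos (by omega), if_pos hm]
    · rw [if_neg (by omega), if_neg hm]
  · rw [h, if_pos (by omega)]
    exact one_pos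
  · rw [h, h]
    by_cases ha : a = 0
    · rw [if_pos ha, if_pos (by omega)]
    · rw [if_neg ha]
      split_ifs <;> omega

theorem Un51.mono {G : ℤ → ℤ} {σ M M' : ℤ} (h : Un51 G σ M) (hM : M ≤ M') : Un51 G σ M' :=
  ⟨h.sym, h.neg, h.pos, h.weak, fun a b h1 h2 h3 h4 => h.strict a b h1 h2 h3 (by omega)⟩

theorem un_prod51 {ι : Type*} (d : ι → ℕ) (s : Finset ι) :
    ∀ M : ℕ, (∀ i ∈ s, d i ≤ M) → Un51 (cf51 (∏ i ∈ s, geo51 (d i))) ((∑ i ∈ s, d i : ℕ) : ℤ) M := by
  classical
  induction s using Finset.induction_on_max_value d with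
  | empty =>
    intro M _
    rw [Finset.prod_empty, Finset.sum_empty]
    exact un_one51.mono (by positivity)
  | insert a s ha hmax ih =>
    intro M hM
    have h1 := un_cv51 (ih (d a) hmax) (by positivity) (d a) le_rfl
    rw [Finset.prod_insert ha, Finset.sum_insert ha, mul_comm, cf_mul51, add_comm (d a)]
    push_cast at h1 ⊢
    exact h1.mono (by exact_mod_cast hM a (Finset.mem_insert_self _ _))

theorem pal_cf51 {f : Polynomial ℤ} (hf : f.reverse = f) (m : ℤ) :
    cf51 (f : PowerSeries ℤ) (f.natDegree - m) = cf51 (f : PowerSeries ℤ) m := by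
  have hz : ∀ m : ℤ, (f.natDegree : ℤ) < m → cf51 (f : PowerSeries ℤ) m = 0 := by
    intro m hm
    obtain ⟨n, rfl⟩ := Int.eq_ofNat_of_zero_le (a := m) (by omega)
    rw [cf_nat51, Polynomial.coeff_coe]
    exact Polynomial.coeff_eq_zero_of_natDegree_lt (by omega)
  rcases lt_or_ge m 0 with h | h
  · rw [cf_neg51 _ h, hz _ (by omega)]
  · rcases lt_or_ge (f.natDegree : ℤ) m with h2 | h2
    · rw [hz m h2, cf_neg51 _ (by omega)]
    · obtain ⟨n, rfl⟩ := Int.eq_ofNat_of_zero_le h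
      have e : (f.natDegree : ℤ) - n = ((f.natDegree - n : ℕ) : ℤ) := by omega
      rw [e, cf_nat51, cf_nat51, Polynomial.coeff_coe, Polynomial.coeff_coe]
      have h3 : f.reverse.coeff n = f.coeff n := by rw [hf]
      rw [Polynomial.coeff_reverse, Polynomial.revAt_le (by omega)] at h3
      exact h3

theorem cf_top51 {f : Polynomial ℤ} (hf : f ≠ 0) :
    cf51 (f : PowerSeries ℤ) f.natDegree ≠ 0 := by
  rw [cf_nat51, Polynomial.coeff_coe]
  exact Polynomial.leadingCoeff_ne_zero.2 hf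

theorem cf_big51 {f : Polynomial ℤ} {m : ℤ} (hm : (f.natDegree : ℤ) < m) :
    cf51 (f : PowerSeries ℤ) m = 0 := by
  obtain ⟨n, rfl⟩ := Int.eq_ofNat_of_zero_le (a := m) (by omega)
  rw [cf_nat51, Polynomial.coeff_coe]
  exact Polynomial.coeff_eq_zero_of_natDegree_lt (by omega)

theorem ext_cf51 {P Q : PowerSeries ℤ} (h : ∀ m : ℤ, 0 ≤ m → cf51 P m = cf51 Q m) : P = Q := by
  ext n
  have := h n (by positivity)
  rwa [cf_nat51, cf_nat51] at this

/-- two symmetric series which agree in the first half agree -/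
theorem eq_of_half51 {f : Polynomial ℤ} (hf : f.reverse = f) {Q : PowerSeries ℤ}
    (hQ : ∀ m : ℤ, cf51 Q (f.natDegree - m) = cf51 Q m) {k : ℕ} (hk : f.natDegree ≤ 2 * k + 1)
    (h : ∀ m : ℤ, m ≤ k + 1 → cf51 (f : PowerSeries ℤ) m = cf51 Q m) :
    (f : PowerSeries ℤ) = Q := by
  apply ext_cf51
  intro m _
  rcases le_or_gt m (k + 1) with h1 | h1
  · exact h m h1
  · rw [← pal_cf51 hf, ← hQ]
    exact h _ (by omega)

end Pool.Agent.Lib.MP_fe1391_co.Thick51
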