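import Pool.Agent.Lib.MP_fe1391_co.Thick51.Low

/-!
# Arrangements with `ℓ - 1` logarithmic fields with coprime maximal minors
-/

set_option autoImplicit false

namespace Pool.Agent.Lib.MP_fe1391_co.Thick51

open MvPolynomial Pool.Agent.Lib.MP_fe1391_co.Tame

universe u

variable {K : Type u} [Field K] {q : ℕ}

/-- the maximal minor without the column `j` -/
noncomputable def mi51 (θ : Fin q → Fin (q + 1) → S K (q + 1)) (j : Fin (q + 1)) : S K (q + 1) :=
  (Matrix.of fun a b => θ a (j.succAbove b)).det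

/-- the maximal minors have no common factor -/
def Cop51 (θ : Fin q → Fin (q + 1) → S K (q + 1)) : Prop :=
  ∀ f : S K (q + 1), (∀ j, f ∣ mi51 θ j) → IsUnit f

theorem cop_ne51 {θ : Fin q → Fin (q + 1) → S K (q + 1)} (h : Cop51 θ) : ∃ j, mi51 θ j ≠ 0 := by
  by_contra hcon
  push Not at hcon
  exact not_isUnit_zero (h 0 fun j => by rw [hcon j])

theorem cop_dvd51 {θ : Fin q → Fin (q + 1) → S K (q + 1)} (h : Cop51 θ) (y : S K (q + 1)) :
    y ≠ 0 → ∀ c : S K (q + 1), (∀ j, y ∣ mi51 θ j * c) → y ∣ c := by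
  induction y using UniqueFactorizationMonoid.induction_on_prime with
  | h₁ => intro h; exact absurd rfl h
  | h₂ x hx => intro _ c _; exact hx.dvd
  | h₃ a p ha hp ih =>
    intro _ c hc
    obtain ⟨c', rfl⟩ := ih ha c fun j => (Dvd.intro_left p rfl).trans (hc j)
    have h1 : ∀ j, p ∣ mi51 θ j * c' := by
      intro j
      obtain ⟨t, ht⟩ := hc j
      refine ⟨t, ?_⟩
      apply mul_left_cancel₀ ha
      linear_combination ht
    by_cases hpc : p ∣ c'
    · rw [mul_comm]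
      exact mul_dvd_mul dvd_rfl hpc
    · exact absurd (h p fun j => (hp.dvd_or_dvd (h1 j)).resolve_right hpc) hp.not_isUnit

theorem ind_cop51 {θ : Fin q → Fin (q + 1) → S K (q + 1)} (h : Cop51 θ) : Ind51 θ := by
  obtain ⟨j, hj⟩ := cop_ne51 h
  intro c hc i
  have h1 : Matrix.vecMul c (Matrix.of fun a b => θ a (j.succAbove b)) = 0 := by
    funext b
    exact hc (j.succAbove b)
  exact congrFun (Matrix.eq_zero_of_vecMul_eq_zero hj h1) i

theorem det_cons51 (θ : Fin q → Fin (q + 1) → S K (q + 1)) (v : Fin (q + 1) → S K (q + 1)) :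
    ∀ j, ∃ c : Fin q → S K (q + 1), ∀ i, mi51 θ j * v i =
      (∑ a, c a * θ a i) +
        (-1) ^ (j : ℕ) * ((Matrix.of (Fin.cons v θ : Fin (q + 1) → Fin (q + 1) → S K (q + 1))).det *
          (if j = i then 1 else 0)) := by
  intro j
  let A : Matrix (Fin (q + 1)) (Fin (q + 1)) (S K (q + 1)) :=
    Matrix.of (Fin.cons v θ : Fin (q + 1) → Fin (q + 1) → S K (q + 1))
  refine ⟨fun a => - ((-1) ^ (j : ℕ) * A.adjugate j a.succ), fun i => ?_⟩
  have h1 : A.adjugate j 0 = (-1) ^ (j : ℕ) * mi51 θ j := by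
    rw [Matrix.adjugate_fin_succ_eq_det_submatrix]
    have e1 : ((0 : Fin (q + 1)) : ℕ) + (j : ℕ) = j := by simp
    rw [e1]
    rfl
  have h2 : (A.adjugate * A) j i = A.det * (if j = i then 1 else 0) := by
    rw [Matrix.adjugate_mul, Matrix.smul_apply, Matrix.one_apply, smul_eq_mul]
  rw [Matrix.mul_apply, Fin.sum_univ_succ, h1] at h2
  have h3 : A 0 i = v i := rfl
  have h4 : ∀ a : Fin q, A a.succ i = θ a i := fun a => rfl
  rw [h3] at h2
  simp only [h4] at h2
  have h5 : ((-1 : S K (q + 1)) ^ (j : ℕ)) * (-1) ^ (j : ℕ) = 1 := by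
    rw [← mul_pow]
    simp
  have h6 : mi51 θ j * v i = (-1) ^ (j : ℕ) * ((-1) ^ (j : ℕ) * mi51 θ j * v i) := by
    calc mi51 θ j * v i = ((-1 : S K (q + 1)) ^ (j : ℕ) * (-1) ^ (j : ℕ)) * (mi51 θ j * v i) := by
          rw [h5, one_mul]
      _ = _ := by ring
  have h7 : (-1) ^ (j : ℕ) * mi51 θ j * v i = A.det * (if j = i then 1 else 0) -
      ∑ a : Fin q, A.adjugate j a.succ * θ a i := by
    rw [← h2]
    ring
  rw [h6, h7, mul_sub, Finset.mul_sum]
  simp only [neg_mul, Finset.sum_neg_distrib, mul_assoc]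
  ring

/-- saturation -/
theorem cop_sat51 {θ : Fin q → Fin (q + 1) → S K (q + 1)} (h : Cop51 θ)
    {v : Fin (q + 1) → S K (q + 1)}
    (hv : (Matrix.of (Fin.cons v θ : Fin (q + 1) → Fin (q + 1) → S K (q + 1))).det = 0) :
    ∃ e : Fin q → S K (q + 1), ∀ i, v i = ∑ a, e a * θ a i := by
  have h0 : ∀ j, ∃ c : Fin q → S K (q + 1), ∀ i, mi51 θ j * v i = ∑ a, c a * θ a i := by
    intro j
    obtain ⟨c, hc⟩ := det_cons51 θ v j
    refine ⟨c, fun i => ?_⟩
    rw [hc i, hv]
    ring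
  choose c hc using h0
  obtain ⟨j0, hj0⟩ := cop_ne51 h
  have hind := ind_cop51 h
  have h1 : ∀ a, mi51 θ j0 ∣ c j0 a := by
    intro a
    apply cop_dvd51 h _ hj0
    intro k
    have h2 := hind (fun a => mi51 θ k * c j0 a - mi51 θ j0 * c k a) (fun i => by
      simp only [sub_mul, Finset.sum_sub_distrib]
      have e1 : ∑ a, mi51 θ k * c j0 a * θ a i = mi51 θ k * (mi51 θ j0 * v i) := by
        rw [hc j0 i, Finset.mul_sum]
        exact Finset.sum_congr rfl fun a _ => by ring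
      have e2 : ∑ a, mi51 θ j0 * c k a * θ a i = mi51 θ j0 * (mi51 θ k * v i) := by
        rw [hc k i, Finset.mul_sum]
        exact Finset.sum_congr rfl fun a _ => by ring
      rw [e1, e2]
      ring) a
    exact ⟨c k a, sub_eq_zero.1 h2⟩
  choose e he using h1
  refine ⟨e, fun i => ?_⟩
  apply mul_left_cancel₀ hj0
  rw [hc j0 i, Finset.mul_sum]
  exact Finset.sum_congr rfl fun a _ => by rw [he a]; ring

theorem det_zero51 {θ : Fin q → Fin (q + 1) → S K (q + 1)} {v : Fin (q + 1) → S K (q + 1)}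
    {y : S K (q + 1)} (hy : y ≠ 0) {c : Fin q → S K (q + 1)}
    (h : ∀ i, y * v i = ∑ a, c a * θ a i) :
    (Matrix.of (Fin.cons v θ : Fin (q + 1) → Fin (q + 1) → S K (q + 1))).det = 0 := by
  by_contra hne
  have hind := ind_of_det51 hne
  have h1 := hind (Fin.cons y fun a => - c a) (fun i => by
    rw [Fin.sum_univ_succ]
    simp only [Fin.cons_zero, Fin.cons_succ, neg_mul, Finset.sum_neg_distrib]
    rw [h i, add_neg_cancel]) 0
  exact hy h1

/-! ### free arrangements -/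

theorem fu_saito51 {ℓ : ℕ} {B : Finset (Fin ℓ → K)} (hB : Tame.Norm B) {d : Fin ℓ → ℕ}
    {θ : Matrix (Fin ℓ) (Fin ℓ) (S K ℓ)} (hθ : IsSaito B d θ) (k : ℤ) :
    FU51 B d (fun i j => θ i j) k := by
  obtain ⟨c, hc, hdet⟩ := hθ.det
  have hdet0 : (Matrix.of (fun i j => θ i j)).det ≠ 0 := by
    have : (Matrix.of (fun i j => θ i j)) = θ := rfl
    rw [this, hdet]
    exact mul_ne_zero (C_ne_zero.2 hc) (Pair.Q_ne_zero hB)
  refine ⟨hθ.hom, hθ.log, fun m _ v hv hvm => ?_, fun m _ c _ h0 => ind_of_det51 hdet0 c h0⟩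
  obtain ⟨c', hc'⟩ := sp_of_det51 hB (θ := fun i j => θ i j) hθ.log hc hdet v hv
  exact homog51 hθ.hom hvm hc'

theorem pal_of_free51 {ℓ : ℕ} (hℓ : 1 ≤ ℓ) {B : Finset (Fin ℓ → K)} (hB : Tame.Norm B)
    (hfree : Module.Free (S K ℓ) (LogA (S K ℓ) B 1)) :
    ∃ f : Polynomial ℤ, f ≠ 0 ∧ f.natDegree = B.card ∧ f.reverse = f ∧
      (f : PowerSeries ℤ) = PS51 B := by
  obtain ⟨d, θ, hθ⟩ := Final.saito K ℓ B hB hfree
  obtain ⟨c, hc, hdet⟩ := hθ.det
  have hdet0 : (Matrix.of (fun i j => θ i j)).det ≠ 0 := by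
    have : (Matrix.of (fun i j => θ i j)) = θ := rfl
    rw [this, hdet]
    exact mul_ne_zero (C_ne_zero.2 hc) (Pair.Q_ne_zero hB)
  obtain ⟨f, hf0, hfr, hfP⟩ := Fwd.thm5 ℓ d
  have hfP' : (f : PowerSeries ℤ) = ∏ i, geo51 (d i) := hfP
  have hPS : PS51 B = ∏ i, geo51 (d i) := by
    apply ext_cf51
    intro m hm
    obtain ⟨n, rfl⟩ := Int.eq_ofNat_of_zero_le hm
    exact cmp51 hℓ hB (fu_saito51 hB hθ (n : ℤ)) d (by simp) (by simp) n (by omega)
  -- the sum of the degrees
  obtain ⟨g, hg1, hg2, hg3⟩ := card_le51 hB hθ.hom hθ.log hdet0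
  have hsum : ∑ i, d i = B.card := by
    have e1 : (Matrix.of (fun i j => θ i j)) = θ := rfl
    rw [e1, hdet] at hg1
    have hg4 : g = C c := by
      apply mul_left_cancel₀ (Pair.Q_ne_zero hB)
      rw [← hg1, mul_comm]
    have h1 := (mem_grS51.1 hg2) 0 (by rw [hg4, coeff_C, if_pos rfl]; exact hc)
    rw [map_zero] at h1
    omega
  have hUn := un_prod51 d Finset.univ (∑ i, d i) (fun i hi => Finset.single_le_sum
    (f := d) (fun _ _ => Nat.zero_le _) hi)
  refine ⟨f, hf0, ?_, hfr, by rw [hfP', hPS]⟩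
  apply le_antisymm
  · rw [Polynomial.natDegree_le_iff_coeff_eq_zero]
    intro N hN
    have h1 := zero_of_big51 hUn (m := (N : ℤ)) (by omega)
    rw [← hfP', cf_nat51, Polynomial.coeff_coe] at h1
    exact h1
  · apply Polynomial.le_natDegree_of_ne_zero
    have h1 := hUn.pos (B.card : ℤ) (by positivity) (by omega)
    rw [← hfP', cf_nat51, Polynomial.coeff_coe] at h1
    exact h1.ne'

/-! ### the criterion -/

/-- low degree fields lie in the span, or the arrangement is free -/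
theorem low_or_free51 {B : Finset (Fin (q + 1) → K)} (hB : Tame.Norm B) {d : Fin q → ℕ}
    {θ : Fin q → Fin (q + 1) → S K (q + 1)} (hhom : ∀ i j, (θ i j).IsHomogeneous (d i))
    (hlog : ∀ i, Saito.IsLog B (θ i)) (hcop : Cop51 θ)
    (hnf : ¬ Module.Free (S K (q + 1)) (LogA (S K (q + 1)) B 1)) {m : ℕ}
    {v : Fin (q + 1) → S K (q + 1)} (hv : v ∈ DV51 B m) (hm : m + ∑ i, d i ≤ B.card) :
    ∃ e : Fin q → S K (q + 1), ∀ i, v i = ∑ a, e a * θ a i := by
  by_cases hdet : (Matrix.of (Fin.cons v θ : Fin (q + 1) → Fin (q + 1) → S K (q + 1))).det = 0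
  · exact cop_sat51 hcop hdet
  · exfalso
    apply hnf
    have hhom' : ∀ i j, ((Fin.cons v θ : Fin (q + 1) → Fin (q + 1) → S K (q + 1)) i j).IsHomogeneous
        ((Fin.cons m d : Fin (q + 1) → ℕ) i) := by
      intro i
      refine Fin.cases ?_ (fun i => ?_) i
      · intro j
        exact hom_of_grS51 (hv.2 j)
      · intro j
        exact hhom i j
    have hlog' : ∀ i, Saito.IsLog B ((Fin.cons v θ : Fin (q + 1) → Fin (q + 1) → S K (q + 1)) i) := by
      intro i
      refine Fin.cases ?_ (fun i => ?_) i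
      · exact hv.1
      · exact hlog i
    obtain ⟨g, hg1, hg2, hg3⟩ := card_le51 hB hhom' hlog' hdet
    rw [Fin.sum_univ_succ] at hg2 hg3
    simp only [Fin.cons_zero, Fin.cons_succ] at hg2 hg3
    have e0 : ((m + ∑ i, d i : ℕ) : ℤ) - B.card = ((0 : ℕ) : ℤ) := by
      have : m + ∑ i, d i = B.card := le_antisymm hm hg3
      rw [this]
      simp
    rw [e0] at hg2
    have hg2' := hom_of_grS51 hg2
    obtain ⟨c, hc⟩ : ∃ c, g = C c := ⟨_, totalDegree_eq_zero_iff_eq_C.1 (by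
      by_cases hg0 : g = 0
      · rw [hg0, totalDegree_zero]
      · exact hg2'.totalDegree hg0)⟩
    have hc0 : c ≠ 0 := by
      rintro rfl
      exact hdet (by rw [hg1, hc, C_0, mul_zero])
    exact free51 hlog' (sp_of_det51 hB hlog' hc0 (by rw [hg1, hc, mul_comm])) (ind_of_det51 hdet)

theorem thick51 {B : Finset (Fin (q + 1) → K)} (hB : Tame.Norm B) {d : Fin q → ℕ}
    {θ : Fin q → Fin (q + 1) → S K (q + 1)} (hhom : ∀ i j, (θ i j).IsHomogeneous (d i))
    (hlog : ∀ i, Saito.IsLog B (θ i)) (hcop : Cop51 θ)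
    (h1 : ∀ i, ∑ a, d a + d i ≤ B.card) (h0 : ∑ a, d a ≤ B.card) :
    Module.Free (S K (q + 1)) (LogA (S K (q + 1)) B 1) ↔ (PF51 B ∨
      ∃ f : Polynomial ℤ, f.natDegree ≤ 2 * (B.card - ∑ a, d a) + 1 ∧ f.reverse = f ∧
        (f : PowerSeries ℤ) = PS51 B) := by
  classical
  obtain ⟨c, hc⟩ := Nat.exists_eq_add_of_le h0
  have hdc : ∀ i, d i ≤ c := fun i => by have := h1 i; omega
  have hind := ind_cop51 hcop
  have hFU : ¬ Module.Free (S K (q + 1)) (LogA (S K (q + 1)) B 1) → FU51 B d θ (c : ℤ) := by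
    intro hnf
    refine ⟨hhom, hlog, fun m hm v hv hvm => ?_, fun m _ c _ h0 => hind c h0⟩
    rcases lt_or_ge m 0 with hm0 | hm0
    · refine ⟨0, fun i => Submodule.zero_mem _, fun j => ?_⟩
      rw [grS_neg51 hm0 (hvm j)]
      simp
    · obtain ⟨n, rfl⟩ := Int.eq_ofNat_of_zero_le hm0
      obtain ⟨e, he⟩ := low_or_free51 hB hhom hlog hcop hnf (m := n) ⟨hv, hvm⟩ (by omega)
      exact homog51 hhom hvm he
  constructor
  · exact fun h => Or.inl (pf_of_free51 hB h)
  · rintro (hP | ⟨f, hfd, hfr, hfP⟩)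
    · by_contra hnf
      apply hnf
      have hF := hFU hnf
      by_cases hsp : Sp51 B θ
      · exact free51 hlog hsp hind
      have hex : ∃ m : ℕ, ∃ v : Fin (q + 1) → S K (q + 1), v ∈ DV51 B m ∧
          ∀ c : Fin q → S K (q + 1), ¬ ∀ j, v j = ∑ i, c i * θ i j := by
        by_contra hcon
        push Not at hcon
        apply hsp
        exact sp_of_homog51 fun m v hv => hcon m v hv
      obtain ⟨v, hv, hv'⟩ := Nat.find_spec hex
      have hmin : ∀ m < Nat.find hex, ∀ v : Fin (q + 1) → S K (q + 1), v ∈ DV51 B m →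
          ∃ c : Fin q → S K (q + 1), ∀ j, v j = ∑ i, c i * θ i j := by
        intro m hm v hv
        have := Nat.find_min hex hm
        by_contra hcon
        push Not at hcon
        exact this ⟨v, hv, fun c => by
          intro h
          obtain ⟨j, hj⟩ := hcon c
          exact hj (h j)⟩
      have hk : c < Nat.find hex := by
        by_contra hle
        obtain ⟨c', -, hc'⟩ := hF.gen _ (by omega) v hv.1 hv.2
        exact hv' c' hc'
      refine ext51 hB hhom hlog hind (fun i => (hdc i).trans hk.le) hmin hv ?_ hP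
      intro y hy c' hc'
      obtain ⟨e, he⟩ := cop_sat51 hcop (det_zero51 hy hc')
      exact hv' e he
    · by_contra hnf
      exact hnf (halfThm51 (by omega) hB (hFU hnf) hdc hind hfr (by omega) hfP)

end Pool.Agent.Lib.MP_fe1391_co.Thick51
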