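import Pool.Agent.Lib.MP_fe1391_co.Thick51.Tens

/-!
# Dimensions of the spaces of multiderivations below the first relation
-/

set_option autoImplicit false

namespace Pool.Agent.Lib.MP_fe1391_co.Thick51

open MvPolynomial Pool.Agent.Lib.MP_fe1391_co.Tame

universe u

section Gen

variable {A : Type*} [CommRing A] {ℓ r : ℕ}

/-- the minor with rows `I` and columns `w` -/
noncomputable def mn51 (θ : Fin r → Fin ℓ → A) {p : ℕ} (I : Fin p ↪o Fin r) (w : Fin p → Fin ℓ) :
    A := (Matrix.of fun i j => θ (I j) (w i)).det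

/-- the alternating form with the minors as values -/
noncomputable def psi51 (θ : Fin r → Fin ℓ → A) {p : ℕ} (I : Fin p ↪o Fin r) :
    (Fin ℓ → A) [⋀^Fin p]→ₗ[A] A :=
  (Matrix.detRowAlternating : (Fin p → A) [⋀^Fin p]→ₗ[A] A).compLinearMap
    (Matrix.mulVecLin (Matrix.of fun a i => θ (I a) i))

theorem psi_basis51 (θ : Fin r → Fin ℓ → A) {p : ℕ} (I : Fin p ↪o Fin r) (w : Fin p → Fin ℓ) :
    psi51 θ I (fun k => Pi.single (w k) 1) = mn51 θ I w := by
  have h : psi51 θ I (fun k => Pi.single (w k) 1) = (Matrix.of fun i j =>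
      ((Matrix.of fun a i => θ (I a) i).mulVec (Pi.single (w i) 1)) j).det := rfl
  rw [h, mn51]
  congr 1
  ext i j
  simp

theorem psi_update51 (θ : Fin r → Fin ℓ → A) {p : ℕ} (I : Fin p ↪o Fin r)
    (u : Fin p → Fin ℓ → A) (j : Fin p) (v : Fin ℓ → A) (t : Fin r → A) (x : A)
    (h : ∀ i, ∑ y, θ i y * v y = x * t i) : x ∣ psi51 θ I (Function.update u j v) := by
  classical
  refine ⟨(Matrix.detRowAlternating : (Fin p → A) [⋀^Fin p]→ₗ[A] A) (Function.update
    (fun k => (Matrix.mulVecLin (Matrix.of fun a i => θ (I a) i)) (u k)) j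
    (fun a => t (I a))), ?_⟩
  rw [psi51, AlternatingMap.compLinearMap_apply]
  have h1 : (fun i => (Matrix.mulVecLin (Matrix.of fun a i => θ (I a) i))
      (Function.update u j v i)) =
      Function.update (fun k => (Matrix.mulVecLin (Matrix.of fun a i => θ (I a) i)) (u k)) j
        (x • (fun a => t (I a))) := by
    funext i
    rcases eq_or_ne i j with rfl | hij
    · rw [Function.update_self, Function.update_self]
      funext a
      exact h (I a)
    · rw [Function.update_of_ne hij, Function.update_of_ne hij]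
  rw [h1, AlternatingMap.map_update_smul, smul_eq_mul]

/-- the alternating form on `A^r` with given coordinates -/
noncomputable def gam51 {p : ℕ} (f : (Fin p ↪o Fin r) → A) : (Fin r → A) [⋀^Fin p]→ₗ[A] A :=
  ∑ I, f I • (Matrix.detRowAlternating : (Fin p → A) [⋀^Fin p]→ₗ[A] A).compLinearMap
    (LinearMap.funLeft A A I)

/-- its array -/
noncomputable def arr51 {p : ℕ} (f : (Fin p ↪o Fin r) → A) (i : Fin p → Fin r) : A :=
  gam51 f (fun k => Pi.single (i k) 1)

theorem isAlt_arr51 {p : ℕ} (f : (Fin p ↪o Fin r) → A) : IsAlt (arr51 f) :=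
  Htpy.isAlt_of_map _

theorem arr_apply51 {p : ℕ} (f : (Fin p ↪o Fin r) → A) (i : Fin p → Fin r) :
    arr51 f i = ∑ I, f I * (Matrix.of fun a b : Fin p => if I b = i a then (1 : A) else 0).det := by
  unfold arr51 gam51
  rw [Minors.sum_app]
  refine Finset.sum_congr rfl fun I _ => ?_
  rw [AlternatingMap.smul_apply, smul_eq_mul]
  congr 1
  have h : ((Matrix.detRowAlternating : (Fin p → A) [⋀^Fin p]→ₗ[A] A).compLinearMap
      (LinearMap.funLeft A A I)) (fun k => Pi.single (i k) 1) =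
      (Matrix.of fun a b => (Pi.single (i a) (1 : A) : Fin r → A) (I b)).det := rfl
  rw [h]
  congr 1
  ext a b
  rw [Matrix.of_apply, Matrix.of_apply, Pi.single_apply]

theorem arr_self51 {p : ℕ} (f : (Fin p ↪o Fin r) → A) (J : Fin p ↪o Fin r) :
    arr51 f J = f J := by
  rw [arr_apply51, Finset.sum_eq_single J]
  · rw [Minors.det_delta, if_pos rfl, mul_one]
  · intro I _ hI
    rw [Minors.det_delta, if_neg hI, mul_zero]
  · intro h
    exact absurd (Finset.mem_univ _) h

end Gen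

variable {K : Type u} [Field K] {ℓ : ℕ} {r : ℕ}

theorem ev_minors51 (θ : Fin r → Fin ℓ → S K ℓ) {p : ℕ} (c : (Fin p → Fin r) → S K ℓ)
    (hc : IsAlt c) (w : Fin p → Fin ℓ) : ev51 θ c w = ∑ I : Fin p ↪o Fin r, mn51 θ I w * c I := by
  have h1 := Htpy.amap_apply c hc (fun k x => θ x (w k))
  have h2 := Minors.expand (Htpy.amap c hc) (fun k x => θ x (w k))
  rw [h1] at h2
  rw [ev51, h2]
  refine Finset.sum_congr rfl fun I _ => ?_
  rw [Htpy.amap_basis]
  rfl

theorem mn_mem51 {B : Finset (Fin ℓ → K)} {θ : Fin r → Fin ℓ → S K ℓ}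
    (hθ : ∀ i, Saito.IsLog B (θ i)) {p : ℕ} (I : Fin p ↪o Fin r) :
    mn51 θ I ∈ LogA (S K ℓ) B p := by
  classical
  have heq : mn51 θ I = fun w => psi51 θ I (fun k => Pi.single (w k) 1) := by
    funext w
    exact (psi_basis51 θ I w).symm
  rw [Trans.mem_logA]
  refine ⟨?_, fun b hb w j => ?_⟩
  · rw [heq]
    exact Htpy.isAlt_of_map _
  · choose t ht using fun i => hθ i b hb
    have h2 := psi_update51 θ I (fun k => Pi.single (w k) 1) j (fun y => C (b y)) t (lin b)
      (fun i => by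
        rw [← ht i]
        exact Finset.sum_congr rfl fun y _ => mul_comm _ _)
    rw [Pair.map_lin] at h2
    have h3 : ∀ i : Fin ℓ, (fun k => (Pi.single (Function.update w j i k) 1 : Fin ℓ → S K ℓ)) =
        Function.update (fun k => (Pi.single (w k) 1 : Fin ℓ → S K ℓ)) j (Pi.single i 1) := by
      intro i
      funext k
      rcases eq_or_ne k j with rfl | hkj
      · rw [Function.update_self, Function.update_self]
      · rw [Function.update_of_ne hkj, Function.update_of_ne hkj]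
    have h4 : ∑ i, C (b i) * mn51 θ I (Function.update w j i) =
        ∑ i, (C (b i) : S K ℓ) * psi51 θ I (Function.update
          (fun k => (Pi.single (w k) 1 : Fin ℓ → S K ℓ)) j (Pi.single i 1)) := by
      refine Finset.sum_congr rfl fun i _ => ?_
      rw [← h3 i, psi_basis51]
    rw [h4]
    exact h2

theorem mn_gr51 {d : Fin r → ℕ} {θ : Fin r → Fin ℓ → S K ℓ}
    (hθ : ∀ i j, (θ i j).IsHomogeneous (d i)) {p : ℕ} (w : Fin p → Fin ℓ) (I : Fin p ↪o Fin r) :
    mn51 θ I w ∈ grS (K := K) (ℓ := ℓ) (sd51 d I - 0) := by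
  rw [sub_zero, mn51, Matrix.det_apply]
  refine Submodule.sum_mem _ fun σ _ => ?_
  have h1 : ∏ i, (Matrix.of fun i j => θ (I j) (w i)) (σ i) i ∈
      grS (K := K) (ℓ := ℓ) (sd51 d I) :=
    grS_prod51 Finset.univ _ (fun a => (d (I a) : ℤ)) fun a _ => grS_of_hom51 (hθ _ _)
  rcases Int.units_eq_one_or (Equiv.Perm.sign σ) with h | h
  · rw [h, one_smul]
    exact h1
  · rw [h, Units.neg_smul, one_smul]
    exact Submodule.neg_mem _ h1

theorem arr_gr51 {d : Fin r → ℕ} {p : ℕ} {m : ℤ} {f : (Fin p ↪o Fin r) → S K ℓ}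
    (hf : ∀ I : Fin p ↪o Fin r, f I ∈ grS (K := K) (ℓ := ℓ) (m - sd51 d I)) (i : Fin p → Fin r) :
    arr51 f i ∈ grS (K := K) (ℓ := ℓ) (m - sd51 d i) := by
  classical
  rw [arr_apply51]
  refine Submodule.sum_mem _ fun I _ => ?_
  rw [Matrix.det_apply, Finset.mul_sum]
  refine Submodule.sum_mem _ fun σ _ => ?_
  by_cases h : ∀ a, I a = i (σ a)
  · have h1 : ∏ a, (Matrix.of fun a b : Fin p => if I b = i a then (1 : S K ℓ) else 0) (σ a) a = 1 := by
      refine Finset.prod_eq_one fun a _ => ?_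
      rw [Matrix.of_apply, if_pos (h a)]
    have h2 : sd51 d i = sd51 d I := by
      rw [← sd_swap51 d i σ]
      unfold sd51
      refine Finset.sum_congr rfl fun a _ => ?_
      rw [h a]
      rfl
    rw [h1, h2]
    rcases Int.units_eq_one_or (Equiv.Perm.sign σ) with h | h
    · rw [h, one_smul, mul_one]
      exact hf I
    · rw [h, Units.neg_smul, one_smul, mul_neg, mul_one]
      exact Submodule.neg_mem _ (hf I)
  · push Not at h
    obtain ⟨a, ha⟩ := h
    have h1 : ∏ a, (Matrix.of fun a b : Fin p => if I b = i a then (1 : S K ℓ) else 0) (σ a) a = 0 := by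
      apply Finset.prod_eq_zero (Finset.mem_univ a)
      rw [Matrix.of_apply, if_neg ha]
    rw [h1, smul_zero, mul_zero]
    exact Submodule.zero_mem _

/-- the matrix of the minors -/
noncomputable def MM51 (θ : Fin r → Fin ℓ → S K ℓ) (p : ℕ) :
    Matrix (Fin p → Fin ℓ) (Fin p ↪o Fin r) (S K ℓ) := Matrix.of fun w I => mn51 θ I w

theorem MM_apply51 (θ : Fin r → Fin ℓ → S K ℓ) (p : ℕ) (f : (Fin p ↪o Fin r) → S K ℓ)
    (w : Fin p → Fin ℓ) : (MM51 θ p).mulVec f w = ev51 θ (arr51 f) w := by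
  rw [ev_minors51 θ _ (isAlt_arr51 f)]
  change ∑ I, mn51 θ I w * f I = _
  exact Finset.sum_congr rfl fun I _ => by rw [arr_self51]

theorem MM_mem51 {B : Finset (Fin ℓ → K)} {θ : Fin r → Fin ℓ → S K ℓ}
    (hθ : ∀ i, Saito.IsLog B (θ i)) (p : ℕ) (t : (Fin p ↪o Fin r) → S K ℓ) :
    (MM51 θ p).mulVec t ∈ LogA (S K ℓ) B p := by
  have : (MM51 θ p).mulVec t = ∑ I, t I • mn51 θ I := by
    funext w
    rw [Finset.sum_apply]
    change ∑ I, mn51 θ I w * t I = _
    exact Finset.sum_congr rfl fun I _ => by rw [Pi.smul_apply, smul_eq_mul, mul_comm]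
  rw [this]
  exact Submodule.sum_mem _ fun I _ => Submodule.smul_mem _ _ (mn_mem51 hθ I)

theorem MM_gr51 {d : Fin r → ℕ} {θ : Fin r → Fin ℓ → S K ℓ}
    (hθ : ∀ i j, (θ i j).IsHomogeneous (d i)) (p : ℕ) (m : ℤ) (t : (Fin p ↪o Fin r) → S K ℓ)
    (ht : t ∈ Hm (K := K) (A := S K ℓ) grS (fun I : Fin p ↪o Fin r => sd51 d I) m) :
    (MM51 θ p).mulVec t ∈
      Hm (K := K) (A := S K ℓ) grS (fun _ : (Fin p → Fin ℓ) => 0) m := by
  intro w
  change ∑ I, mn51 θ I w * t I ∈ grS (K := K) (ℓ := ℓ) (m - 0)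
  refine Submodule.sum_mem _ fun I _ => ?_
  have h := grS_mul51 (mn_gr51 hθ w I) (ht I)
  have e : sd51 d I - 0 + (m - sd51 d I) = m - 0 := by ring
  rwa [e] at h

/-- the dimension formula -/
theorem finrank51 {B : Finset (Fin ℓ → K)} (hB : Tame.Norm B) {d : Fin r → ℕ}
    {θ : Fin r → Fin ℓ → S K ℓ} {k : ℤ} (hF : FU51 B d θ k) (p : ℕ) {m : ℤ} (hm : m ≤ k) :
    Module.finrank K (Hm grS (fun _ : (Fin p → Fin ℓ) => 0) m ⊓
        (LogA (S K ℓ) B p).restrictScalars K : Submodule K ((Fin p → Fin ℓ) → S K ℓ)) =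
      ∑ I : Fin p ↪o Fin r, Module.finrank K (grS (K := K) (ℓ := ℓ) (m - sd51 d I)) := by
  rw [← Top.finrank_Hm (Grad.thmS K ℓ) (fun I : Fin p ↪o Fin r => sd51 d I) m]
  let W := Hm (K := K) (A := S K ℓ) grS (fun I : Fin p ↪o Fin r => sd51 d I) m
  let L : W →ₗ[K] ((Fin p → Fin ℓ) → S K ℓ) :=
    ((MM51 θ p).mulVecLin.restrictScalars K).domRestrict W
  have hLap : ∀ t : W, L t = (MM51 θ p).mulVec t.1 := fun t => rfl
  have hinj : Function.Injective L := by
    rw [← LinearMap.ker_eq_bot, LinearMap.ker_eq_bot']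
    rintro ⟨f, hf⟩ h0
    rw [hLap] at h0
    have h1 := ev_inj51 hF.hom hF.inj p m hm (arr51 f) (arr_gr51 hf)
      (fun w => by rw [← MM_apply51, h0]; rfl)
    apply Subtype.ext
    funext I
    show f I = 0
    rw [← arr_self51 f I]
    exact h1 _
  have hE : (Hm grS (fun _ : (Fin p → Fin ℓ) => 0) m ⊓
        (LogA (S K ℓ) B p).restrictScalars K : Submodule K ((Fin p → Fin ℓ) → S K ℓ)) =
      LinearMap.range L := by
    ext v
    rw [Submodule.mem_inf, LinearMap.mem_range]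
    constructor
    · rintro ⟨hv1, hv2⟩
      have hv1' : ∀ w, v w ∈ grS (K := K) (ℓ := ℓ) m := by
        intro w
        have : v w ∈ grS (K := K) (ℓ := ℓ) (m - 0) := hv1 w
        rwa [sub_zero] at this
      obtain ⟨c, hc1, hc2, hc3⟩ := exists_tensor51 hB hF p m hm v hv2 hv1'
      refine ⟨⟨fun I => c I, fun I => hc1 I⟩, ?_⟩
      rw [hLap]
      funext w
      rw [hc3 w, ev_minors51 θ c hc2]
      rfl
    · rintro ⟨t, ht⟩
      rw [← ht, hLap]
      exact ⟨MM_gr51 hF.hom p m t.1 t.2, MM_mem51 hF.log p t.1⟩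
  rw [hE]
  exact LinearMap.finrank_range_of_inj hinj

end Pool.Agent.Lib.MP_fe1391_co.Thick51
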