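import Pool.Agent.Lib.MP_fe1391_co.Thick51.Cop

/-!
# The fields `∑ x_i ^ (Q ^ j) ∂_i`: their maximal minors have no common factor
-/

set_option autoImplicit false

namespace Pool.Agent.Lib.MP_fe1391_co.Thick51

open MvPolynomial Pool.Agent.Lib.MP_fe1391_co.Tame

universe u

variable {K : Type u} [Field K] {ℓ m : ℕ}

theorem prod_mon51 (v : Fin m → Fin ℓ) (e : Fin m → ℕ) :
    ∏ i, (X (v i) : S K ℓ) ^ e i = monomial (∑ i, Finsupp.single (v i) (e i)) 1 := by
  rw [monomial_sum_one]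
  exact Finset.prod_congr rfl fun i _ => X_pow_eq_monomial

theorem int_C51 (z : ℤ) : ((z : ℤ) : S K ℓ) = C (z : K) := (map_intCast (C : K →+* S K ℓ) z).symm

theorem moore_ne51 {Q : ℕ} (hQ : 2 ≤ Q) (v : Fin m → Fin ℓ) (hv : Function.Injective v) :
    (Matrix.of fun (a b : Fin m) => (X (v b) : S K ℓ) ^ (Q ^ (a : ℕ))).det ≠ 0 := by
  classical
  intro h
  have h1 := congrArg (coeff (∑ b : Fin m, Finsupp.single (v b) (Q ^ (b : ℕ)))) h
  rw [Matrix.det_apply', coeff_sum, Finset.sum_eq_single 1] at h1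
  · simp only [Matrix.of_apply, int_C51, coeff_C_mul, Equiv.Perm.sign_one, Units.val_one,
      Equiv.Perm.one_apply, coeff_zero] at h1
    rw [prod_mon51, coeff_monomial, if_pos rfl] at h1
    simp at h1
  · intro σ _ hσ
    simp only [Matrix.of_apply, int_C51, coeff_C_mul]
    rw [prod_mon51 v (fun i => Q ^ (σ i : ℕ)), coeff_monomial, if_neg, mul_zero]
    intro he
    apply hσ
    ext i
    have h2 := DFunLike.congr_fun he (v i)
    simp only [Finsupp.coe_finsetSum, Finset.sum_apply, Finsupp.single_apply] at h2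
    have h3 : ∀ e : Fin m → ℕ, ∑ x, (if v x = v i then e x else 0) = e i := by
      intro e
      rw [Finset.sum_eq_single i]
      · rw [if_pos rfl]
      · intro b _ hb
        rw [if_neg fun h => hb (hv h)]
      · intro h
        exact absurd (Finset.mem_univ i) h
    rw [h3 (fun x => Q ^ (σ x : ℕ)), h3 (fun x => Q ^ (x : ℕ))] at h2
    exact Nat.pow_right_injective hQ h2
  · intro h
    exact absurd (Finset.mem_univ _) h

theorem moore_deg51 {Q : ℕ} (v : Fin m → Fin ℓ) (j : Fin ℓ) (hj : ∀ b, v b ≠ j) :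
    degreeOf j (Matrix.of fun (a b : Fin m) => (X (v b) : S K ℓ) ^ (Q ^ (a : ℕ))).det = 0 := by
  classical
  apply Nat.eq_zero_of_le_zero
  rw [Matrix.det_apply']
  refine (degreeOf_sum_le _ _ _).trans (Finset.sup_le fun σ _ => ?_)
  refine (degreeOf_mul_le _ _ _).trans ?_
  rw [int_C51, degreeOf_C, zero_add]
  refine (degreeOf_prod_le _ _ _).trans ?_
  rw [Finset.sum_eq_zero]
  intro i _
  exact degreeOf_X_pow_of_ne _ (hj i).symm

/-- a polynomial of degree zero in every variable is a constant -/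
theorem const51 {f : S K ℓ} (h : ∀ j, degreeOf j f = 0) : f = C (coeff 0 f) := by
  classical
  ext s
  rw [coeff_C]
  split_ifs with hs
  · rw [← hs]
  · by_contra hne
    apply hs
    have h1 : s ∈ f.support := mem_support_iff.2 hne
    ext j
    have := le_degreeOf_of_mem_support j h1
    rw [h j] at this
    simp only [Finsupp.coe_zero, Pi.zero_apply]
    omega

/-- the fields `∑ x_i ^ (Q ^ j) ∂_i` -/
noncomputable def fr51 (K : Type u) [Field K] (m Q : ℕ) (a : Fin m) (i : Fin (m + 1)) :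
    S K (m + 1) := (X i : S K (m + 1)) ^ (Q ^ (a : ℕ))

theorem fr_hom51 (Q : ℕ) (a : Fin m) (i : Fin (m + 1)) :
    (fr51 K m Q a i).IsHomogeneous (Q ^ (a : ℕ)) := by
  have h := (isHomogeneous_X K i).pow (Q ^ (a : ℕ))
  rw [one_mul] at h
  exact h

theorem fr_cop51 {Q : ℕ} (hQ : 2 ≤ Q) : Cop51 (fr51 K m Q) := by
  intro f hf
  have hne : ∀ j, mi51 (fr51 K m Q) j ≠ 0 := fun j =>
    moore_ne51 hQ (fun b => j.succAbove b) Fin.succAbove_right_injective
  have hdeg : ∀ j, degreeOf j (mi51 (fr51 K m Q) j) = 0 := fun j =>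
    moore_deg51 (fun b => j.succAbove b) j fun b => Fin.succAbove_ne j b
  have hf0 : f ≠ 0 := by
    rintro rfl
    exact hne 0 (zero_dvd_iff.1 (hf 0))
  have h1 : ∀ j, degreeOf j f = 0 := by
    intro j
    obtain ⟨g, hg⟩ := hf j
    have hg0 : g ≠ 0 := by
      rintro rfl
      exact hne j (by rw [hg, mul_zero])
    have h2 := hdeg j
    rw [hg, degreeOf_mul_eq hf0 hg0] at h2
    omega
  have h2 := const51 h1
  rw [h2]
  apply IsUnit.map
  rw [isUnit_iff_ne_zero]
  intro h3
  exact hf0 (by rw [h2, h3, C_0])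

/-- Frobenius fields are logarithmic -/
theorem fr_dvd51 {F : Type*} [Field F] [Fintype F] [Algebra F K] (a : Fin (m + 1) → K)
    (b : Fin (m + 1) → F) (c : K) (hab : ∀ i, a i = c * algebraMap F K (b i))
    (j : ℕ) :
    (∑ i, C (a i) * (X i : S K (m + 1))) ∣
      ∑ i, C (a i) * (X i : S K (m + 1)) ^ (Fintype.card F ^ j) := by
  have hchar : ∃ p e : ℕ, Nat.Prime p ∧ CharP F p ∧ Fintype.card F = p ^ e ∧ 0 < e := by
    obtain ⟨p, hp⟩ := CharP.exists F
    obtain ⟨e, hp1, he⟩ := FiniteField.card F p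
    exact ⟨p, e, hp1, hp, he, e.pos⟩
  obtain ⟨p, e, hp, hcp, hcard, he⟩ := hchar
  have : CharP K p := charP_of_injective_algebraMap (algebraMap F K).injective p
  have : Fact p.Prime := ⟨hp⟩
  have h1 : (∑ i, C (algebraMap F K (b i)) * (X i : S K (m + 1))) ^ (Fintype.card F ^ j) =
      ∑ i, C (algebraMap F K (b i)) * (X i : S K (m + 1)) ^ (Fintype.card F ^ j) := by
    rw [hcard, ← pow_mul, sum_pow_char_pow]
    refine Finset.sum_congr rfl fun i _ => ?_
    rw [mul_pow, ← C_pow, ← map_pow, pow_mul, ← hcard, FiniteField.pow_card_pow]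
  have e1 : ∑ i, C (a i) * (X i : S K (m + 1)) =
      C c * ∑ i, C (algebraMap F K (b i)) * (X i : S K (m + 1)) := by
    rw [Finset.mul_sum]
    exact Finset.sum_congr rfl fun i _ => by rw [hab i, C_mul]; ring
  have e2 : ∑ i, C (a i) * (X i : S K (m + 1)) ^ (Fintype.card F ^ j) =
      C c * (∑ i, C (algebraMap F K (b i)) * (X i : S K (m + 1))) ^ (Fintype.card F ^ j) := by
    rw [h1, Finset.mul_sum]
    exact Finset.sum_congr rfl fun i _ => by rw [hab i, C_mul]; ring
  rw [e1, e2]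
  exact mul_dvd_mul_left _ (dvd_pow_self _ (pow_ne_zero _ Fintype.card_ne_zero))

end Pool.Agent.Lib.MP_fe1391_co.Thick51
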