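import Pool.Agent.Lib.MP_fe1391_co.Thick51.Pal

/-!
# The half degree theorem, for arrays
-/

set_option autoImplicit false

namespace Pool.Agent.Lib.MP_fe1391_co.Thick51

open MvPolynomial Pool.Agent.Lib.MP_fe1391_co.Tame

universe u

variable {K : Type u} [Field K] {ℓ : ℕ} {r : ℕ}

theorem un_fin51 {ι : Type*} [Fintype ι] (e : ι → ℕ) (M : ℕ) (hM : ∀ i, e i ≤ M) :
    Un51 (cf51 (∏ i, geo51 (e i))) ((∑ i, e i : ℕ) : ℤ) M :=
  un_prod51 e Finset.univ M fun i _ => hM i

theorem zero_of_big51 {G : ℤ → ℤ} {σ M : ℤ} (h : Un51 G σ M) {m : ℤ} (hm : σ < m) : G m = 0 := by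
  rw [← h.sym, h.neg _ (by omega)]

/-- corank one, after the numerical part -/
theorem half_last51 {q k : ℕ} {B : Finset (Fin (q + 1) → K)} (hB : Tame.Norm B) {d : Fin q → ℕ}
    {θ : Fin q → Fin (q + 1) → S K (q + 1)} (hF : FU51 B d θ (k : ℤ)) (hdk : ∀ i, d i ≤ k)
    (hind : Ind51 θ) (hs : ∑ i, d i ≤ k) (hP : PF51 B) :
    Module.Free (S K (q + 1)) (LogA (S K (q + 1)) B 1) := by
  classical
  by_cases hsp : Sp51 B θ
  · exact free51 hF.log hsp hind
  have hex : ∃ m : ℕ, ∃ v : Fin (q + 1) → S K (q + 1), v ∈ DV51 B m ∧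
      ∀ c : Fin q → S K (q + 1), ¬ ∀ j, v j = ∑ i, c i * θ i j := by
    by_contra hcon
    push Not at hcon
    apply hsp
    exact sp_of_homog51 fun m v hv => hcon m v hv
  obtain ⟨v, hv, hv'⟩ := Nat.find_spec hex
  have hmin : ∀ m < Nat.find hex, ∀ v : Fin (q + 1) → S K (q + 1), v ∈ DV51 B m →
      ∃ c : Fin q → S K (q + 1), ∀ j, v j = ∑ i, c i * θ i j := by
    intro m hm v hv
    have := Nat.find_min hex hm
    by_contra hcon
    push Not at hcon
    exact this ⟨v, hv, fun c => by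
      intro h
      obtain ⟨j, hj⟩ := hcon c
      exact hj (h j)⟩
  have hk : k < Nat.find hex := by
    by_contra hle
    obtain ⟨c, -, hc⟩ := hF.gen _ (by omega) v hv.1 hv.2
    exact hv' c hc
  refine ext51 hB hF.hom hF.log hind (fun i => (hdk i).trans hk.le) hmin hv ?_ hP
  intro y hy c hc
  obtain ⟨e, he⟩ := sat51 hB hF (by exact_mod_cast hs) hv.1 y hy c hc
  exact hv' e he

theorem halfThm51 (hℓ : 1 ≤ ℓ) {B : Finset (Fin ℓ → K)} (hB : Tame.Norm B) {k : ℕ} {d : Fin r → ℕ}
    {θ : Fin r → Fin ℓ → S K ℓ} (hF : FU51 B d θ (k : ℤ)) (hdk : ∀ i, d i ≤ k)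
    (hind : Ind51 θ) {f : Polynomial ℤ} (hfr : f.reverse = f)
    (hfd : f.natDegree ≤ 2 * k + 1) (hfP : (f : PowerSeries ℤ) = PS51 B) :
    Module.Free (S K ℓ) (LogA (S K ℓ) B 1) := by
  have hr := le_rank51 hind
  have hab : cf51 (PS51 B) ((f.natDegree : ℤ) - (k + 1)) = cf51 (PS51 B) (k + 1) := by
    rw [← hfP, pal_cf51 hfr]
  rcases lt_or_eq_of_le hr with hlt | rfl
  · -- fewer than `ℓ` fields
    have hcmp : ∀ L, k + 1 ≤ L → ∀ m : ℤ, m ≤ k + 1 → cf51 (PS51 B) m =
        cf51 (∏ x : Fin r ⊕ Fin (ℓ - r), geo51 (Sum.elim d (fun _ => L) x)) m := fun L hL m hm =>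
      cmp51 hℓ hB hF _ (by simp; omega) (prod_sum51 d (ℓ - r) L hL) m hm
    have hUn : ∀ L, k + 1 ≤ L → Un51 (cf51 (∏ x : Fin r ⊕ Fin (ℓ - r),
        geo51 (Sum.elim d (fun _ => L) x)))
        ((∑ i, d i + (ℓ - r) * L : ℕ) : ℤ) L := by
      intro L hL
      have h1 := un_fin51 (Sum.elim d (fun _ : Fin (ℓ - r) => L)) L (by
        rintro (i | i)
        · exact (hdk i).trans (by omega)
        · exact le_rfl)
      rw [Fintype.sum_sum_type] at h1
      simpa using h1
    have h1 := hUn (2 * k + 2) (by omega)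
    rw [hcmp (2 * k + 2) (by omega) _ (by omega), hcmp (2 * k + 2) (by omega) _ le_rfl] at hab
    obtain ⟨n, hn⟩ : ∃ n, ℓ - r = n + 1 := ⟨ℓ - r - 1, by omega⟩
    have hσ : ((∑ i, d i + (ℓ - r) * (2 * k + 2) : ℕ) : ℤ) =
        (∑ i, d i : ℕ) + n * (2 * k + 2) + (2 * k + 2) := by
      rw [hn]
      push_cast
      ring
    have hn0 : (0 : ℤ) ≤ n * (2 * k + 2) := by positivity
    have hs0 : (0 : ℤ) ≤ (∑ i, d i : ℕ) := by positivity
    rcases lt_or_ge ((f.natDegree : ℤ) - (k + 1)) 0 with ha | ha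
    · exfalso
      rw [h1.neg _ ha] at hab
      have h2 := h1.pos (k + 1) (by omega) (by rw [hσ]; omega)
      omega
    · by_cases hc : (f.natDegree : ℤ) - (k + 1) + ((2 * k + 2 : ℕ) : ℤ) <
          ((∑ i, d i + (ℓ - r) * (2 * k + 2) : ℕ) : ℤ)
      · exfalso
        have h2 := h1.strict ((f.natDegree : ℤ) - (k + 1)) (k + 1) ha (by omega)
          (by rw [hσ]; omega) hc
        omega
      · have e9 : ((2 * k + 2 : ℕ) : ℤ) = 2 * k + 2 := by push_cast; ring
        rw [hσ, e9] at hc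
        have hn1 : n = 0 := by
          by_contra hne
          have : (1 : ℤ) * (2 * k + 2) ≤ n * (2 * k + 2) := by
            apply mul_le_mul_of_nonneg_right _ (by positivity)
            omega
          omega
        obtain rfl : ℓ = r + 1 := by omega
        have hNs : ∑ i, d i + (k + 1) ≤ f.natDegree := by omega
        obtain ⟨L, hL⟩ := Nat.exists_eq_add_of_le hNs
        have hL2 : f.natDegree = ∑ i, d i + (k + 1 + L) := by omega
        have h3 := hUn (k + 1 + L) (by omega)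
        have h4 : ((∑ i, d i + (r + 1 - r) * (k + 1 + L) : ℕ) : ℤ) = f.natDegree := by
          rw [hL2]
          have : r + 1 - r = 1 := by omega
          rw [this, one_mul]
        rw [h4] at h3
        have h5 := eq_of_half51 hfr (fun m => h3.sym m) hfd
          (fun m hm => by rw [hfP]; exact hcmp _ (by omega) m hm)
        have hP : PF51 B := pf_of51 _ (by simp) (hfP.symm.trans h5)
        exact half_last51 hB hF hdk hind (by omega) hP
  · -- `ℓ` fields
    by_cases hs : ∑ i, d i ≤ k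
    · exact top51 hB hF (by exact_mod_cast hs)
    push Not at hs
    have hcmp : ∀ m : ℤ, m ≤ k + 1 → cf51 (PS51 B) m = cf51 (∏ x, geo51 (d x)) m := fun m hm =>
      cmp51 hℓ hB hF d (by simp) (by simp) m hm
    have h1 := un_fin51 d k hdk
    rw [hcmp _ (by omega), hcmp _ le_rfl] at hab
    rcases lt_or_ge ((f.natDegree : ℤ) - (k + 1)) 0 with ha | ha
    · exfalso
      rw [h1.neg _ ha] at hab
      have h2 := h1.pos (k + 1) (by omega) (by omega)
      omega
    · rcases lt_trichotomy f.natDegree (∑ i, d i) with hc | hc | hc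
      · exfalso
        have h2 := h1.strict ((f.natDegree : ℤ) - (k + 1)) (k + 1) ha (by omega)
          (by omega) (by omega)
        omega
      · have h5 := eq_of_half51 hfr (Q := ∏ x, geo51 (d x))
          (fun m => by rw [hc]; exact h1.sym m) hfd (fun m hm => by rw [hfP]; exact hcmp m hm)
        have hP : PF51 B := ⟨d, hfP.symm.trans h5⟩
        refine free51 hF.log (partB51 hℓ hB hF.hom hF.log hind (fun m v hv hi => ?_) hP) hind
        obtain ⟨i, hi⟩ := hi
        obtain ⟨c, -, hc⟩ := hF.gen (m : ℤ) (by have := hdk i; omega) v hv.1 hv.2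
        exact ⟨c, hc⟩
      · exfalso
        have h2 := h1.strict (((∑ i, d i : ℕ) : ℤ) - (k + 1))
          (((∑ i, d i : ℕ) : ℤ) - ((f.natDegree : ℤ) - (k + 1))) (by omega) (by omega)
          (by omega) (by omega)
        rw [h1.sym, h1.sym] at h2
        omega

end Pool.Agent.Lib.MP_fe1391_co.Thick51
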