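import Pool.Agent.Lib.MP_fe1391_co.Thick51.Sat
import Pool.Agent.Lib.MP_fe1391_co.Thick51.Cf

/-!
# Palindromic Solomon-Terao polynomials and free submodules of `D(A)`
-/

set_option autoImplicit false

namespace Pool.Agent.Lib.MP_fe1391_co.Thick51

open MvPolynomial Pool.Agent.Lib.MP_fe1391_co.Tame

universe u

variable {K : Type u} [Field K] {ℓ : ℕ} {r : ℕ}

/-! ### Saito's criterion -/

theorem vecMul_eq51 (θ : Fin ℓ → Fin ℓ → S K ℓ) (c : Fin ℓ → S K ℓ) (j : Fin ℓ) :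
    Matrix.vecMul c (Matrix.of θ) j = ∑ i, c i * θ i j := rfl

theorem ind_of_det51 {θ : Fin ℓ → Fin ℓ → S K ℓ} (h : (Matrix.of θ).det ≠ 0) : Ind51 θ := by
  intro c hc i
  have h1 : Matrix.vecMul c (Matrix.of θ) = 0 := by
    funext j
    rw [vecMul_eq51]
    exact hc j
  exact congrFun (Matrix.eq_zero_of_vecMul_eq_zero h h1) i

theorem sp_of_det51 {B : Finset (Fin ℓ → K)} (hB : Tame.Norm B) {θ : Fin ℓ → Fin ℓ → S K ℓ}
    (hlog : ∀ i, Saito.IsLog B (θ i)) {c : K} (hc : c ≠ 0)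
    (hdet : (Matrix.of θ).det = C c * Qof B) : Sp51 B θ := by
  classical
  intro v hv
  have h1 : ∀ i, Qof B ∣ ((Matrix.of θ).updateRow i v).det := by
    intro i
    apply Saito.Q_dvd_det hB
    intro x
    rcases eq_or_ne x i with rfl | hx
    · rw [Matrix.updateRow_self]
      exact hv
    · rw [Matrix.updateRow_ne hx]
      exact hlog x
  choose g hg using h1
  refine ⟨fun i => C c⁻¹ * g i, fun j => ?_⟩
  have h2 := congrFun (Matrix.mulVec_cramer (Matrix.of θ).transpose v) j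
  rw [Pi.smul_apply, smul_eq_mul, Matrix.det_transpose, hdet] at h2
  have h3 : (Matrix.of θ).transpose.mulVec ((Matrix.of θ).transpose.cramer v) j =
      ∑ i, θ i j * (Qof B * g i) := by
    change ∑ i, θ i j * (Matrix.of θ).transpose.cramer v i = _
    refine Finset.sum_congr rfl fun i _ => ?_
    rw [Matrix.cramer_transpose_apply, hg i]
  rw [h3] at h2
  apply mul_left_cancel₀ (mul_ne_zero (C_ne_zero.2 hc) (Pair.Q_ne_zero hB))
  rw [← h2, Finset.mul_sum]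
  refine Finset.sum_congr rfl fun i _ => ?_
  have h4 : (C c : S K ℓ) * C c⁻¹ = 1 := by rw [← C_mul, mul_inv_cancel₀ hc, C_1]
  calc θ i j * (Qof B * g i) = (C c * C c⁻¹) * (θ i j * (Qof B * g i)) := by rw [h4, one_mul]
    _ = _ := by ring

theorem Q_gr51 (B : Finset (Fin ℓ → K)) : Qof B ∈ grS (K := K) (ℓ := ℓ) (B.card : ℤ) := by
  have h := grS_prod51 (K := K) B (fun b => lin b) (fun _ => (1 : ℤ)) fun b _ => lin_grS51 b
  rw [Finset.sum_const, nsmul_one] at h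
  exact_mod_cast h

theorem fm_id51 (θ : Fin ℓ → Fin ℓ → S K ℓ) : fm51 θ id = (Matrix.of θ).det := by
  rw [← Matrix.det_transpose]
  rfl

theorem fm_zero51 {θ : Fin ℓ → Fin ℓ → S K ℓ} (h : (Matrix.of θ).det = 0) (w : Fin ℓ → Fin ℓ) :
    fm51 θ w = 0 := by
  classical
  have h1 : (Matrix.of fun i j => θ j (w i) : Matrix (Fin ℓ) (Fin ℓ) (S K ℓ)) =
      (Matrix.of fun i k => if w i = k then (1 : S K ℓ) else 0) * (Matrix.of θ).transpose := by
    ext i j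
    rw [Matrix.mul_apply, Finset.sum_eq_single (w i)]
    · simp
    · intro k _ hk
      rw [Matrix.of_apply, if_neg (Ne.symm hk), zero_mul]
    · intro hk
      exact absurd (Finset.mem_univ _) hk
  rw [fm51, h1, Matrix.det_mul, Matrix.det_transpose, h, mul_zero]

theorem card_le51 {B : Finset (Fin ℓ → K)} (hB : Tame.Norm B) {d : Fin ℓ → ℕ}
    {θ : Fin ℓ → Fin ℓ → S K ℓ} (hhom : ∀ i j, (θ i j).IsHomogeneous (d i))
    (hlog : ∀ i, Saito.IsLog B (θ i)) (hdet : (Matrix.of θ).det ≠ 0) :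
    ∃ g : S K ℓ, (Matrix.of θ).det = Qof B * g ∧
      g ∈ grS (K := K) (ℓ := ℓ) (((∑ i, d i : ℕ) : ℤ) - B.card) ∧ B.card ≤ ∑ i, d i := by
  obtain ⟨g, hg⟩ := Saito.Q_dvd_det hB (θ := Matrix.of θ) hlog
  have h1 : Qof B * g ∈ grS (K := K) (ℓ := ℓ) ((∑ i, d i : ℕ) : ℤ) := by
    rw [← hg, ← fm_id51]
    exact grS_of_hom51 (fm_hom51 hhom id)
  have h2 := grS_div51 (Pair.Q_ne_zero hB) (Q_gr51 B) h1
  refine ⟨g, hg, h2, ?_⟩
  by_contra h3
  have h4 := grS_neg51 (by omega) h2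
  exact hdet (by rw [hg, h4, mul_zero])

/-- the volume multiderivation -/
theorem vol_mem51 (B : Finset (Fin ℓ → K)) :
    (Qof B • Pair.vol (S K ℓ) ℓ) ∈ LogA (S K ℓ) B ℓ := by
  rw [Trans.mem_logA]
  have h := Pair.isAlt_vol (A := S K ℓ) ℓ
  refine ⟨⟨fun w hw => ?_, fun w i j hij => ?_⟩, fun b hb w j => ?_⟩
  · rw [Pi.smul_apply, h.nz w hw, smul_zero]
  · rw [Pi.smul_apply, Pi.smul_apply, h.sw w i j hij, smul_neg]
  · refine Finset.dvd_sum fun i _ => Dvd.dvd.mul_left ?_ _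
    rw [Pi.smul_apply, smul_eq_mul]
    exact Dvd.dvd.mul_right (Finset.dvd_prod_of_mem lin hb) _

theorem vol_gr51 (w : Fin ℓ → Fin ℓ) : Pair.vol (S K ℓ) ℓ w ∈ grS (K := K) (ℓ := ℓ) 0 := by
  classical
  have h : Pair.vol (S K ℓ) ℓ w =
      (Matrix.of fun i j => (Pi.single (w i) (1 : S K ℓ) : Fin ℓ → S K ℓ) j).det := rfl
  rw [h, Matrix.det_apply]
  refine Submodule.sum_mem _ fun σ _ => ?_
  have h1 : ∏ i, (Matrix.of fun i j => (Pi.single (w i) (1 : S K ℓ) : Fin ℓ → S K ℓ) j) (σ i) i ∈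
      grS (K := K) (ℓ := ℓ) 0 := by
    have := grS_prod51 (K := K) Finset.univ (fun i => (Matrix.of fun i j =>
      (Pi.single (w i) (1 : S K ℓ) : Fin ℓ → S K ℓ) j) (σ i) i) (fun _ => (0 : ℤ)) fun i _ => by
        rw [Matrix.of_apply, Pi.single_apply]
        split_ifs
        · exact grS_one51
        · exact Submodule.zero_mem _
    simpa using this
  rcases Int.units_eq_one_or (Equiv.Perm.sign σ) with h | h
  · rw [h, one_smul]
    exact h1
  · rw [h, Units.neg_smul, one_smul]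
    exact Submodule.neg_mem _ h1

theorem dm_top51 {B : Finset (Fin ℓ → K)} (hB : Tame.Norm B) : 0 < dm51 B ℓ (B.card : ℤ) := by
  unfold dm51
  have hfin := Top.finite_Hm (Grad.thmS K ℓ) (fun _ : (Fin ℓ → Fin ℓ) => (0 : ℤ)) (B.card : ℤ)
  have hfin3 : FiniteDimensional K (Hm grS (fun _ : (Fin ℓ → Fin ℓ) => 0) (B.card : ℤ) ⊓
    (LogA (S K ℓ) B ℓ).restrictScalars K : Submodule K ((Fin ℓ → Fin ℓ) → S K ℓ)) :=
    Submodule.finiteDimensional_of_le inf_le_left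
  rw [Module.finrank_pos_iff]
  refine ⟨⟨Qof B • Pair.vol (S K ℓ) ℓ, ?_, vol_mem51 B⟩, 0, fun h => ?_⟩
  · intro w
    have := grS_mul51 (Q_gr51 B) (vol_gr51 (K := K) w)
    rw [add_zero] at this
    rw [sub_zero]
    exact this
  · have h1 := congrFun (congrArg Subtype.val h) id
    have h2 : Qof B * Pair.vol (S K ℓ) ℓ id = 0 := h1
    rw [Pair.vol_id, mul_one] at h2
    exact Pair.Q_ne_zero hB h2

/-- `ℓ` fields which generate in degrees up to the sum of their degrees -/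
theorem top51 {B : Finset (Fin ℓ → K)} (hB : Tame.Norm B) {d : Fin ℓ → ℕ}
    {θ : Fin ℓ → Fin ℓ → S K ℓ} {k : ℤ} (hF : FU51 B d θ k)
    (hs : ((∑ i, d i : ℕ) : ℤ) ≤ k) : Module.Free (S K ℓ) (LogA (S K ℓ) B 1) := by
  have hdet : (Matrix.of θ).det ≠ 0 := by
    intro h0
    obtain ⟨w, hw⟩ := fm_ne51 hF hs
    exact hw (fm_zero51 h0 w)
  obtain ⟨g, hg1, hg2, hg3⟩ := card_le51 hB hF.hom hF.log hdet
  have h1 := finrank51 hB hF ℓ (m := (B.card : ℤ)) (by omega)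
  have h2 := dm_top51 hB
  unfold dm51 at h2
  rw [h1] at h2
  have h3 : B.card = ∑ i, d i := by
    apply le_antisymm hg3
    by_contra hlt
    have h4 : ∑ I : Fin ℓ ↪o Fin ℓ, Module.finrank K
        (grS (K := K) (ℓ := ℓ) ((B.card : ℤ) - sd51 d I)) = 0 := by
      refine Finset.sum_eq_zero fun I _ => ?_
      rw [sd_all51, Grad.grS_of_neg (by omega), finrank_bot]
    rw [h4] at h2
    exact lt_irrefl _ h2
  rw [← h3, sub_self] at hg2
  have hg2' := hom_of_grS51 (n := 0) (by exact_mod_cast hg2)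
  obtain ⟨c, hc⟩ : ∃ c, g = C c := ⟨_, totalDegree_eq_zero_iff_eq_C.1 (by
    by_cases hg0 : g = 0
    · rw [hg0, totalDegree_zero]
    · exact hg2'.totalDegree hg0)⟩
  have hc0 : c ≠ 0 := by
    rintro rfl
    exact hdet (by rw [hg1, hc, C_0, mul_zero])
  exact free51 hF.log (sp_of_det51 hB hF.log hc0 (by rw [hg1, hc, mul_comm])) (ind_of_det51 hdet)

/-! ### Comparison of coefficients -/

theorem geo_mul51 (e : ℕ) : geo51 e * (1 - PowerSeries.X) = 1 - PowerSeries.X ^ (e + 1) := by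
  unfold geo51
  rw [geom_sum_mul_neg]

theorem cmp51 (hℓ : 1 ≤ ℓ) {B : Finset (Fin ℓ → K)} (hB : Tame.Norm B) {d : Fin r → ℕ}
    {θ : Fin r → Fin ℓ → S K ℓ} {k : ℕ} (hF : FU51 B d θ (k : ℤ)) {ι : Type*} [Fintype ι]
    (e : ι → ℕ) (hcard : Fintype.card ι = ℓ)
    (hdiv : (PowerSeries.X : PowerSeries ℤ) ^ (k + 2) ∣
      ∏ x, (1 - PowerSeries.X ^ (e x + 1)) - ∏ i, (1 - PowerSeries.X ^ (d i + 1))) (m : ℤ)
    (hm : m ≤ k + 1) : cf51 (PS51 B) m = cf51 (∏ x, geo51 (e x)) m := by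
  have hF' : FU51 B d θ (((k + 1 : ℕ) : ℤ) - 1) := by
    have e1 : ((k + 1 : ℕ) : ℤ) - 1 = k := by push_cast; ring
    rw [e1]
    exact hF
  obtain ⟨G, hG⟩ := ser51 hℓ hB hF'
  obtain ⟨U, hU⟩ := hdiv
  have hg : (∏ x, geo51 (e x)) * (1 - PowerSeries.X) ^ ℓ =
      ∏ x, (1 - PowerSeries.X ^ (e x + 1)) := by
    have e4 : (1 - PowerSeries.X : PowerSeries ℤ) ^ ℓ = ∏ _x : ι, (1 - PowerSeries.X) := by
      rw [Finset.prod_const, Finset.card_univ, hcard]
    rw [e4, ← Finset.prod_mul_distrib]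
    exact Finset.prod_congr rfl fun x _ => geo_mul51 _
  have hHS : HS51 K ℓ * (1 - PowerSeries.X) ^ ℓ = 1 := Grad.thmHS K ℓ
  have h1 : (PowerSeries.X : PowerSeries ℤ) ^ (k + 2) ∣ PS51 B - ∏ x, geo51 (e x) := by
    have h2 : PS51 B - ∏ x, geo51 (e x) = (PS51 B * (1 - PowerSeries.X) ^ ℓ -
        (∏ x, geo51 (e x)) * (1 - PowerSeries.X) ^ ℓ) * HS51 K ℓ := by
      rw [← sub_mul, mul_assoc, mul_comm ((1 - PowerSeries.X : PowerSeries ℤ) ^ ℓ), hHS, mul_one]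
    rw [h2, hg, hG]
    refine Dvd.dvd.mul_right ?_ _
    have h3 : ∏ i, (1 - PowerSeries.X ^ (d i + 1)) - PowerSeries.C (del51 B d (k + 1)) *
        PowerSeries.X ^ (k + 1 + 1) + PowerSeries.X ^ (k + 1 + 2) * G -
        ∏ x, (1 - PowerSeries.X ^ (e x + 1)) =
        PowerSeries.X ^ (k + 2) * (- U - PowerSeries.C (del51 B d (k + 1)) +
          PowerSeries.X * G) := by
      have h4 : ∏ x, (1 - PowerSeries.X ^ (e x + 1) : PowerSeries ℤ) =
          ∏ i, (1 - PowerSeries.X ^ (d i + 1)) + PowerSeries.X ^ (k + 2) * U := by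
        linear_combination hU
      rw [h4]
      ring
    rw [h3]
    exact Dvd.intro _ rfl
  rcases lt_or_ge m 0 with hm0 | hm0
  · rw [cf_neg51 _ hm0, cf_neg51 _ hm0]
  · obtain ⟨n, rfl⟩ := Int.eq_ofNat_of_zero_le hm0
    rw [cf_nat51, cf_nat51]
    have h2 := PowerSeries.X_pow_dvd_iff.1 h1 n (by omega)
    rw [map_sub] at h2
    exact sub_eq_zero.1 h2

theorem pf_of51 {B : Finset (Fin ℓ → K)} {ι : Type*} [Fintype ι] (e : ι → ℕ)
    (hcard : Fintype.card ι = ℓ) (h : PS51 B = ∏ x, geo51 (e x)) : PF51 B := by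
  let E : ι ≃ Fin ℓ := Fintype.equivFinOfCardEq hcard
  refine ⟨fun i => e (E.symm i), ?_⟩
  rw [h]
  exact (Equiv.prod_comp E.symm fun x => geo51 (e x)).symm

theorem prod_sum51 (d : Fin r → ℕ) (n L : ℕ) {k : ℕ} (hL : k + 1 ≤ L) :
    (PowerSeries.X : PowerSeries ℤ) ^ (k + 2) ∣
      ∏ x : Fin r ⊕ Fin n, (1 - PowerSeries.X ^ (Sum.elim d (fun _ => L) x + 1)) -
        ∏ i, (1 - PowerSeries.X ^ (d i + 1)) := by
  rw [Fintype.prod_sum_type]
  simp only [Sum.elim_inl, Sum.elim_inr, Finset.prod_const, Finset.card_univ, Fintype.card_fin]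
  have h1 : (PowerSeries.X : PowerSeries ℤ) ^ (L + 1) ∣
      (1 - PowerSeries.X ^ (L + 1)) ^ n - 1 := by
    have h2 := sub_dvd_pow_sub_pow (1 - PowerSeries.X ^ (L + 1) : PowerSeries ℤ) 1 n
    rw [one_pow] at h2
    refine Dvd.dvd.trans ?_ h2
    exact ⟨-1, by ring⟩
  have h3 : (∏ i, (1 - PowerSeries.X ^ (d i + 1) : PowerSeries ℤ)) *
      (1 - PowerSeries.X ^ (L + 1)) ^ n - ∏ i, (1 - PowerSeries.X ^ (d i + 1)) =
      (∏ i, (1 - PowerSeries.X ^ (d i + 1) : PowerSeries ℤ)) *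
        ((1 - PowerSeries.X ^ (L + 1)) ^ n - 1) := by
    ring
  rw [h3]
  exact Dvd.dvd.mul_left ((pow_dvd_pow _ (by omega)).trans h1) _

theorem le_rank51 {θ : Fin r → Fin ℓ → S K ℓ} (hind : Ind51 θ) : r ≤ ℓ := by
  have h1 : LinearIndependent (S K ℓ) θ := by
    rw [Fintype.linearIndependent_iff]
    intro c hc
    apply hind
    intro j
    have := congrFun hc j
    rw [Finset.sum_apply] at this
    exact this
  have h2 := h1.fintype_card_le_finrank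
  simpa using h2

end Pool.Agent.Lib.MP_fe1391_co.Thick51
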