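import Pool.Agent.Lib.MP_fe1391_co.Thick51.Tr

/-!
# Saturation, and extension of a free submodule of corank one
-/

set_option autoImplicit false

namespace Pool.Agent.Lib.MP_fe1391_co.Thick51

open MvPolynomial Pool.Agent.Lib.MP_fe1391_co.Tame

universe u

variable {K : Type u} [Field K] {ℓ : ℕ} {r : ℕ}

/-- the full minors -/
noncomputable def fm51 (θ : Fin r → Fin ℓ → S K ℓ) (w : Fin r → Fin ℓ) : S K ℓ :=
  (Matrix.of fun i j => θ j (w i)).det

theorem emb_unique51 (I : Fin r ↪o Fin r) (i : Fin r) : I i = i := by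
  have h : I = (OrderIso.refl (Fin r)).toOrderEmbedding := by
    have e1 : StrictMono I := I.strictMono
    have := (Finite.injective_iff_bijective.1 I.injective).2
    ext x
    have h2 : I = ((StrictMono.orderIsoOfSurjective I e1 this : Fin r ≃o Fin r) :
        Fin r ↪o Fin r) := by
      ext y
      rfl
    rw [Subsingleton.elim (StrictMono.orderIsoOfSurjective I e1 this) (OrderIso.refl (Fin r))] at h2
    rw [h2]
    rfl
  rw [h]
  rfl

theorem fm_eq51 (θ : Fin r → Fin ℓ → S K ℓ) (I : Fin r ↪o Fin r) (w : Fin r → Fin ℓ) :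
    mn51 θ I w = fm51 θ w := by
  unfold mn51 fm51
  congr 1
  ext i j
  rw [Matrix.of_apply, Matrix.of_apply, emb_unique51]

theorem sd_all51 (d : Fin r → ℕ) (I : Fin r ↪o Fin r) : sd51 d I = ((∑ i, d i : ℕ) : ℤ) := by
  unfold sd51
  push_cast
  exact Finset.sum_congr rfl fun i _ => by rw [emb_unique51]

/-- Cramer: replacing a field by a combination -/
theorem fm_update51 (θ : Fin r → Fin ℓ → S K ℓ) (a : Fin r) (u : Fin ℓ → S K ℓ) (y : S K ℓ)
    (c : Fin r → S K ℓ) (h : ∀ j, y * u j = ∑ i, c i * θ i j) (w : Fin r → Fin ℓ) :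
    y * fm51 (Function.update θ a u) w = c a * fm51 θ w := by
  classical
  let A : Matrix (Fin r) (Fin r) (S K ℓ) := Matrix.of fun i j => θ j (w i)
  have h1 : (Matrix.of fun i j => Function.update θ a u j (w i) : Matrix (Fin r) (Fin r) (S K ℓ)) =
      A.updateCol a (fun i => u (w i)) := by
    ext i j
    rcases eq_or_ne j a with rfl | hj
    · rw [Matrix.updateCol_self, Matrix.of_apply, Function.update_self]
    · rw [Matrix.updateCol_ne hj, Matrix.of_apply, Function.update_of_ne hj]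
      rfl
  have h2 : y * (A.updateCol a (fun i => u (w i))).det =
      (A.updateCol a (y • fun i => u (w i))).det := (Matrix.det_updateCol_smul _ _ _ _).symm
  have h3 : (y • fun i => u (w i)) = A.mulVec c := by
    funext i
    rw [Pi.smul_apply, smul_eq_mul, h]
    change _ = ∑ j, θ j (w i) * c j
    exact Finset.sum_congr rfl fun j _ => mul_comm _ _
  have h4 : (A.updateCol a (A.mulVec c)).det = c a * A.det := by
    rw [← Matrix.cramer_apply, Matrix.cramer_eq_adjugate_mulVec, Matrix.mulVec_mulVec,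
      Matrix.adjugate_mul, Matrix.smul_mulVec, Matrix.one_mulVec, Pi.smul_apply, smul_eq_mul,
      mul_comm]
  unfold fm51
  rw [h1, h2, h3, h4]

/-- the full minors do not vanish identically -/
theorem fm_ne51 {B : Finset (Fin ℓ → K)} {d : Fin r → ℕ} {θ : Fin r → Fin ℓ → S K ℓ} {k : ℤ}
    (hF : FU51 B d θ k) (hs : ((∑ i, d i : ℕ) : ℤ) ≤ k) : ∃ w, fm51 θ w ≠ 0 := by
  by_contra hcon
  push Not at hcon
  have h1 := ev_inj51 hF.hom hF.inj r ((∑ i, d i : ℕ) : ℤ) hs
    (arr51 fun _ : Fin r ↪o Fin r => (1 : S K ℓ)) (arr_gr51 fun I => by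
      rw [sd_all51, sub_self]
      exact grS_one51) (fun w => by
      rw [ev_minors51 θ _ (isAlt_arr51 _)]
      refine Finset.sum_eq_zero fun I _ => ?_
      rw [fm_eq51, hcon w, zero_mul])
  have h2 := h1 (OrderIso.refl (Fin r)).toOrderEmbedding
  rw [arr_self51] at h2
  exact one_ne_zero h2

theorem fm_hom51 {d : Fin r → ℕ} {θ : Fin r → Fin ℓ → S K ℓ}
    (hθ : ∀ i j, (θ i j).IsHomogeneous (d i)) (w : Fin r → Fin ℓ) :
    (fm51 θ w).IsHomogeneous (∑ i, d i) := by
  have h := mn_gr51 hθ w (OrderIso.refl (Fin r)).toOrderEmbedding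
  rw [sub_zero, sd_all51, fm_eq51] at h
  exact hom_of_grS51 h

/-- a logarithmic array of total degree less than `s` vanishes -/
theorem small_zero51 {B : Finset (Fin ℓ → K)} (hB : Tame.Norm B) {d : Fin r → ℕ}
    {θ : Fin r → Fin ℓ → S K ℓ} {k : ℤ} (hF : FU51 B d θ k)
    (hs : ((∑ i, d i : ℕ) : ℤ) ≤ k + 1) {ξ : (Fin r → Fin ℓ) → S K ℓ}
    (hξ : ξ ∈ LogA (S K ℓ) B r)
    (hdeg : ∀ w, ξ w ≠ 0 → (ξ w).totalDegree < ∑ i, d i) : ξ = 0 := by
  obtain ⟨s, c, hc, hξc⟩ := GrLog.thm K ℓ B r ξ hξ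
  have hcm : ∀ m ∈ s, ∀ w, c m w ∈ grS (K := K) (ℓ := ℓ) m := by
    intro m hm w
    have : c m w ∈ grS (K := K) (ℓ := ℓ) (m - 0) := (hc m hm).2 w
    rwa [sub_zero] at this
  have h0 : ∀ m ∈ s, ∀ w, c m w = 0 := by
    intro m hm w
    rcases lt_or_ge m ((∑ i, d i : ℕ) : ℤ) with h1 | h1
    · obtain ⟨t, ht1, ht2, ht3⟩ := exists_tensor51 hB hF r m (by omega) (c m) (hc m hm).1 (hcm m hm)
      rw [ht3 w, ev_minors51 θ t ht2]
      refine Finset.sum_eq_zero fun I _ => ?_
      have h2 := ht1 I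
      rw [sd_all51] at h2
      rw [grS_neg51 (by omega) h2, mul_zero]
    · by_contra hne
      obtain ⟨μ, hμ⟩ := MvPolynomial.ne_zero_iff.1 hne
      have hwt : ((Finsupp.weight (1 : Fin ℓ → ℕ) μ : ℕ) : ℤ) = m := mem_grS51.1 (hcm m hm w) μ hμ
      have hco : coeff μ (ξ w) = coeff μ (c m w) := by
        rw [hξc, Finset.sum_apply, coeff_sum, Finset.sum_eq_single m]
        · intro m' hm' hne'
          by_contra h3
          exact hne' ((mem_grS51.1 (hcm m' hm' w) μ h3).symm.trans hwt)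
        · intro h3
          exact absurd hm h3
      have hξw : ξ w ≠ 0 := by
        intro h3
        rw [h3, coeff_zero] at hco
        exact hμ hco.symm
      have h4 := hdeg w hξw
      have h5 : μ ∈ (ξ w).support := by
        rw [mem_support_iff, hco]
        exact hμ
      have h6 := le_totalDegree h5
      have h7 : (μ.sum fun _ e => e) = Finsupp.weight (1 : Fin ℓ → ℕ) μ := by
        rw [Finsupp.weight_apply]
        simp
      rw [h7] at h6
      omega
  rw [hξc]
  refine Finset.sum_eq_zero fun m hm => funext fun w => h0 m hm w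

/-- a prime dividing a combination (as a logarithmic field) divides the coefficients -/
theorem prime_step51 {B : Finset (Fin ℓ → K)} (hB : Tame.Norm B) {d : Fin r → ℕ}
    {θ : Fin r → Fin ℓ → S K ℓ} {k : ℤ} (hF : FU51 B d θ k)
    (hs : ((∑ i, d i : ℕ) : ℤ) ≤ k) {p : S K ℓ} (hp : Prime p) {u : Fin ℓ → S K ℓ}
    (hu : Saito.IsLog B u) {c : Fin r → S K ℓ} (h : ∀ j, p * u j = ∑ i, c i * θ i j) (a : Fin r) :
    p ∣ c a := by
  classical
  by_contra hpc
  have h1 := fun w => fm_update51 θ a u p c h w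
  have h2 : ∀ w, p ∣ fm51 θ w := by
    intro w
    have : p ∣ c a * fm51 θ w := ⟨_, (h1 w).symm⟩
    exact (hp.dvd_or_dvd this).resolve_left hpc
  choose ξ hξ using h2
  have h3 : ∀ w, fm51 (Function.update θ a u) w = c a * ξ w := by
    intro w
    apply mul_left_cancel₀ hp.ne_zero
    rw [h1, hξ]
    ring
  have hmem : ∀ (θ' : Fin r → Fin ℓ → S K ℓ), (∀ i, Saito.IsLog B (θ' i)) →
      (fun w => fm51 θ' w) ∈ LogA (S K ℓ) B r := by
    intro θ' hθ'
    have := mn_mem51 hθ' (OrderIso.refl (Fin r)).toOrderEmbedding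
    convert this using 1
    funext w
    exact (fm_eq51 θ' _ w).symm
  have hm1 := Trans.mem_logA.1 (hmem θ hF.log)
  have hm2 := Trans.mem_logA.1 (hmem (Function.update θ a u) (fun i => by
    rcases eq_or_ne i a with rfl | hi
    · rw [Function.update_self]; exact hu
    · rw [Function.update_of_ne hi]; exact hF.log i))
  have hξmem : ξ ∈ LogA (S K ℓ) B r := by
    rw [Trans.mem_logA]
    refine ⟨⟨fun w hw => ?_, fun w i j hij => ?_⟩, fun b hb w j => ?_⟩
    · apply mul_left_cancel₀ hp.ne_zero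
      rw [← hξ, mul_zero]
      exact hm1.1.nz w hw
    · apply mul_left_cancel₀ hp.ne_zero
      rw [← hξ, mul_neg, ← hξ]
      exact hm1.1.sw w i j hij
    · have e1 : lin b ∣ p * ∑ i, C (b i) * ξ (Function.update w j i) := by
        have := hm1.2 b hb w j
        rw [Finset.mul_sum]
        simp only [hξ] at this
        convert this using 1
        exact Finset.sum_congr rfl fun i _ => by ring
      have e2 : lin b ∣ c a * ∑ i, C (b i) * ξ (Function.update w j i) := by
        have := hm2.2 b hb w j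
        rw [Finset.mul_sum]
        simp only [h3] at this
        convert this using 1
        exact Finset.sum_congr rfl fun i _ => by ring
      by_contra hnd
      have hpb := Pair.lin_prime (hB.ne b hb)
      have e3 : lin b ∣ p := (hpb.dvd_or_dvd e1).resolve_right hnd
      have e4 : lin b ∣ c a := (hpb.dvd_or_dvd e2).resolve_right hnd
      have e5 : p ∣ lin b := (hpb.associated_of_dvd hp e3).symm.dvd
      exact hpc (e5.trans e4)
  have hz : ξ = 0 := by
    refine small_zero51 hB hF (by omega) hξmem fun w hw => ?_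
    have e1 : fm51 θ w ≠ 0 := by
      rw [hξ]
      exact mul_ne_zero hp.ne_zero hw
    have e2 := (fm_hom51 hF.hom w).totalDegree e1
    have e3 : (fm51 θ w).totalDegree = p.totalDegree + (ξ w).totalDegree := by
      rw [hξ, totalDegree_mul_of_isDomain hp.ne_zero hw]
    have e4 : p.totalDegree ≠ 0 := by
      intro h0
      obtain ⟨q, hq⟩ : ∃ q, p = C q := ⟨_, totalDegree_eq_zero_iff_eq_C.1 h0⟩
      have hq0 : q ≠ 0 := by
        rintro rfl
        exact hp.ne_zero (by rw [hq, C_0])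
      exact hp.not_isUnit (by rw [hq]; exact (IsUnit.mk0 q hq0).map C)
    omega
  obtain ⟨w, hw⟩ := fm_ne51 hF hs
  apply hw
  rw [hξ, hz]
  simp

/-- saturation -/
theorem sat51 {B : Finset (Fin ℓ → K)} (hB : Tame.Norm B) {d : Fin r → ℕ}
    {θ : Fin r → Fin ℓ → S K ℓ} {k : ℤ} (hF : FU51 B d θ k)
    (hs : ((∑ i, d i : ℕ) : ℤ) ≤ k) {v : Fin ℓ → S K ℓ} (hv : Saito.IsLog B v) (y : S K ℓ) :
    y ≠ 0 → ∀ c : Fin r → S K ℓ, (∀ j, y * v j = ∑ i, c i * θ i j) →
      ∃ e : Fin r → S K ℓ, ∀ j, v j = ∑ i, e i * θ i j := by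
  induction y using UniqueFactorizationMonoid.induction_on_prime with
  | h₁ => intro h; exact absurd rfl h
  | h₂ x hx =>
    intro _ c hc
    obtain ⟨z, hz⟩ := hx.exists_left_inv
    refine ⟨fun i => z * c i, fun j => ?_⟩
    have := hc j
    calc v j = z * (x * v j) := by rw [← mul_assoc, hz, one_mul]
      _ = z * ∑ i, c i * θ i j := by rw [this]
      _ = _ := by
        rw [Finset.mul_sum]
        exact Finset.sum_congr rfl fun i _ => by ring
  | h₃ a p ha hp ih =>
    intro _ c hc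
    have h1 : ∀ i, p ∣ c i := prime_step51 hB hF hs hp (u := a • v)
      (Saito.isLog_smul a hv) (c := c) (fun j => by
        rw [← hc j, Pi.smul_apply, smul_eq_mul]
        ring)
    choose c' hc' using h1
    refine ih ha c' fun j => ?_
    apply mul_left_cancel₀ hp.ne_zero
    rw [← mul_assoc, hc j, Finset.mul_sum]
    exact Finset.sum_congr rfl fun i _ => by rw [hc' i]; ring

/-- adding one generator to a free submodule of corank one -/
theorem ext51 {q : ℕ} {B : Finset (Fin (q + 1) → K)} (hB : Tame.Norm B) {d : Fin q → ℕ}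
    {θ : Fin q → Fin (q + 1) → S K (q + 1)} (hhom : ∀ i j, (θ i j).IsHomogeneous (d i))
    (hlog : ∀ i, Saito.IsLog B (θ i)) (hind : Ind51 θ) {h : ℕ} (hdh : ∀ i, d i ≤ h)
    (hmin : ∀ m < h, ∀ v : Fin (q + 1) → S K (q + 1), v ∈ DV51 B m →
      ∃ c : Fin q → S K (q + 1), ∀ j, v j = ∑ i, c i * θ i j)
    {v : Fin (q + 1) → S K (q + 1)} (hv : v ∈ DV51 B h)
    (hsat : ∀ y : S K (q + 1), y ≠ 0 → ∀ c : Fin q → S K (q + 1),
      ¬ ∀ j, y * v j = ∑ i, c i * θ i j) (hP : PF51 B) :
    Module.Free (S K (q + 1)) (LogA (S K (q + 1)) B 1) := by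
  have hF : FU51 B d θ ((h : ℤ) - 1) := by
    refine ⟨hhom, hlog, fun m hm v hv hvm => ?_, fun m _ c _ h0 => hind c h0⟩
    rcases lt_or_ge m 0 with hm0 | hm0
    · refine ⟨0, fun i => Submodule.zero_mem _, fun j => ?_⟩
      rw [grS_neg51 hm0 (hvm j)]
      simp
    · obtain ⟨n, rfl⟩ := Int.eq_ofNat_of_zero_le hm0
      obtain ⟨c, hc⟩ := hmin n (by omega) v ⟨hv, hvm⟩
      exact homog51 hhom hvm hc
  obtain ⟨-, h2⟩ := cnt51 (by omega) hB hF hP
  have h3 : (Finset.univ.filter fun i => d i < h + 1).card = q := by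
    rw [Finset.filter_true_of_mem fun i _ => Nat.lt_succ_of_le (hdh i)]
    simp
  have hv2 : v ∉ GV51 d θ (h : ℤ) := by
    rintro ⟨c, -, hc⟩
    exact hsat 1 one_ne_zero c fun j => by rw [one_mul]; exact (congrFun hc j).symm
  obtain ⟨-, h4⟩ := dim_gen51 hhom hlog (h : ℤ) (fun c _ h0 => hind c h0) hv hv2
  rw [h3, del_cast51] at h2
  have h5 := h4 (by omega)
  -- the extended family
  let θ' : Fin (q + 1) → Fin (q + 1) → S K (q + 1) := Fin.cons v θ
  let d' : Fin (q + 1) → ℕ := Fin.cons h d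
  have hhom' : ∀ i j, (θ' i j).IsHomogeneous (d' i) := by
    intro i
    refine Fin.cases ?_ (fun i => ?_) i
    · intro j
      exact hom_of_grS51 (hv.2 j)
    · intro j
      exact hhom i j
  have hlog' : ∀ i, Saito.IsLog B (θ' i) := by
    intro i
    refine Fin.cases ?_ (fun i => ?_) i
    · exact hv.1
    · exact hlog i
  have hsum : ∀ (c : Fin (q + 1) → S K (q + 1)) j, ∑ i, c i * θ' i j =
      c 0 * v j + ∑ i, c (Fin.succ i) * θ i j := by
    intro c j
    rw [Fin.sum_univ_succ]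
    rfl
  have hind' : Ind51 θ' := by
    intro c hc
    have h6 : c 0 = 0 := by
      by_contra hne
      refine hsat (c 0) hne (fun i => - c (Fin.succ i)) fun j => ?_
      have := hc j
      rw [hsum] at this
      simp only [neg_mul, Finset.sum_neg_distrib]
      exact eq_neg_of_add_eq_zero_left this
    have h7 : ∀ i, c (Fin.succ i) = 0 := hind _ fun j => by
      have := hc j
      rwa [hsum, h6, zero_mul, zero_add] at this
    intro i
    exact Fin.cases h6 h7 i
  refine free51 hlog' (partB51 (by omega) hB hhom' hlog' hind' (fun m u hu hi => ?_) hP) hind'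
  have hmh : m ≤ h := by
    obtain ⟨i, hi⟩ := hi
    revert hi
    refine Fin.cases (fun hi => hi) (fun i hi => ?_) i
    exact le_trans hi (hdh i)
  rcases lt_or_eq_of_le hmh with hlt | rfl
  · obtain ⟨c, hc⟩ := hmin m hlt u hu
    refine ⟨Fin.cons 0 c, fun j => ?_⟩
    rw [hsum, hc j]
    simp only [Fin.cons_zero, zero_mul, zero_add, Fin.cons_succ]
  · obtain ⟨a, c, -, hc⟩ := h5 u hu
    refine ⟨Fin.cons (C a) c, fun j => ?_⟩
    have := congrFun hc j
    rw [cmb_apply51, Pi.sub_apply, Pi.smul_apply, smul_eq_C_mul] at this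
    rw [hsum]
    simp only [Fin.cons_zero, Fin.cons_succ]
    rw [this]
    ring

end Pool.Agent.Lib.MP_fe1391_co.Thick51
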