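import Pool.Agent.Lib.MP_fe1391_co.Tame.Grad

/-!
# Characteristic two: a semilinear half of multiplication by squares
-/

set_option autoImplicit false

namespace Pool.Agent.Lib.MP_fe1391_co.Thick51

open MvPolynomial Pool.Agent.Lib.MP_fe1391_co.Tame

universe u

/-- the field as a vector space over itself through the Frobenius map -/
def Fr51 (K : Type u) : Type u := K

instance frAdd51 (K : Type u) [Field K] : AddCommGroup (Fr51 K) := inferInstanceAs (AddCommGroup K)

noncomputable instance frMod51 (K : Type u) [Field K] [CharP K 2] : Module K (Fr51 K) :=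
  Module.compHom K (frobenius K 2)

theorem exists_dual51 {K : Type u} [Field K] [CharP K 2] (x : Fr51 K) (hx : x ≠ 0) :
    ∃ φ : Module.Dual K (Fr51 K), φ x ≠ 0 := by
  by_contra h
  push Not at h
  exact hx ((Module.forall_dual_apply_eq_zero_iff K x).1 h)

theorem exists_func51 {K : Type u} [Field K] [CharP K 2] {x : K} (hx : x ≠ 0) :
    ∃ φ : K → K, φ 0 = 0 ∧ (∀ y z, φ (y + z) = φ y + φ z) ∧ (∀ c y, φ (c ^ 2 * y) = c * φ y) ∧
      φ x ≠ 0 := by
  obtain ⟨φ, hφ⟩ := exists_dual51 (K := K) x hx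
  refine ⟨fun y => φ y, φ.map_zero, fun y z => φ.map_add _ _, fun c y => ?_, hφ⟩
  exact φ.map_smul c y

variable {K : Type u} [Field K] {ℓ : ℕ}

/-- parities of the exponents -/
noncomputable def par51 (m : Fin ℓ →₀ ℕ) : Fin ℓ →₀ ℕ := m.mapRange (fun n => n % 2) rfl

/-- halves of the exponents -/
noncomputable def half51 (m : Fin ℓ →₀ ℕ) : Fin ℓ →₀ ℕ := m.mapRange (fun n => n / 2) rfl

theorem two_half51 (m : Fin ℓ →₀ ℕ) : 2 • half51 m + par51 m = m := by
  ext i
  simp only [half51, par51, Finsupp.coe_add, Finsupp.coe_smul, Pi.add_apply, Pi.smul_apply,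
    Finsupp.mapRange_apply, smul_eq_mul]
  omega

theorem par_two51 {ε : Fin ℓ →₀ ℕ} (hε : ∀ i, ε i ≤ 1) (μ : Fin ℓ →₀ ℕ) :
    par51 (2 • μ + ε) = ε := by
  ext i
  have := hε i
  simp only [par51, Finsupp.coe_add, Finsupp.coe_smul, Pi.add_apply, Pi.smul_apply,
    Finsupp.mapRange_apply, smul_eq_mul]
  omega

theorem half_two51 {ε : Fin ℓ →₀ ℕ} (hε : ∀ i, ε i ≤ 1) (μ : Fin ℓ →₀ ℕ) :
    half51 (2 • μ + ε) = μ := by
  ext i
  have := hε i
  simp only [half51, Finsupp.coe_add, Finsupp.coe_smul, Pi.add_apply, Pi.smul_apply,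
    Finsupp.mapRange_apply, smul_eq_mul]
  omega

theorem par_le51 (m : Fin ℓ →₀ ℕ) (i : Fin ℓ) : par51 m i ≤ 1 := by
  simp only [par51, Finsupp.mapRange_apply]
  omega

open Classical in
/-- the Cartier type operator -/
noncomputable def rho51 (φ : K → K) (ε : Fin ℓ →₀ ℕ) (f : S K ℓ) : S K ℓ :=
  ∑ m ∈ f.support, if par51 m = ε then monomial (half51 m) (φ (coeff m f)) else 0

theorem coeff_rho51 {φ : K → K} (h0 : φ 0 = 0) {ε : Fin ℓ →₀ ℕ} (hε : ∀ i, ε i ≤ 1) (f : S K ℓ)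
    (μ : Fin ℓ →₀ ℕ) : coeff μ (rho51 φ ε f) = φ (coeff (2 • μ + ε) f) := by
  classical
  rw [rho51, coeff_sum]
  have h1 : ∀ m ∈ f.support, coeff μ (if par51 m = ε then
      (monomial (half51 m) (φ (coeff m f)) : S K ℓ) else 0) =
      if m = 2 • μ + ε then φ (coeff m f) else 0 := by
    intro m _
    by_cases hm : m = 2 • μ + ε
    · subst hm
      rw [if_pos (par_two51 hε μ), if_pos rfl, half_two51 hε, coeff_monomial, if_pos rfl]
    · rw [if_neg hm]
      by_cases hp : par51 m = ε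
      · rw [if_pos hp, coeff_monomial, if_neg]
        intro hh
        apply hm
        rw [← two_half51 m, hh, hp]
      · rw [if_neg hp, coeff_zero]
  rw [Finset.sum_congr rfl h1, Finset.sum_ite_eq']
  by_cases hm : 2 • μ + ε ∈ f.support
  · rw [if_pos hm]
  · rw [if_neg hm, notMem_support_iff.1 hm, h0]

theorem rho_add51 {φ : K → K} (h0 : φ 0 = 0) (hadd : ∀ y z, φ (y + z) = φ y + φ z)
    {ε : Fin ℓ →₀ ℕ} (hε : ∀ i, ε i ≤ 1) (f g : S K ℓ) :
    rho51 φ ε (f + g) = rho51 φ ε f + rho51 φ ε g := by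
  ext μ
  rw [coeff_rho51 h0 hε, coeff_add, coeff_add, coeff_rho51 h0 hε, coeff_rho51 h0 hε, hadd]

theorem rho_zero51 {φ : K → K} (h0 : φ 0 = 0)
    {ε : Fin ℓ →₀ ℕ} (hε : ∀ i, ε i ≤ 1) : rho51 φ ε (0 : S K ℓ) = 0 := by
  ext μ
  rw [coeff_rho51 h0 hε, coeff_zero, coeff_zero, h0]

theorem rho_sum51 {φ : K → K} (h0 : φ 0 = 0) (hadd : ∀ y z, φ (y + z) = φ y + φ z)
    {ε : Fin ℓ →₀ ℕ} (hε : ∀ i, ε i ≤ 1) {ι : Type*} (s : Finset ι) (f : ι → S K ℓ) :
    rho51 φ ε (∑ i ∈ s, f i) = ∑ i ∈ s, rho51 φ ε (f i) := by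
  classical
  induction s using Finset.induction_on with
  | empty => rw [Finset.sum_empty, Finset.sum_empty, rho_zero51 h0 hε]
  | insert a s ha ih => rw [Finset.sum_insert ha, Finset.sum_insert ha, rho_add51 h0 hadd hε, ih]

theorem rho_mul51 (h2 : (2 : K) = 0) {φ : K → K} (h0 : φ 0 = 0)
    (hadd : ∀ y z, φ (y + z) = φ y + φ z) (hsq : ∀ c y, φ (c ^ 2 * y) = c * φ y)
    {ε : Fin ℓ →₀ ℕ} (hε : ∀ i, ε i ≤ 1) (g f : S K ℓ) :
    rho51 φ ε (g ^ 2 * f) = g * rho51 φ ε f := by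
  have h2' : (2 : S K ℓ) = 0 := by
    have : (C (2 : K) : S K ℓ) = 2 := map_ofNat C 2
    rw [← this, h2, C_0]
  induction g using MvPolynomial.induction_on' with
  | monomial ν c =>
    ext μ
    rw [coeff_rho51 h0 hε, monomial_pow, coeff_monomial_mul', coeff_monomial_mul']
    by_cases h : ν ≤ μ
    · have h' : 2 • ν ≤ 2 • μ + ε := by
        intro i
        have := h i
        simp only [Finsupp.coe_add, Finsupp.coe_smul, Pi.add_apply, Pi.smul_apply, smul_eq_mul]
        omega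
      have h3 : 2 • μ + ε - 2 • ν = 2 • (μ - ν) + ε := by
        ext i
        have := h i
        simp only [Finsupp.coe_add, Finsupp.coe_smul, Pi.add_apply, Pi.smul_apply, smul_eq_mul,
          Finsupp.coe_tsub, Pi.sub_apply]
        omega
      rw [if_pos h, if_pos h', hsq, coeff_rho51 h0 hε, h3]
    · have h' : ¬ 2 • ν ≤ 2 • μ + ε := by
        intro h'
        apply h
        intro i
        have h5 := h' i
        have h6 := hε i
        simp only [Finsupp.coe_add, Finsupp.coe_smul, Pi.add_apply, Pi.smul_apply,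
          smul_eq_mul] at h5
        omega
      rw [if_neg h, if_neg h', h0]
  | add p q hp hq =>
    have h3 : (p + q) ^ 2 * f = p ^ 2 * f + q ^ 2 * f := by
      have : (p + q) ^ 2 * f = p ^ 2 * f + q ^ 2 * f + 2 * (p * q * f) := by ring
      rw [this, h2', zero_mul, add_zero]
    rw [h3, rho_add51 h0 hadd hε, hp, hq, add_mul]

end Pool.Agent.Lib.MP_fe1391_co.Thick51
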