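import Pool.Agent.Lib.MP_fe1391_co.Thick51.Gr
import Pool.Agent.Lib.MP_fe1391_co.Tame.ConSq
import Pool.Agent.Lib.MP_fe1391_co.Tame.Trans

/-!
# Multiderivations below the first relation are tensors in the generators
-/

set_option autoImplicit false

namespace Pool.Agent.Lib.MP_fe1391_co.Thick51

open MvPolynomial Pool.Agent.Lib.MP_fe1391_co.Tame

universe u

variable {K : Type u} [Field K] {ℓ : ℕ}

/-- `D(B)` is free on `θ` in degrees at most `k` -/
structure FU51 (B : Finset (Fin ℓ → K)) {r : ℕ} (d : Fin r → ℕ) (θ : Fin r → Fin ℓ → S K ℓ)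
    (k : ℤ) : Prop where
  hom : ∀ i j, (θ i j).IsHomogeneous (d i)
  log : ∀ i, Saito.IsLog B (θ i)
  gen : ∀ m : ℤ, m ≤ k → ∀ v : Fin ℓ → S K ℓ, Saito.IsLog B v →
    (∀ j, v j ∈ grS (K := K) (ℓ := ℓ) m) →
    ∃ c : Fin r → S K ℓ, (∀ i, c i ∈ grS (K := K) (ℓ := ℓ) (m - d i)) ∧
      ∀ j, v j = ∑ i, c i * θ i j
  inj : NoRel51 d θ k

/-- evaluation of a tensor -/
noncomputable def ev51 {r : ℕ} (θ : Fin r → Fin ℓ → S K ℓ) {p : ℕ} (c : (Fin p → Fin r) → S K ℓ)
    (w : Fin p → Fin ℓ) : S K ℓ := ∑ i : Fin p → Fin r, c i * ∏ a, θ (i a) (w a)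

theorem ev_cons51 {r : ℕ} (θ : Fin r → Fin ℓ → S K ℓ) {p : ℕ} (c : (Fin (p + 1) → Fin r) → S K ℓ)
    (j : Fin ℓ) (w : Fin p → Fin ℓ) :
    ev51 θ c (Fin.cons j w) = ∑ x, ev51 θ (fun i => c (Fin.cons x i)) w * θ x j := by
  unfold ev51
  rw [← Equiv.sum_comp (Fin.consEquiv (fun _ : Fin (p + 1) => Fin r)), Fintype.sum_prod_type]
  refine Finset.sum_congr rfl fun x _ => ?_
  rw [Finset.sum_mul]
  refine Finset.sum_congr rfl fun i _ => ?_
  have h : (Fin.consEquiv (fun _ : Fin (p + 1) => Fin r)) (x, i) =
      (Fin.cons x i : Fin (p + 1) → Fin r) := rfl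
  rw [h, Fin.prod_univ_succ]
  simp only [Fin.cons_zero, Fin.cons_succ]
  ring

theorem ev_zero51 {r : ℕ} (θ : Fin r → Fin ℓ → S K ℓ) (c : (Fin 0 → Fin r) → S K ℓ)
    (w : Fin 0 → Fin ℓ) (i : Fin 0 → Fin r) : ev51 θ c w = c i := by
  unfold ev51
  rw [Fintype.sum_eq_single i fun x hx => absurd (Subsingleton.elim x i) hx]
  simp

/-- total degree of a word -/
def sd51 {r : ℕ} (d : Fin r → ℕ) {p : ℕ} (i : Fin p → Fin r) : ℤ := ∑ a, (d (i a) : ℤ)

theorem sd_cons51 {r : ℕ} (d : Fin r → ℕ) {p : ℕ} (x : Fin r) (i : Fin p → Fin r) :
    sd51 d (Fin.cons x i) = d x + sd51 d i := by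
  unfold sd51
  rw [Fin.sum_univ_succ]
  simp only [Fin.cons_zero, Fin.cons_succ]

theorem ev_mem51 {r : ℕ} {d : Fin r → ℕ} {θ : Fin r → Fin ℓ → S K ℓ}
    (hθ : ∀ i j, (θ i j).IsHomogeneous (d i)) {p : ℕ} {m : ℤ} {c : (Fin p → Fin r) → S K ℓ}
    (hc : ∀ i, c i ∈ grS (K := K) (ℓ := ℓ) (m - sd51 d i)) (w : Fin p → Fin ℓ) :
    ev51 θ c w ∈ grS (K := K) (ℓ := ℓ) m := by
  refine Submodule.sum_mem _ fun i _ => ?_
  have h := grS_mul51 (hc i) (grS_prod51 Finset.univ (fun a => θ (i a) (w a))
    (fun a => (d (i a) : ℤ)) fun a _ => grS_of_hom51 (hθ _ _))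
  have e : m - sd51 d i + ∑ a, (d (i a) : ℤ) = m := by unfold sd51; ring
  rwa [e] at h

/-- injectivity of the evaluation -/
theorem ev_inj51 {r : ℕ} {d : Fin r → ℕ} {θ : Fin r → Fin ℓ → S K ℓ} {k : ℤ}
    (hθ : ∀ i j, (θ i j).IsHomogeneous (d i)) (hinj : NoRel51 d θ k) :
    ∀ (p : ℕ) (m : ℤ), m ≤ k → ∀ c : (Fin p → Fin r) → S K ℓ,
      (∀ i, c i ∈ grS (K := K) (ℓ := ℓ) (m - sd51 d i)) → (∀ w, ev51 θ c w = 0) →
      ∀ i, c i = 0 := by
  intro p
  induction p with
  | zero =>
    intro m _ c _ h i
    rw [← ev_zero51 θ c (fun a => a.elim0) i]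
    exact h _
  | succ p ih =>
    intro m hm c hc h i
    obtain ⟨x, i', rfl⟩ : ∃ x i', i = Fin.cons x i' := ⟨i 0, Fin.tail i, (Fin.cons_self_tail i).symm⟩
    have hc' : ∀ x (i : Fin p → Fin r), c (Fin.cons x i) ∈
        grS (K := K) (ℓ := ℓ) (m - d x - sd51 d i) := by
      intro x i
      have := hc (Fin.cons x i)
      rw [sd_cons51] at this
      have e : m - (d x + sd51 d i) = m - d x - sd51 d i := by ring
      rwa [e] at this
    refine ih (m - d x) (by omega) (fun i => c (Fin.cons x i)) (hc' x) ?_ i'
    intro w
    exact hinj m hm (fun x => ev51 θ (fun i => c (Fin.cons x i)) w)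
      (fun x => ev_mem51 hθ (hc' x) w) (fun j => by rw [← ev_cons51, h]) x

theorem sd_swap51 {r : ℕ} (d : Fin r → ℕ) {p : ℕ} (i : Fin p → Fin r) (σ : Equiv.Perm (Fin p)) :
    sd51 d (i ∘ σ) = sd51 d i := by
  unfold sd51
  exact Equiv.sum_comp σ fun a => (d (i a) : ℤ)

theorem ev_swap51 {r : ℕ} (θ : Fin r → Fin ℓ → S K ℓ) {p : ℕ} (c : (Fin p → Fin r) → S K ℓ)
    (w : Fin p → Fin ℓ) (a b : Fin p) :
    ev51 θ (fun i => c (i ∘ Equiv.swap a b)) w = ev51 θ c (w ∘ Equiv.swap a b) := by
  unfold ev51
  rw [← Equiv.sum_comp (Equiv.arrowCongr (Equiv.swap a b) (Equiv.refl (Fin r)))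
    (fun i => c (i ∘ Equiv.swap a b) * ∏ x, θ (i x) (w x))]
  refine Finset.sum_congr rfl fun i _ => ?_
  have h1 : (Equiv.arrowCongr (Equiv.swap a b) (Equiv.refl (Fin r))) i = i ∘ Equiv.swap a b := by
    funext x
    simp [Equiv.arrowCongr]
  rw [h1]
  have h2 : (i ∘ Equiv.swap a b) ∘ Equiv.swap a b = i := by
    funext x
    simp
  rw [h2, ← Equiv.prod_comp (Equiv.swap a b)]
  congr 1
  refine Finset.prod_congr rfl fun x _ => ?_
  simp

/-- the array of a tensor which evaluates to an alternating array is alternating, if its first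
slices are -/
theorem alt_of_slices51 {r : ℕ} {d : Fin r → ℕ} {θ : Fin r → Fin ℓ → S K ℓ} {k : ℤ}
    (hθ : ∀ i j, (θ i j).IsHomogeneous (d i)) (hinj : NoRel51 d θ k) {p : ℕ} {m : ℤ} (hm : m ≤ k)
    (c : (Fin (p + 1) → Fin r) → S K ℓ)
    (hc : ∀ i, c i ∈ grS (K := K) (ℓ := ℓ) (m - sd51 d i))
    (hs : ∀ x, IsAlt (fun i : Fin p → Fin r => c (Fin.cons x i)))
    (he : IsAlt (ev51 θ c)) : IsAlt c := by
  have hsw : ∀ w (a b : Fin (p + 1)), a ≠ b → c (w ∘ Equiv.swap a b) = - c w := by
    intro i a b hab
    have h1 := ev_inj51 hθ hinj (p + 1) m hm (fun i => c (i ∘ Equiv.swap a b) + c i)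
      (fun i => Submodule.add_mem _ (by rw [← sd_swap51 d i (Equiv.swap a b)]; exact hc _) (hc i))
      (fun w => by
        have h2 : ev51 θ (fun i => c (i ∘ Equiv.swap a b) + c i) w =
            ev51 θ (fun i => c (i ∘ Equiv.swap a b)) w + ev51 θ c w := by
          unfold ev51
          rw [← Finset.sum_add_distrib]
          exact Finset.sum_congr rfl fun i _ => by ring
        rw [h2, ev_swap51, he.sw w a b hab, neg_add_cancel]) i
    exact eq_neg_of_add_eq_zero_left h1
  refine ⟨fun i hi => ?_, hsw⟩
  -- tail not injective
  have htail : ∀ i : Fin (p + 1) → Fin r, (∃ a b : Fin p, a ≠ b ∧ i a.succ = i b.succ) →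
      c i = 0 := by
    rintro i ⟨a, b, hab, h⟩
    rw [← Fin.cons_self_tail i]
    exact (hs (i 0)).nz (Fin.tail i) fun hinj' => hab (hinj' h)
  obtain ⟨a, b, hab, hne⟩ := Function.not_injective_iff.1 hi
  -- the first slot equals another slot
  have hfirst : ∀ b : Fin p, i 0 = i b.succ → c i = 0 := by
    intro b hb
    by_cases hp : ∃ e : Fin p, e ≠ b
    · obtain ⟨e, he⟩ := hp
      have h1 := hsw i 0 e.succ (Fin.succ_ne_zero _).symm
      have h2 : c (i ∘ Equiv.swap 0 e.succ) = 0 := by
        apply htail
        refine ⟨e, b, he, ?_⟩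
        rw [Function.comp_apply, Equiv.swap_apply_right, Function.comp_apply,
          Equiv.swap_apply_of_ne_of_ne (Fin.succ_ne_zero _)
            (fun h => he (Fin.succ_injective _ h).symm), hb]
      rw [h2] at h1
      exact (neg_eq_zero.1 h1.symm)
    · push Not at hp
      by_cases h2 : (2 : K) = 0
      · -- characteristic two, two slots
        have hone : ∀ j : Fin (p + 1), j = 0 ∨ j = b.succ := by
          intro j
          refine Fin.cases (Or.inl rfl) (fun j => Or.inr ?_) j
          rw [hp j]
        have h2' : (2 : S K ℓ) = 0 := by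
          have : (C (2 : K) : S K ℓ) = 2 := map_ofNat C 2
          rw [← this, h2, C_0]
        have hprod : ∀ g : Fin (p + 1) → S K ℓ, ∏ x, g x = g 0 * g b.succ := by
          intro g
          rw [Fin.prod_univ_succ]
          congr 1
          rw [Fintype.prod_eq_single b fun x hx => absurd (hp x) hx]
        have hsum : ∀ g : Fin (p + 1) → ℤ, ∑ x, g x = g 0 + g b.succ := by
          intro g
          rw [Fin.sum_univ_succ]
          congr 1
          rw [Fintype.sum_eq_single b fun x hx => absurd (hp x) hx]
        have hsq := sq_zero51 h2 hinj hm (fun x => c (fun _ => x)) (fun x => by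
            have := hc (fun _ => x)
            have e : sd51 d (fun _ : Fin (p + 1) => x) = 2 * d x := by
              unfold sd51
              rw [hsum]
              ring
            rwa [e] at this) (by
          intro j
          have h3 : ev51 θ c (fun _ => j) = 0 := he.nz _ (by
            intro hh
            exact (Fin.succ_ne_zero b).symm (hh rfl))
          have h4 : ev51 θ c (fun _ => j) =
              ∑ x, c (fun _ => x) * (θ x j) ^ 2 := by
            unfold ev51
            classical
            rw [← Finset.sum_filter_add_sum_filter_not Finset.univ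
              (fun i : Fin (p + 1) → Fin r => i 0 = i b.succ)]
            have h5 : ∑ i ∈ Finset.univ.filter (fun i : Fin (p + 1) → Fin r => ¬ i 0 = i b.succ),
                c i * ∏ a, θ (i a) j = 0 := by
              refine Finset.sum_involution (fun i _ => i ∘ Equiv.swap 0 b.succ) ?_ ?_ ?_ ?_
              · intro i _
                rw [hsw i 0 b.succ (Fin.succ_ne_zero _).symm, hprod, hprod, Function.comp_apply,
                  Function.comp_apply, Equiv.swap_apply_left, Equiv.swap_apply_right]
                ring
              · intro i hi _ hc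
                rw [Finset.mem_filter] at hi
                apply hi.2
                have := congrFun hc b.succ
                rw [Function.comp_apply, Equiv.swap_apply_right] at this
                exact this
              · intro i hi
                rw [Finset.mem_filter] at hi ⊢
                refine ⟨Finset.mem_univ _, ?_⟩
                rw [Function.comp_apply, Function.comp_apply, Equiv.swap_apply_left,
                  Equiv.swap_apply_right]
                exact fun h => hi.2 h.symm
              · intro i _
                funext x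
                simp
            rw [h5, add_zero]
            refine Finset.sum_bij' (fun i _ => i 0) (fun x _ => fun _ => x) ?_ ?_ ?_ ?_ ?_
            · intro i _
              exact Finset.mem_univ _
            · intro x _
              rw [Finset.mem_filter]
              exact ⟨Finset.mem_univ _, rfl⟩
            · intro i hi
              rw [Finset.mem_filter] at hi
              funext y
              rcases hone y with h | h
              · rw [h]
              · rw [h, hi.2]
            · intro x _
              rfl
            · intro i hi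
              rw [Finset.mem_filter] at hi
              have e : i = fun _ => i 0 := by
                funext y
                rcases hone y with h | h
                · rw [h]
                · rw [h, hi.2]
              rw [hprod, ← hi.2, sq, ← e]
          rw [← h4, h3]) (i 0)
        have e : i = fun _ => i 0 := by
          funext y
          rcases hone y with h | h
          · rw [h]
          · rw [h, hb]
        rw [e]
        exact hsq
      · have h1 := hsw i 0 b.succ (Fin.succ_ne_zero _).symm
        have h3 : i ∘ Equiv.swap 0 b.succ = i := by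
          funext x
          rw [Function.comp_apply]
          rcases eq_or_ne x 0 with rfl | hx
          · rw [Equiv.swap_apply_left, hb]
          · rcases eq_or_ne x b.succ with rfl | hx'
            · rw [Equiv.swap_apply_right, hb]
            · rw [Equiv.swap_apply_of_ne_of_ne hx hx']
        rw [h3] at h1
        have h4 : (C (2 : K) : S K ℓ) * c i = 0 := by
          have : (C (2 : K) : S K ℓ) = 2 := map_ofNat C 2
          rw [this]
          linear_combination h1
        rcases mul_eq_zero.1 h4 with h5 | h5
        · exact absurd (C_eq_zero.1 h5) h2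
        · exact h5
  revert hab hne
  refine Fin.cases ?_ (fun a => ?_) a
  · refine Fin.cases ?_ (fun b => ?_) b
    · intro h1 h2
      exact absurd rfl h2
    · intro h1 h2
      exact hfirst b h1
  · refine Fin.cases ?_ (fun b => ?_) b
    · intro h1 h2
      exact hfirst a h1.symm
    · intro h1 h2
      exact htail i ⟨a, b, fun h => h2 (congrArg Fin.succ h), h1⟩

theorem lin_ne51 {b : Fin ℓ → K} (hb : b ≠ 0) : (lin b : S K ℓ) ≠ 0 := Pair.lin_ne_zero hb

/-- the vector field obtained from an alternating array by fixing all slots but the first -/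
theorem slice_log51 {B : Finset (Fin ℓ → K)} {p : ℕ} {η : (Fin (p + 1) → Fin ℓ) → S K ℓ}
    (hη : η ∈ LogA (S K ℓ) B (p + 1)) (w : Fin p → Fin ℓ) :
    Saito.IsLog B (fun j => η (Fin.cons j w)) := by
  intro b hb
  by_cases hne : Nonempty (Fin ℓ)
  · have h1 := (Trans.mem_logA.1 hη).2 b hb (Fin.cons hne.some w) 0
    simp only [Fin.update_cons_zero] at h1
    exact h1
  · rw [not_nonempty_iff] at hne
    simp

theorem exists_tensor51 {B : Finset (Fin ℓ → K)} (hB : Tame.Norm B) {r : ℕ} {d : Fin r → ℕ}
    {θ : Fin r → Fin ℓ → S K ℓ} {k : ℤ} (hF : FU51 B d θ k) :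
    ∀ (p : ℕ) (m : ℤ), m ≤ k → ∀ η ∈ LogA (S K ℓ) B p,
      (∀ w, η w ∈ grS (K := K) (ℓ := ℓ) m) →
      ∃ c : (Fin p → Fin r) → S K ℓ, (∀ i, c i ∈ grS (K := K) (ℓ := ℓ) (m - sd51 d i)) ∧
        IsAlt c ∧ ∀ w, η w = ev51 θ c w := by
  intro p
  induction p with
  | zero =>
    intro m _ η _ hm
    refine ⟨fun _ => η (fun a => a.elim0), fun i => ?_, ⟨fun w hw => ?_, fun w i => i.elim0⟩,
      fun w => ?_⟩
    · have e : m - sd51 d i = m := by
        unfold sd51
        simp
      rw [e]
      exact hm _
    · exact absurd (Function.injective_of_subsingleton w) hw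
    · rw [ev_zero51 θ _ w (fun a => a.elim0)]
      exact congrArg η (Subsingleton.elim _ _)
  | succ p ih =>
    intro m hm η hη hηm
    obtain ⟨halt, hlog⟩ := Trans.mem_logA.1 hη
    choose c' hc1 hc2 using fun w : Fin p → Fin ℓ =>
      hF.gen m hm (fun j => η (Fin.cons j w)) (slice_log51 hη w) (fun j => hηm _)
    -- the slices are logarithmic
    have hsl : ∀ x : Fin r, (fun w => c' w x) ∈ LogA (S K ℓ) B p := by
      intro x
      rw [Trans.mem_logA]
      refine ⟨⟨fun w hw => ?_, fun w a b hab => ?_⟩, fun b hb w a => ?_⟩
      · refine hF.inj m hm (c' w) (hc1 w) (fun j => ?_) x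
        rw [← hc2 w j]
        apply halt.nz
        intro h
        apply hw
        intro y z hyz
        have := @h y.succ z.succ (by rw [Fin.cons_succ, Fin.cons_succ, hyz])
        exact Fin.succ_injective _ this
      · have h1 := hF.inj m hm (fun x => c' (w ∘ Equiv.swap a b) x + c' w x)
          (fun x => Submodule.add_mem _ (hc1 _ x) (hc1 _ x)) (fun j => by
            simp only [add_mul, Finset.sum_add_distrib]
            rw [← hc2, ← hc2, Pair.cons_swap,
              halt.sw _ _ _ (fun h => hab (Fin.succ_injective _ h)), neg_add_cancel]) x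
        exact eq_neg_of_add_eq_zero_left h1
      · -- division by `lin b`
        have hup : ∀ (j i : Fin ℓ), (Fin.cons j (Function.update w a i) : Fin (p + 1) → Fin ℓ) =
            Function.update (Fin.cons j w : Fin (p + 1) → Fin ℓ) a.succ i := by
          intro j i
          rw [Fin.cons_update]
        have hdv : ∀ j, lin b ∣ ∑ i, C (b i) * η (Fin.cons j (Function.update w a i)) := by
          intro j
          have := hlog b hb (Fin.cons j w) a.succ
          simp only [hup]
          exact this
        choose U hU using hdv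
        have hb0 := lin_ne51 (hB.ne b hb)
        have hUm : ∀ j, U j ∈ grS (K := K) (ℓ := ℓ) (m - 1) := by
          intro j
          apply grS_div51 hb0 (lin_grS51 b)
          rw [← hU j]
          exact Submodule.sum_mem _ fun i _ => C_mul_grS51 _ (hηm _)
        have hUlog : Saito.IsLog B U := by
          intro b' hb'
          have h1 : lin b * ∑ j, C (b' j) * U j =
              ∑ j, C (b' j) * ∑ i, C (b i) * η (Fin.cons j (Function.update w a i)) := by
            rw [Finset.mul_sum]
            refine Finset.sum_congr rfl fun j _ => ?_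
            rw [hU j]
            ring
          by_cases hbb : b' = b
          · subst hbb
            have h2 : lin b' * ∑ j, C (b' j) * U j = 0 := by
              rw [h1]
              simp only [Finset.mul_sum]
              refine ConSq.sum_alt _ (fun i => ?_) (fun i j => ?_)
              · rw [halt.nz, mul_zero, mul_zero]
                intro hi
                have h3 : (Fin.cons i (Function.update w a i) : Fin (p + 1) → Fin ℓ) 0 =
                    (Fin.cons i (Function.update w a i) : Fin (p + 1) → Fin ℓ) a.succ := by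
                  rw [Fin.cons_zero, Fin.cons_succ, Function.update_self]
                exact Fin.succ_ne_zero _ (hi h3).symm
              · have h3 : (Fin.cons j (Function.update w a i) : Fin (p + 1) → Fin ℓ) =
                    (Fin.cons i (Function.update w a j) : Fin (p + 1) → Fin ℓ) ∘
                      Equiv.swap 0 a.succ := by
                  funext y
                  refine Fin.cases ?_ (fun y => ?_) y
                  · rw [Function.comp_apply, Equiv.swap_apply_left, Fin.cons_zero, Fin.cons_succ,
                      Function.update_self]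
                  · rcases eq_or_ne y a with rfl | hy
                    · rw [Function.comp_apply, Equiv.swap_apply_right, Fin.cons_zero,
                        Fin.cons_succ, Function.update_self]
                    · rw [Function.comp_apply, Equiv.swap_apply_of_ne_of_ne (Fin.succ_ne_zero _)
                        (fun h => hy (Fin.succ_injective _ h)), Fin.cons_succ, Fin.cons_succ,
                        Function.update_of_ne hy, Function.update_of_ne hy]
                rw [h3, halt.sw _ _ _ (Fin.succ_ne_zero _).symm]
                ring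
            rw [(mul_eq_zero.1 h2).resolve_left hb0]
            exact dvd_zero _
          · have h2 : lin b' ∣ lin b * ∑ j, C (b' j) * U j := by
              rw [h1]
              have h3 : ∑ j, C (b' j) * ∑ i, C (b i) * η (Fin.cons j (Function.update w a i)) =
                  ∑ i, C (b i) * ∑ j, C (b' j) * η (Fin.cons j (Function.update w a i)) := by
                simp only [Finset.mul_sum]
                rw [Finset.sum_comm]
                exact Finset.sum_congr rfl fun i _ => Finset.sum_congr rfl fun j _ => by ring
              rw [h3]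
              exact Finset.dvd_sum fun i _ =>
                Dvd.dvd.mul_left (slice_log51 hη (Function.update w a i) b' hb') _
            rcases (Pair.lin_prime (hB.ne b' hb')).dvd_or_dvd h2 with h3 | h3
            · obtain ⟨c, hc⟩ := Pair.lin_dvd_lin (hB.ne b' hb') h3
              exact absurd hc (hB.ind b' hb' b hb hbb c)
            · exact h3
        obtain ⟨e, he1, he2⟩ := hF.gen (m - 1) (by omega) U hUlog hUm
        have h4 := hF.inj m hm (fun x => ∑ i, C (b i) * c' (Function.update w a i) x - lin b * e x)
          (fun x => Submodule.sub_mem _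
            (Submodule.sum_mem _ fun i _ => C_mul_grS51 _ (hc1 _ x)) (by
              have := grS_mul51 (lin_grS51 b) (he1 x)
              have e1 : 1 + (m - 1 - (d x : ℤ)) = m - d x := by ring
              rwa [e1] at this)) (fun j => by
            simp only [sub_mul, Finset.sum_sub_distrib]
            have h5 : ∑ x, (∑ i, C (b i) * c' (Function.update w a i) x) * θ x j =
                ∑ i, C (b i) * η (Fin.cons j (Function.update w a i)) := by
              simp only [Finset.sum_mul]
              rw [Finset.sum_comm]
              refine Finset.sum_congr rfl fun i _ => ?_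
              rw [hc2, Finset.mul_sum]
              exact Finset.sum_congr rfl fun x _ => by ring
            have h6 : ∑ x, lin b * e x * θ x j = lin b * U j := by
              rw [he2 j, Finset.mul_sum]
              exact Finset.sum_congr rfl fun x _ => by ring
            rw [h5, h6, hU j, sub_self]) x
        exact ⟨e x, sub_eq_zero.1 h4⟩
    choose T hT1 hT2 hT3 using fun x => ih (m - d x) (by omega) (fun w => c' w x) (hsl x)
      (fun w => hc1 w x)
    let c : (Fin (p + 1) → Fin r) → S K ℓ := fun i => T (i 0) (Fin.tail i)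
    have hcc : ∀ x (i : Fin p → Fin r), c (Fin.cons x i) = T x i := by
      intro x i
      show T ((Fin.cons x i : Fin (p + 1) → Fin r) 0)
        (Fin.tail (Fin.cons x i : Fin (p + 1) → Fin r)) = T x i
      rw [Fin.cons_zero, Fin.tail_cons]
    have hcg : ∀ i, c i ∈ grS (K := K) (ℓ := ℓ) (m - sd51 d i) := by
      intro i
      have h1 := hT1 (i 0) (Fin.tail i)
      have h2 : sd51 d i = d (i 0) + sd51 d (Fin.tail i) := by
        conv_lhs => rw [← Fin.cons_self_tail i]
        exact sd_cons51 d (i 0) (Fin.tail i)
      have e : m - (d (i 0) : ℤ) - sd51 d (Fin.tail i) = m - sd51 d i := by rw [h2]; ring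
      rwa [e] at h1
    have hev : ∀ w, η w = ev51 θ c w := by
      intro w
      obtain ⟨j, w', rfl⟩ : ∃ j w', w = Fin.cons j w' :=
        ⟨w 0, Fin.tail w, (Fin.cons_self_tail w).symm⟩
      rw [ev_cons51, hc2 w' j]
      refine Finset.sum_congr rfl fun x _ => ?_
      rw [hT3 x w']
      simp only [hcc]
    have hsl2 : ∀ x, IsAlt (fun i : Fin p → Fin r => c (Fin.cons x i)) := by
      intro x
      simp only [hcc]
      exact hT2 x
    have halt2 : IsAlt (ev51 θ c) := by
      have : ev51 θ c = η := funext fun w => (hev w).symm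
      rw [this]
      exact halt
    exact ⟨c, hcg, alt_of_slices51 hF.hom hF.inj hm c hcg hsl2 halt2, hev⟩

end Pool.Agent.Lib.MP_fe1391_co.Thick51
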