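import Mathlib
set_option autoImplicit false
namespace Pool.Agent.Lib.MP_fe1391_co.Thick51

/-- convolution with `1 + x + ... + x^e` -/
def cv51 (e : ℕ) (G : ℤ → ℤ) : ℤ → ℤ := fun m => ∑ t ∈ Finset.range (e + 1), G (m - t)

/-- symmetric unimodal sequences with controlled flat part; `M` bounds the factors -/
structure Un51 (G : ℤ → ℤ) (σ M : ℤ) : Prop where
  sym : ∀ m, G (σ - m) = G m
  neg : ∀ m, m < 0 → G m = 0
  pos : ∀ m, 0 ≤ m → m ≤ σ → 0 < G m
  weak : ∀ a b, a ≤ b → a + b ≤ σ → G a ≤ G b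
  strict : ∀ a b, 0 ≤ a → a < b → a + b < σ → a + M < σ → G a < G b

theorem cv_diff51 (e : ℕ) (G : ℤ → ℤ) (m : ℤ) :
    cv51 e G (m + 1) = cv51 e G m + (G (m + 1) - G (m - e)) := by
  unfold cv51
  rw [Finset.sum_range_succ', Finset.sum_range_succ]
  have h : ∑ t ∈ Finset.range e, G (m + 1 - ((t + 1 : ℕ) : ℤ)) =
      ∑ t ∈ Finset.range e, G (m - t) :=
    Finset.sum_congr rfl fun t _ => by
      congr 1
      push_cast
      ring
  rw [h]
  have e2 : m + 1 - ((0 : ℕ) : ℤ) = m + 1 := by simp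
  rw [e2]
  ring

theorem un_cv51 {G : ℤ → ℤ} {σ M : ℤ} (h : Un51 G σ M) (hσ : 0 ≤ σ) (e : ℕ) (he : M ≤ e) :
    Un51 (cv51 e G) (σ + e) e := by
  have hsym : ∀ m, cv51 e G (σ + e - m) = cv51 e G m := by
    intro m
    unfold cv51
    rw [← Finset.sum_range_reflect]
    refine Finset.sum_congr rfl fun t ht => ?_
    rw [Finset.mem_range] at ht
    rw [← h.sym]
    congr 1
    have : ((e + 1 - 1 - t : ℕ) : ℤ) = e - t := by omega
    rw [this]
    ring
  have hneg : ∀ m, m < 0 → cv51 e G m = 0 := by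
    intro m hm
    unfold cv51
    exact Finset.sum_eq_zero fun t _ => h.neg _ (by omega)
  have hnn : ∀ m, 0 ≤ G m := by
    intro m
    rcases lt_or_ge m 0 with h1 | h1
    · rw [h.neg m h1]
    · rcases le_or_gt m σ with h2 | h2
      · exact (h.pos m h1 h2).le
      · rw [← h.sym, h.neg _ (by omega)]
  have hpos : ∀ m, 0 ≤ m → m ≤ σ + e → 0 < cv51 e G m := by
    intro m h0 h1
    unfold cv51
    apply Finset.sum_pos' (fun t _ => hnn _)
    rcases le_or_gt m σ with h2 | h2
    · exact ⟨0, by simp, h.pos _ (by simpa using h0) (by simpa using h2)⟩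
    · refine ⟨(m - σ).toNat, by rw [Finset.mem_range]; omega, h.pos _ (by omega) (by omega)⟩
  -- increments
  have hinc : ∀ m, 2 * m + 1 ≤ σ + e → cv51 e G m ≤ cv51 e G (m + 1) := by
    intro m hm
    rw [cv_diff51]
    have := h.weak (m - e) (m + 1) (by omega) (by omega)
    omega
  have hchain : ∀ (n : ℕ) (a : ℤ), 2 * (a + n) ≤ σ + e + 1 → cv51 e G a ≤ cv51 e G (a + n) := by
    intro n
    induction n with
    | zero => intro a _; simp
    | succ n ih =>
      intro a ha
      push_cast at ha ⊢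
      have h1 := ih a (by omega)
      have h2 := hinc (a + n) (by omega)
      have e3 : a + (n + 1 : ℤ) = a + n + 1 := by ring
      rw [e3]
      exact h1.trans h2
  have hchain' : ∀ a b, a ≤ b → 2 * b ≤ σ + e + 1 → cv51 e G a ≤ cv51 e G b := by
    intro a b hab hb
    have := hchain (b - a).toNat a (by omega)
    have e3 : a + ((b - a).toNat : ℤ) = b := by omega
    rwa [e3] at this
  refine ⟨hsym, hneg, hpos, ?_, ?_⟩
  · intro a b hab hs
    by_cases hb : 2 * b ≤ σ + e + 1
    · exact hchain' a b hab hb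
    · rw [← hsym b]
      exact hchain' a _ (by omega) (by omega)
  · intro a b h0 hab hs hM
    have h1 : cv51 e G a < cv51 e G (a + 1) := by
      rw [cv_diff51]
      have h2 : G (a - e) < G (a + 1) := by
        rcases lt_or_ge (a - e) 0 with h3 | h3
        · rw [h.neg _ h3]
          exact h.pos _ (by omega) (by omega)
        · exact h.strict _ _ h3 (by omega) (by omega) (by omega)
      omega
    refine lt_of_lt_of_le h1 ?_
    by_cases hb : 2 * b ≤ σ + e + 1
    · exact hchain' _ b (by omega) hb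
    · rw [← hsym b]
      exact hchain' _ _ (by omega) (by omega)

end Pool.Agent.Lib.MP_fe1391_co.Thick51
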